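import Mathlib
import Pool.Agent.Helper209.CX.DDefs
import Pool.Agent.Helper209.CX.K01

namespace Pool.Agent.Q177.CW
open MeasureTheory FourierTransform Pool.Agent.Helper209.CX
open scoped ComplexConjugate SchwartzMap ENNReal

variable {d : ℕ}

theorem memLp_mul_bdd (m : Ed d → ℂ) (hm : Measurable m) (K : ℝ) (hK : ∀ x, ‖m x‖ ≤ K) (u : L2d d) :
    MemLp (fun x => m x * u x) 2 volume :=
  MemLp.of_le_mul (c := K) (Lp.memLp u) (hm.aestronglyMeasurable.mul (Lp.memLp u).1)
    (Filter.Eventually.of_forall fun x => by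
      rw [norm_mul]; exact mul_le_mul_of_nonneg_right (hK x) (norm_nonneg _))

/-- a linear operator on `L²` given by a pointwise multiplication with bounds -/
noncomputable def mkOp (m : Ed d → ℂ) (J : L2d d →L[ℂ] L2d d) (K : ℝ)
    (h1 : ∀ u, MemLp (fun x => m x * (J u) x) 2 volume)
    (h2 : ∀ u, ‖(h1 u).toLp _‖ ≤ K * ‖u‖) : L2d d →L[ℂ] L2d d :=
  LinearMap.mkContinuous
    { toFun := fun u => (h1 u).toLp _
      map_add' := by
        intro u v
        apply Lp.ext
        filter_upwards [(h1 (u + v)).coeFn_toLp, (h1 u).coeFn_toLp, (h1 v).coeFn_toLp,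
          Lp.coeFn_add ((h1 u).toLp _) ((h1 v).toLp _), Lp.coeFn_add (J u) (J v)] with x a b c e f
        rw [a, e, Pi.add_apply, b, c, map_add, f, Pi.add_apply, mul_add]
      map_smul' := by
        intro c u
        apply Lp.ext
        filter_upwards [(h1 (c • u)).coeFn_toLp, (h1 u).coeFn_toLp,
          Lp.coeFn_smul c ((h1 u).toLp _), Lp.coeFn_smul c (J u)] with x a b e f
        rw [a, RingHom.id_apply, e, Pi.smul_apply, b, map_smul, f, Pi.smul_apply, smul_eq_mul,
          smul_eq_mul]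
        ring } K h2

theorem mkOp_ae (m : Ed d → ℂ) (J : L2d d →L[ℂ] L2d d) (K : ℝ)
    (h1 : ∀ u, MemLp (fun x => m x * (J u) x) 2 volume)
    (h2 : ∀ u, ‖(h1 u).toLp _‖ ≤ K * ‖u‖) (u : L2d d) :
    mkOp m J K h1 h2 u =ᵐ[volume] fun x => m x * (J u) x :=
  (h1 u).coeFn_toLp

/-- multiplication by a bounded measurable function -/
noncomputable def mulOp (m : Ed d → ℂ) (hm : Measurable m) (K : ℝ) (hK : ∀ x, ‖m x‖ ≤ K) :
    L2d d →L[ℂ] L2d d :=
  mkOp m (ContinuousLinearMap.id ℂ _) K (fun u => memLp_mul_bdd m hm K hK u) (fun u => by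
    have hK0 : 0 ≤ K := (norm_nonneg _).trans (hK 0)
    refine Lp.norm_le_mul_norm_of_ae_le_mul (c := K) ?_
    filter_upwards [(memLp_mul_bdd m hm K hK u).coeFn_toLp] with x hx
    refine (le_of_eq (congrArg norm hx)).trans ?_
    rw [norm_mul]
    exact mul_le_mul_of_nonneg_right (hK x) (norm_nonneg _))

theorem mulOp_ae (m : Ed d → ℂ) (hm : Measurable m) (K : ℝ) (hK : ∀ x, ‖m x‖ ≤ K) (u : L2d d) :
    mulOp m hm K hK u =ᵐ[volume] fun x => m x * u x := mkOp_ae _ _ _ _ _ _

theorem inner_eq (f g : L2d d) : inner ℂ f g = ∫ x, g x * conj (f x) := by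
  rw [L2.inner_def]
  rfl

theorem norm_sq_eq (f : L2d d) : ‖f‖ ^ 2 = ∫ x, ‖f x‖ ^ 2 := by
  have h1 := inner_eq f f
  rw [inner_self_eq_norm_sq_to_K] at h1
  have h2 : ∫ x, f x * conj (f x) = ((∫ x, ‖f x‖ ^ 2 : ℝ) : ℂ) := by
    rw [← integral_complex_ofReal]
    refine integral_congr_ae (Filter.Eventually.of_forall fun x => ?_)
    simp only
    rw [Complex.mul_conj, Complex.normSq_eq_norm_sq]
  rw [h2] at h1
  refine Complex.ofReal_injective ?_
  rw [← h1, Complex.ofReal_pow]
  rfl

theorem int_sq (f : L2d d) : Integrable (fun x => ‖f x‖ ^ 2) volume :=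
  (memLp_two_iff_integrable_sq_norm (Lp.memLp f).1).1 (Lp.memLp f)

/-- translation `(τ_h u)(x) = u(x+h)` -/
noncomputable def tr (h : Ed d) : L2d d →L[ℂ] L2d d :=
  (Lp.compMeasurePreservingₗᵢ ℂ (fun x : Ed d => x + h)
    (measurePreserving_add_right volume h)).toContinuousLinearMap

theorem tr_ae (h : Ed d) (u : L2d d) : tr h u =ᵐ[volume] fun x => u (x + h) :=
  Lp.coeFn_compMeasurePreserving u (measurePreserving_add_right volume h)

noncomputable def ee (h ξ : Ed d) : ℂ := Complex.exp (2 * Real.pi * Complex.I * ((inner ℝ h ξ : ℝ) : ℂ))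

theorem ee_norm (h ξ : Ed d) : ‖ee h ξ‖ = 1 := by
  unfold ee
  rw [show 2 * (Real.pi : ℂ) * Complex.I * ((inner ℝ h ξ : ℝ) : ℂ) =
    ((2 * Real.pi * (inner ℝ h ξ) : ℝ) : ℂ) * Complex.I by push_cast; ring]
  exact Complex.norm_exp_ofReal_mul_I _

theorem ee_cont (h : Ed d) : Continuous (ee h) := by
  unfold ee
  fun_prop

theorem fourier_tr (h : Ed d) (u : L2d d) :
    (𝓕 (tr h u) : L2d d) =ᵐ[volume] fun ξ => ee h ξ * (𝓕 u : L2d d) ξ := by
  have key : ∀ u : L2d d, (𝓕 (tr h u) : L2d d) =
      mulOp (ee h) (ee_cont h).measurable 1 (fun ξ => (ee_norm h ξ).le) (𝓕 u : L2d d) := by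
    intro u
    refine DenseRange.induction_on (p := fun u : L2d d => (𝓕 (tr h u) : L2d d) =
      mulOp (ee h) (ee_cont h).measurable 1 (fun ξ => (ee_norm h ξ).le) (𝓕 u : L2d d))
      (SchwartzMap.denseRange_toLpCLM (E := Ed d) (F := ℂ) (p := 2) (μ := volume)
        ENNReal.ofNat_ne_top) u ?_ ?_
    · apply isClosed_eq
      · exact (Lp.fourierTransformₗᵢ (Ed d) ℂ).continuous.comp (tr h).continuous
      · exact (ContinuousLinearMap.continuous _).comp (Lp.fourierTransformₗᵢ (Ed d) ℂ).continuous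
    · intro f
      rw [SchwartzMap.toLpCLM_apply]
      have hint : Integrable (fun x => f x) volume := f.integrable
      have hmem : MemLp (fun x => f x) 2 volume := f.memLp 2 volume
      have hint' : Integrable (fun x => f (x + h)) volume := hint.comp_add_right h
      have hmem' : MemLp (fun x => f (x + h)) 2 volume :=
        hmem.comp_measurePreserving (measurePreserving_add_right volume h)
      have e1 : tr h (f.toLp 2 volume) = hmem'.toLp _ := by
        apply Lp.ext
        have h1 := (measurePreserving_add_right (volume : Measure (Ed d)) h).quasiMeasurePreserving.ae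
          (f.coeFn_toLp 2 volume)
        filter_upwards [tr_ae h (f.toLp 2 volume), hmem'.coeFn_toLp, h1] with x a b c
        rw [a, b]
        exact c
      have e2 : f.toLp 2 volume = hmem.toLp _ := by
        apply Lp.ext
        filter_upwards [f.coeFn_toLp 2 volume, hmem.coeFn_toLp] with x a b
        rw [a, b]
      apply Lp.ext
      filter_upwards [mulOp_ae (ee h) (ee_cont h).measurable 1 (fun ξ => (ee_norm h ξ).le)
        (𝓕 (f.toLp 2 volume) : L2d d), K01.d1_fourier d _ hint' hmem', K01.d1_fourier d _ hint hmem]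
        with ξ a b c
      rw [a, e1, b, e2, c]
      have e3 : ∀ x, Complex.exp (-(2 * Real.pi * Complex.I * ((inner ℝ x ξ : ℝ) : ℂ))) * f (x + h) =
          ee h ξ * (Complex.exp (-(2 * Real.pi * Complex.I * ((inner ℝ (x + h) ξ : ℝ) : ℂ))) *
            f (x + h)) := by
        intro x
        unfold ee
        rw [← mul_assoc, ← Complex.exp_add, inner_add_left]
        congr 2
        push_cast
        ring
      simp_rw [e3]
      rw [integral_const_mul, integral_add_right_eq_self (fun x =>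
        Complex.exp (-(2 * Real.pi * Complex.I * ((inner ℝ x ξ : ℝ) : ℂ))) * f x) h]
  rw [key u]
  exact mulOp_ae _ _ _ _ _

end Pool.Agent.Q177.CW
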