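import Mathlib
import Pool.Agent.Q177.CW.Trans
import Pool.Agent.Helper209.CX.K15

namespace Pool.Agent.Q177.CW
open MeasureTheory FourierTransform Pool.Agent.Helper209.CX Filter Topology
open scoped ComplexConjugate ENNReal

variable {d : ℕ}

noncomputable def ek (k : Fin d) : Ed d := EuclideanSpace.single k (1 : ℝ)

theorem norm_ek (k : Fin d) : ‖ek k‖ = 1 := by unfold ek; simp

noncomputable def dq (t : ℝ) (k : Fin d) (u : L2d d) : L2d d := tr (t • ek k) u - u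

theorem dq_ae (t : ℝ) (k : Fin d) (u : L2d d) :
    dq t k u =ᵐ[volume] fun x => u (x + t • ek k) - u x := by
  filter_upwards [Lp.coeFn_sub (tr (t • ek k) u) u, tr_ae (t • ek k) u] with x a b
  rw [show dq t k u = tr (t • ek k) u - u from rfl, a, Pi.sub_apply, b]

theorem fourier_dq (t : ℝ) (k : Fin d) (u : L2d d) :
    (𝓕 (dq t k u) : L2d d) =ᵐ[volume] fun ξ => (ee (t • ek k) ξ - 1) * (𝓕 u : L2d d) ξ := by
  have h1 : (𝓕 (dq t k u) : L2d d) = 𝓕 (tr (t • ek k) u) - 𝓕 u :=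
    map_sub (Lp.fourierTransformₗᵢ (Ed d) ℂ) _ _
  rw [h1]
  filter_upwards [Lp.coeFn_sub (𝓕 (tr (t • ek k) u) : L2d d) (𝓕 u), fourier_tr (t • ek k) u]
    with x a b
  rw [a, Pi.sub_apply, b]
  ring

theorem ee_sub_one_le (t : ℝ) (k : Fin d) (ξ : Ed d) :
    ‖ee (t • ek k) ξ - 1‖ ≤ 2 * Real.pi * (|t| * |ξ k|) := by
  unfold ee
  have h1 : inner ℝ (t • ek k) ξ = t * ξ k := by
    rw [inner_smul_left]
    unfold ek
    rw [EuclideanSpace.inner_single_left]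
    simp
  rw [h1, show 2 * (Real.pi : ℂ) * Complex.I * ((t * ξ k : ℝ) : ℂ) =
    Complex.I * ((2 * Real.pi * (t * ξ k) : ℝ) : ℂ) by push_cast; ring]
  refine (Real.norm_exp_I_mul_ofReal_sub_one_le).trans (le_of_eq ?_)
  rw [Real.norm_eq_abs, abs_mul, abs_mul, abs_mul, abs_of_pos Real.pi_pos, abs_of_pos (two_pos)]

/-- the symbol of the difference quotients -/
noncomputable def wt (t : ℝ) (ξ : Ed d) : ℝ := ∑ k, (t⁻¹) ^ 2 * ‖ee (t • ek k) ξ - 1‖ ^ 2

theorem wt_nonneg (t : ℝ) (ξ : Ed d) : 0 ≤ wt t ξ := Finset.sum_nonneg fun k _ => by positivity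

theorem wt_le (t : ℝ) (ξ : Ed d) : wt t ξ ≤ (2 * Real.pi * ‖ξ‖) ^ 2 := by
  unfold wt
  by_cases ht : t = 0
  · subst ht
    simp only [inv_zero, ne_eq, OfNat.ofNat_ne_zero, not_false_eq_true, zero_pow, zero_mul,
      Finset.sum_const_zero]
    positivity
  have h1 : ∀ k : Fin d, (t⁻¹) ^ 2 * ‖ee (t • ek k) ξ - 1‖ ^ 2 ≤ (2 * Real.pi) ^ 2 * ‖ξ k‖ ^ 2 := by
    intro k
    have h2 := pow_le_pow_left₀ (norm_nonneg _) (ee_sub_one_le t k ξ) 2
    calc (t⁻¹) ^ 2 * ‖ee (t • ek k) ξ - 1‖ ^ 2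
        ≤ (t⁻¹) ^ 2 * (2 * Real.pi * (|t| * |ξ k|)) ^ 2 :=
          mul_le_mul_of_nonneg_left h2 (by positivity)
      _ = (2 * Real.pi) ^ 2 * ‖ξ k‖ ^ 2 * ((t⁻¹) ^ 2 * |t| ^ 2) := by
          rw [Real.norm_eq_abs]; ring
      _ = (2 * Real.pi) ^ 2 * ‖ξ k‖ ^ 2 := by
          have h3 : (t⁻¹) ^ 2 * |t| ^ 2 = 1 := by
            rw [sq_abs, ← mul_pow, inv_mul_cancel₀ ht, one_pow]
          rw [h3, mul_one]
  refine (Finset.sum_le_sum fun k _ => h1 k).trans (le_of_eq ?_)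
  rw [← Finset.mul_sum, ← EuclideanSpace.norm_sq_eq]
  ring

theorem wt_meas (t : ℝ) : Measurable (wt t : Ed d → ℝ) := by
  unfold wt
  refine Finset.measurable_sum _ fun k _ => ?_
  exact ((((ee_cont (t • ek k)).sub continuous_const).norm.pow 2).const_mul _ |>.measurable)

theorem tn_lim : Tendsto (fun n : ℕ => 1 / ((n : ℝ) + 1)) atTop (𝓝[>] 0) := by
  rw [tendsto_nhdsWithin_iff]
  exact ⟨tendsto_one_div_add_atTop_nhds_zero_nat, Eventually.of_forall fun n => by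
    show (0 : ℝ) < 1 / ((n : ℝ) + 1)
    positivity⟩

theorem wt_lim (ξ : Ed d) :
    Tendsto (fun n : ℕ => wt (1 / ((n : ℝ) + 1)) ξ) atTop (𝓝 ((2 * Real.pi * ‖ξ‖) ^ 2)) := by
  have h0 : (2 * Real.pi * ‖ξ‖) ^ 2 = ∑ k, (2 * Real.pi * |ξ k|) ^ 2 := by
    rw [mul_pow, EuclideanSpace.norm_sq_eq, Finset.mul_sum]
    refine Finset.sum_congr rfl fun k _ => ?_
    rw [Real.norm_eq_abs]; ring
  rw [h0]
  unfold wt
  refine tendsto_finsetSum _ fun k _ => ?_
  -- derivative of exp at zero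
  have h1 : HasDerivAt (fun t : ℝ => Complex.exp (((t : ℝ) : ℂ) * (2 * Real.pi * Complex.I * (ξ k : ℂ))))
      (2 * Real.pi * Complex.I * (ξ k : ℂ)) 0 := by
    have h2 : HasDerivAt (fun t : ℝ => ((t : ℝ) : ℂ) * (2 * Real.pi * Complex.I * (ξ k : ℂ)))
        (1 * (2 * Real.pi * Complex.I * (ξ k : ℂ))) 0 :=
      (Complex.ofRealCLM.hasDerivAt (x := (0 : ℝ))).mul_const _
    have h3 := h2.cexp
    simpa using! h3
  have h2 := h1.tendsto_slope
  have h3 : Tendsto (fun n : ℕ => slope (fun t : ℝ => Complex.exp (((t : ℝ) : ℂ) *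
      (2 * Real.pi * Complex.I * (ξ k : ℂ)))) 0 (1 / ((n : ℝ) + 1))) atTop
      (𝓝 (2 * Real.pi * Complex.I * (ξ k : ℂ))) :=
    h2.comp (tn_lim.mono_right (nhdsWithin_mono _ (fun x hx => ne_of_gt hx)))
  have h4 := (h3.norm).pow 2
  have h5 : ‖2 * (Real.pi : ℂ) * Complex.I * (ξ k : ℂ)‖ ^ 2 = (2 * Real.pi * |ξ k|) ^ 2 := by
    rw [norm_mul, norm_mul, norm_mul, Complex.norm_I, Complex.norm_real, Complex.norm_real,
      Complex.norm_ofNat, Real.norm_of_nonneg Real.pi_pos.le, Real.norm_eq_abs]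
    ring
  rw [h5] at h4
  refine h4.congr fun n => ?_
  rw [slope_def_module]
  have ht : (1 / ((n : ℝ) + 1)) ≠ 0 := by positivity
  obtain ⟨t, htd⟩ : ∃ t : ℝ, t = 1 / ((n : ℝ) + 1) := ⟨_, rfl⟩
  rw [← htd]
  unfold ee
  have h6 : inner ℝ (t • ek k) ξ = t * ξ k := by
    rw [inner_smul_left]
    unfold ek
    rw [EuclideanSpace.inner_single_left]
    simp
  rw [h6, sub_zero, norm_smul, mul_pow, Real.norm_eq_abs, sq_abs]
  congr 3
  rw [Complex.ofReal_zero, zero_mul, Complex.exp_zero]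
  congr 2
  push_cast
  ring

theorem inner_dq (t : ℝ) (k : Fin d) (u φ : L2d d) :
    inner ℂ (dq t k φ) (dq t k u) =
      ∫ ξ, ((‖ee (t • ek k) ξ - 1‖ ^ 2 : ℝ) : ℂ) * ((𝓕 u : L2d d) ξ * conj ((𝓕 φ : L2d d) ξ)) := by
  rw [← Lp.inner_fourier_eq, inner_eq]
  refine integral_congr_ae ?_
  filter_upwards [fourier_dq t k u, fourier_dq t k φ] with ξ a b
  rw [a, b, map_mul]
  have : (((‖ee (t • ek k) ξ - 1‖ ^ 2 : ℝ)) : ℂ) = (ee (t • ek k) ξ - 1) * conj (ee (t • ek k) ξ - 1) := by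
    rw [Complex.mul_conj, Complex.normSq_eq_norm_sq]
  rw [this]
  ring

theorem plInt (u φ : L2d d) :
    Integrable (fun ξ => (𝓕 u : L2d d) ξ * conj ((𝓕 φ : L2d d) ξ)) volume :=
  K15.lin_fint (𝓕 u : L2d d) (𝓕 φ)

theorem ee_sq_int (t : ℝ) (k : Fin d) (u φ : L2d d) :
    Integrable (fun ξ => ((‖ee (t • ek k) ξ - 1‖ ^ 2 : ℝ) : ℂ) *
      ((𝓕 u : L2d d) ξ * conj ((𝓕 φ : L2d d) ξ))) volume := by
  refine (plInt u φ).bdd_mul (c := 4) ?_ (Eventually.of_forall fun ξ => ?_)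
  · exact (Complex.continuous_ofReal.comp
      (((ee_cont (t • ek k)).sub continuous_const).norm.pow 2)).aestronglyMeasurable
  · rw [Complex.norm_real, Real.norm_of_nonneg (by positivity)]
    have h1 : ‖ee (t • ek k) ξ - 1‖ ≤ 2 := by
      refine (norm_sub_le _ _).trans ?_
      rw [ee_norm, norm_one]; norm_num
    nlinarith [norm_nonneg (ee (t • ek k) ξ - 1)]

theorem sum_inner_dq (t : ℝ) (u φ : L2d d) :
    ∑ k, (((t⁻¹) ^ 2 : ℝ) : ℂ) * inner ℂ (dq t k φ) (dq t k u) =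
      ∫ ξ, ((wt t ξ : ℝ) : ℂ) * ((𝓕 u : L2d d) ξ * conj ((𝓕 φ : L2d d) ξ)) := by
  simp_rw [inner_dq, ← integral_const_mul]
  rw [← integral_finsetSum _ fun k _ => (ee_sq_int t k u φ).const_mul _]
  refine integral_congr_ae (Eventually.of_forall fun ξ => ?_)
  simp only
  unfold wt
  push_cast
  rw [Finset.sum_mul]
  exact Finset.sum_congr rfl fun k _ => by ring

theorem dq_tendsto (u φ : L2d d) (hu : InH1 u) (hφ : InH1 φ) :
    Tendsto (fun n : ℕ => ∑ k, ((((1 / ((n : ℝ) + 1))⁻¹) ^ 2 : ℝ) : ℂ) *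
      inner ℂ (dq (1 / ((n : ℝ) + 1)) k φ) (dq (1 / ((n : ℝ) + 1)) k u)) atTop
      (𝓝 (dirichlet u φ)) := by
  simp_rw [sum_inner_dq]
  unfold dirichlet
  have h0 := K15.lin_dint u φ hu hφ
  refine tendsto_integral_of_dominated_convergence
    (fun ξ => ‖(((2 * Real.pi * ‖ξ‖) ^ 2 : ℝ) : ℂ) * (𝓕 u : L2d d) ξ *
      (starRingEnd ℂ) ((𝓕 φ : L2d d) ξ)‖) ?_ h0.norm ?_ ?_
  · intro n
    refine AEStronglyMeasurable.mul ?_ (plInt u φ).1
    exact (Complex.measurable_ofReal.comp (wt_meas _)).aestronglyMeasurable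
  · intro n
    refine Eventually.of_forall fun ξ => ?_
    rw [mul_assoc, norm_mul, norm_mul (((2 * Real.pi * ‖ξ‖) ^ 2 : ℝ) : ℂ)]
    refine mul_le_mul_of_nonneg_right ?_ (norm_nonneg _)
    rw [Complex.norm_real, Complex.norm_real, Real.norm_of_nonneg (wt_nonneg _ _),
      Real.norm_of_nonneg (by positivity)]
    exact wt_le _ _
  · refine Eventually.of_forall fun ξ => ?_
    have h1 := (Complex.continuous_ofReal.tendsto _).comp (wt_lim ξ)
    have h2 := h1.mul_const ((𝓕 u : L2d d) ξ * conj ((𝓕 φ : L2d d) ξ))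
    rw [← mul_assoc] at h2
    exact h2

/-- the energy -/
noncomputable def en (u : L2d d) : ℝ := ∫ ξ : Ed d, (2 * Real.pi * ‖ξ‖) ^ 2 * ‖(𝓕 u : L2d d) ξ‖ ^ 2

theorem en_int (u : L2d d) (hu : InH1 u) :
    Integrable (fun ξ : Ed d => (2 * Real.pi * ‖ξ‖) ^ 2 * ‖(𝓕 u : L2d d) ξ‖ ^ 2) volume := by
  have h := (K15.lin_dint u u hu hu).re
  refine h.congr (Eventually.of_forall fun ξ => ?_)
  simp only
  rw [mul_assoc, Complex.mul_conj, Complex.normSq_eq_norm_sq, ← Complex.ofReal_mul]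
  exact Complex.ofReal_re _

theorem en_nonneg (u : L2d d) : 0 ≤ en u := integral_nonneg fun ξ => by positivity

theorem dirichlet_self (u : L2d d) : dirichlet u u = (en u : ℂ) := by
  unfold dirichlet en
  rw [← integral_complex_ofReal]
  refine integral_congr_ae (Eventually.of_forall fun ξ => ?_)
  simp only
  rw [mul_assoc, Complex.mul_conj, Complex.normSq_eq_norm_sq]
  push_cast
  ring

theorem norm_dq_sq (t : ℝ) (k : Fin d) (u : L2d d) :
    ‖dq t k u‖ ^ 2 = ∫ ξ, ‖ee (t • ek k) ξ - 1‖ ^ 2 * ‖(𝓕 u : L2d d) ξ‖ ^ 2 := by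
  have h1 := inner_dq t k u u
  rw [inner_self_eq_norm_sq_to_K] at h1
  refine Complex.ofReal_injective ?_
  rw [Complex.ofReal_pow, ← integral_complex_ofReal]
  refine h1.trans (integral_congr_ae (Eventually.of_forall fun ξ => ?_))
  simp only
  rw [Complex.mul_conj, Complex.normSq_eq_norm_sq]
  push_cast
  ring

theorem norm_dq_le (t : ℝ) (k : Fin d) (u : L2d d) (hu : InH1 u) :
    ‖dq t k u‖ ^ 2 ≤ t ^ 2 * en u := by
  rw [norm_dq_sq, en, ← integral_const_mul]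
  refine integral_mono_of_nonneg (Eventually.of_forall fun ξ => by positivity)
    ((en_int u hu).const_mul _) (Eventually.of_forall fun ξ => ?_)
  simp only
  rw [← mul_assoc]
  refine mul_le_mul_of_nonneg_right ?_ (by positivity)
  have h1 := pow_le_pow_left₀ (norm_nonneg _) (ee_sub_one_le t k ξ) 2
  refine h1.trans ?_
  have h2 : |ξ k| ≤ ‖ξ‖ := by
    have := EuclideanSpace.norm_sq_eq ξ
    refine abs_le_of_sq_le_sq ?_ (norm_nonneg _)
    rw [this]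
    have h3 := Finset.single_le_sum (f := fun i => ‖ξ i‖ ^ 2) (fun i _ => by positivity)
      (Finset.mem_univ k)
    simpa [Real.norm_eq_abs, sq_abs] using h3
  calc (2 * Real.pi * (|t| * |ξ k|)) ^ 2 = t ^ 2 * (2 * Real.pi * |ξ k|) ^ 2 := by
        rw [mul_pow, mul_pow, mul_pow, sq_abs]; ring
    _ ≤ t ^ 2 * (2 * Real.pi * ‖ξ‖) ^ 2 := by
        refine mul_le_mul_of_nonneg_left ?_ (by positivity)
        refine pow_le_pow_left₀ (by positivity) ?_ 2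
        exact mul_le_mul_of_nonneg_left h2 (by positivity)

theorem sum_norm_dq (t : ℝ) (u : L2d d) :
    ENNReal.ofReal (∑ k, (t⁻¹) ^ 2 * ‖dq t k u‖ ^ 2) =
      ∫⁻ ξ, ENNReal.ofReal (wt t ξ * ‖(𝓕 u : L2d d) ξ‖ ^ 2) := by
  have hint : ∀ k : Fin d, Integrable (fun ξ => (t⁻¹) ^ 2 * (‖ee (t • ek k) ξ - 1‖ ^ 2 *
      ‖(𝓕 u : L2d d) ξ‖ ^ 2)) volume := by
    intro k
    refine Integrable.const_mul ?_ _
    have h := (ee_sq_int t k u u).re
    refine h.congr (Eventually.of_forall fun ξ => ?_)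
    simp only
    rw [Complex.mul_conj, Complex.normSq_eq_norm_sq, ← Complex.ofReal_mul]
    exact Complex.ofReal_re _
  have h1 : ∑ k, (t⁻¹) ^ 2 * ‖dq t k u‖ ^ 2 = ∫ ξ, wt t ξ * ‖(𝓕 u : L2d d) ξ‖ ^ 2 := by
    simp_rw [norm_dq_sq, ← integral_const_mul]
    rw [← integral_finsetSum _ fun k _ => hint k]
    refine integral_congr_ae (Eventually.of_forall fun ξ => ?_)
    simp only
    unfold wt
    rw [Finset.sum_mul]
    exact Finset.sum_congr rfl fun k _ => by ring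
  rw [h1, ofReal_integral_eq_lintegral_ofReal]
  · have h2 := integrable_finsetSum Finset.univ fun k _ => hint k
    refine h2.congr (Eventually.of_forall fun ξ => ?_)
    simp only
    unfold wt
    rw [Finset.sum_mul]
    exact Finset.sum_congr rfl fun k _ => by ring
  · exact Eventually.of_forall fun ξ => mul_nonneg (wt_nonneg _ _) (by positivity)

theorem inH1_of_dq (f : L2d d) (C : ℝ) (hC : 0 ≤ C)
    (h : ∀ᶠ n : ℕ in atTop, ∑ k, ((1 / ((n : ℝ) + 1))⁻¹) ^ 2 *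
      ‖dq (1 / ((n : ℝ) + 1)) k f‖ ^ 2 ≤ C) : InH1 f ∧ en f ≤ C := by
  have hfm : AEMeasurable (fun ξ => ‖(𝓕 f : L2d d) ξ‖ ^ 2) volume :=
    (((Lp.memLp (𝓕 f : L2d d)).1.norm.pow 2)).aemeasurable
  have h1 : ∫⁻ ξ : Ed d, ENNReal.ofReal ((2 * Real.pi * ‖ξ‖) ^ 2 * ‖(𝓕 f : L2d d) ξ‖ ^ 2) ≤
      ENNReal.ofReal C := by
    have h2 : ∀ ξ : Ed d, ENNReal.ofReal ((2 * Real.pi * ‖ξ‖) ^ 2 * ‖(𝓕 f : L2d d) ξ‖ ^ 2) =
        liminf (fun n : ℕ => ENNReal.ofReal (wt (1 / ((n : ℝ) + 1)) ξ * ‖(𝓕 f : L2d d) ξ‖ ^ 2))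
          atTop := by
      intro ξ
      have h3 := (wt_lim ξ).mul_const (‖(𝓕 f : L2d d) ξ‖ ^ 2)
      exact ((ENNReal.continuous_ofReal.tendsto _).comp h3).liminf_eq.symm
    simp_rw [h2]
    refine (lintegral_liminf_le' fun n => ?_).trans ?_
    · exact ((wt_meas _).aemeasurable.mul hfm).ennreal_ofReal
    · refine liminf_le_of_frequently_le' (Eventually.frequently ?_)
      filter_upwards [h] with n hn
      rw [← sum_norm_dq]
      exact ENNReal.ofReal_le_ofReal hn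
  have hint : Integrable (fun ξ : Ed d => (2 * Real.pi * ‖ξ‖) ^ 2 * ‖(𝓕 f : L2d d) ξ‖ ^ 2)
      volume := by
    refine ⟨?_, ?_⟩
    · refine AEMeasurable.aestronglyMeasurable ?_
      exact AEMeasurable.mul (by fun_prop) hfm
    · rw [hasFiniteIntegral_iff_ofReal (Eventually.of_forall fun ξ => by positivity)]
      exact lt_of_le_of_lt h1 ENNReal.ofReal_lt_top
  refine ⟨?_, ?_⟩
  · unfold InH1
    have hm : AEStronglyMeasurable (fun ξ : Ed d => (‖ξ‖ : ℂ) * (𝓕 f : L2d d) ξ) volume := by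
      refine AEStronglyMeasurable.mul ?_ (Lp.memLp (𝓕 f : L2d d)).1
      exact Continuous.aestronglyMeasurable (by fun_prop)
    rw [memLp_two_iff_integrable_sq_norm hm]
    refine (hint.const_mul (((2 * Real.pi) ^ 2)⁻¹)).congr (Eventually.of_forall fun ξ => ?_)
    simp only
    rw [norm_mul, Complex.norm_real, norm_norm]
    field_simp
  · rw [← ofReal_integral_eq_lintegral_ofReal hint (Eventually.of_forall fun ξ => by positivity)]
      at h1
    exact (ENNReal.ofReal_le_ofReal_iff hC).1 h1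

end Pool.Agent.Q177.CW
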