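import Mathlib
import Pool.Agent.Q177.CW.DQ

namespace Pool.Agent.Q177.CW
open MeasureTheory FourierTransform Pool.Agent.Helper209.CX Filter Topology
open scoped ComplexConjugate ENNReal

variable {d : ℕ}

theorem mulOp_norm_le (m : Ed d → ℂ) (hm : Measurable m) (K : ℝ) (hK : ∀ x, ‖m x‖ ≤ K)
    (hK0 : 0 ≤ K) (u : L2d d) : ‖mulOp m hm K hK u‖ ≤ K * ‖u‖ := by
  refine Lp.norm_le_mul_norm_of_ae_le_mul (c := K) ?_
  filter_upwards [mulOp_ae m hm K hK u] with x hx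
  rw [hx, norm_mul]
  exact mul_le_mul_of_nonneg_right (hK x) (norm_nonneg _)

/-- multiplication by a real bounded function -/
noncomputable def mr (g : Ed d → ℝ) (hg : Measurable g) (K : ℝ) (hK : ∀ x, |g x| ≤ K) :
    L2d d →L[ℂ] L2d d :=
  mulOp (fun x => (g x : ℂ)) (Complex.measurable_ofReal.comp hg) K (fun x => by
    rw [Complex.norm_real, Real.norm_eq_abs]; exact hK x)

theorem mr_ae (g : Ed d → ℝ) (hg : Measurable g) (K : ℝ) (hK : ∀ x, |g x| ≤ K) (u : L2d d) :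
    mr g hg K hK u =ᵐ[volume] fun x => (g x : ℂ) * u x := mulOp_ae _ _ _ _ _

theorem sh_ae {P : Ed d → Prop} (h : Ed d) (hP : ∀ᵐ x ∂(volume : Measure (Ed d)), P x) :
    ∀ᵐ x ∂(volume : Measure (Ed d)), P (x + h) :=
  (measurePreserving_add_right (volume : Measure (Ed d)) h).quasiMeasurePreserving.ae hP

theorem mr_dq_le (g : Ed d → ℝ) (hg : Measurable g) (K : ℝ) (hK : ∀ x, |g x| ≤ K) (u : L2d d)
    (t : ℝ) (k : Fin d) (a : ℝ) (ha : 0 ≤ a) (hL : ∀ x, |g (x + t • ek k) - g x| ≤ a) :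
    ‖dq t k (mr g hg K hK u)‖ ≤ K * ‖dq t k u‖ + a * ‖u‖ := by
  have hK0 : 0 ≤ K := (abs_nonneg _).trans (hK 0)
  have hg1 : Measurable (fun x => g (x + t • ek k)) := hg.comp (measurable_id.add_const _)
  have e1 : dq t k (mr g hg K hK u) = mr (fun x => g (x + t • ek k)) hg1 K (fun x => hK _) (dq t k u) +
      mr (fun x => g (x + t • ek k) - g x) (hg1.sub hg) a hL u := by
    apply Lp.ext
    filter_upwards [dq_ae t k (mr g hg K hK u), mr_ae g hg K hK u,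
      sh_ae (t • ek k) (mr_ae g hg K hK u), dq_ae t k u,
      Lp.coeFn_add (mr (fun x => g (x + t • ek k)) hg1 K (fun x => hK _) (dq t k u))
        (mr (fun x => g (x + t • ek k) - g x) (hg1.sub hg) a hL u),
      mr_ae (fun x => g (x + t • ek k)) hg1 K (fun x => hK _) (dq t k u),
      mr_ae (fun x => g (x + t • ek k) - g x) (hg1.sub hg) a hL u] with x a1 a2 a3 a4 a5 a6 a7
    rw [a1, a2, a3, a5, Pi.add_apply, a6, a7, a4]
    push_cast
    ring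
  rw [e1]
  refine (norm_add_le _ _).trans (add_le_add ?_ ?_)
  · exact mulOp_norm_le _ _ _ _ hK0 _
  · exact mulOp_norm_le _ _ _ _ ha _

theorem mr_inH1 (g : Ed d → ℝ) (hg : Measurable g) (K : ℝ) (hK : ∀ x, |g x| ≤ K) (κ L : ℝ)
    (hL0 : 0 ≤ L) (hκ : 0 < κ)
    (hL : ∀ x h : Ed d, κ * ‖h‖ ≤ 1 → |g (x + h) - g x| ≤ L * ‖h‖) (u : L2d d) (hu : InH1 u) :
    InH1 (mr g hg K hK u) := by
  have hK0 : 0 ≤ K := (abs_nonneg _).trans (hK 0)
  refine (inH1_of_dq _ (∑ _k : Fin d, (K * √(en u) + L * ‖u‖) ^ 2)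
    (Finset.sum_nonneg fun k _ => by positivity) ?_).1
  have h1 : ∀ᶠ n : ℕ in atTop, κ * (1 / ((n : ℝ) + 1)) ≤ 1 := by
    have h2 := tendsto_one_div_add_atTop_nhds_zero_nat (𝕜 := ℝ)
    have h3 := h2.const_mul κ
    rw [mul_zero] at h3
    exact h3.eventually_le_const one_pos
  filter_upwards [h1] with n hn
  obtain ⟨t, ht⟩ : ∃ t : ℝ, t = 1 / ((n : ℝ) + 1) := ⟨_, rfl⟩
  have ht0 : 0 < t := by rw [ht]; positivity
  rw [← ht] at hn ⊢
  refine Finset.sum_le_sum fun k _ => ?_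
  have hth : ‖t • ek k‖ = t := by rw [norm_smul, norm_ek, mul_one, Real.norm_of_nonneg ht0.le]
  have h4 := mr_dq_le g hg K hK u t k (L * t) (by positivity) (fun x => by
    have := hL x (t • ek k) (by rw [hth]; exact hn)
    rwa [hth] at this)
  have h5 : ‖dq t k u‖ ≤ t * √(en u) := by
    refine le_of_sq_le_sq ?_ (by positivity)
    rw [mul_pow, Real.sq_sqrt (en_nonneg u)]
    exact norm_dq_le t k u hu
  have h6 : ‖dq t k (mr g hg K hK u)‖ ≤ t * (K * √(en u) + L * ‖u‖) := by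
    refine h4.trans ?_
    have := mul_le_mul_of_nonneg_left h5 hK0
    linarith
  calc (t⁻¹) ^ 2 * ‖dq t k (mr g hg K hK u)‖ ^ 2
      ≤ (t⁻¹) ^ 2 * (t * (K * √(en u) + L * ‖u‖)) ^ 2 :=
        mul_le_mul_of_nonneg_left (pow_le_pow_left₀ (norm_nonneg _) h6 2) (by positivity)
    _ = (K * √(en u) + L * ‖u‖) ^ 2 := by
        rw [← mul_pow, ← mul_assoc, inv_mul_cancel₀ ht0.ne', one_mul]

theorem pt_ineq (a b : ℂ) (p q : ℝ) (hp : 0 < p) (hq : 0 < q) (s : ℝ) (hs : 0 ≤ s)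
    (h1 : |p - q| ≤ s * p) (h2 : |p - q| ≤ s * q) :
    -(s ^ 2 / 2 * (‖(p : ℂ) * a‖ ^ 2 + ‖(q : ℂ) * b‖ ^ 2)) ≤
      ((a - b) * conj (((p ^ 2 : ℝ) : ℂ) * a - ((q ^ 2 : ℝ) : ℂ) * b)).re := by
  have e1 : ((a - b) * conj (((p ^ 2 : ℝ) : ℂ) * a - ((q ^ 2 : ℝ) : ℂ) * b)).re =
      ‖(p : ℂ) * a - (q : ℂ) * b‖ ^ 2 - (p - q) ^ 2 * (a * conj b).re := by
    rw [← Complex.normSq_eq_norm_sq]
    simp only [Complex.normSq_apply, map_sub, map_mul, Complex.conj_ofReal, Complex.mul_re,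
      Complex.sub_re, Complex.sub_im, Complex.mul_im, Complex.conj_re, Complex.conj_im,
      Complex.ofReal_re, Complex.ofReal_im]
    ring
  rw [e1]
  have e2 : (a * conj b).re ≤ ‖a‖ * ‖b‖ := by
    refine (Complex.re_le_norm _).trans ?_
    rw [norm_mul, RCLike.norm_conj]
  have e3 : (p - q) ^ 2 ≤ s ^ 2 * (p * q) := by
    have h3 : (p - q) ^ 2 = |p - q| * |p - q| := by rw [← sq, sq_abs]
    rw [h3]
    calc |p - q| * |p - q| ≤ (s * p) * (s * q) :=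
          mul_le_mul h1 h2 (abs_nonneg _) (by positivity)
      _ = s ^ 2 * (p * q) := by ring
  have e4 : (p - q) ^ 2 * (a * conj b).re ≤ s ^ 2 * (p * q) * (‖a‖ * ‖b‖) :=
    (mul_le_mul_of_nonneg_left e2 (sq_nonneg _)).trans
      (mul_le_mul_of_nonneg_right e3 (by positivity))
  rw [norm_mul, norm_mul, Complex.norm_real, Complex.norm_real, Real.norm_of_nonneg hp.le,
    Real.norm_of_nonneg hq.le]
  nlinarith [sq_nonneg (p * ‖a‖ - q * ‖b‖), sq_nonneg ‖(p : ℂ) * a - (q : ℂ) * b‖, sq_nonneg s,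
    mul_nonneg (sq_nonneg s) (sq_nonneg (p * ‖a‖ - q * ‖b‖))]

theorem norm_tr (h : Ed d) (u : L2d d) : ‖tr h u‖ = ‖u‖ :=
  (Lp.compMeasurePreservingₗᵢ ℂ (fun x : Ed d => x + h)
    (measurePreserving_add_right volume h)).norm_map u

theorem agmon_ineq (η : Ed d → ℝ) (hη : Measurable η) (hpos : ∀ x, 0 < η x) (K : ℝ)
    (hK : ∀ x, |η x| ≤ K) (hK2 : ∀ x, |η x ^ 2| ≤ K ^ 2) (κ : ℝ) (hκ : 0 < κ)
    (hL1 : ∀ x h : Ed d, κ * ‖h‖ ≤ 1 → |η (x + h) - η x| ≤ 2 * κ * ‖h‖ * η x)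
    (hL2 : ∀ x h : Ed d, κ * ‖h‖ ≤ 1 → |η (x + h) - η x| ≤ 2 * κ * ‖h‖ * η (x + h))
    (u : L2d d) (hu : InH1 u) :
    InH1 (mr (fun x => η x ^ 2) (hη.pow_const 2) (K ^ 2) hK2 u) ∧
    -(4 * d * κ ^ 2 * ‖mr η hη K hK u‖ ^ 2) ≤
      (dirichlet u (mr (fun x => η x ^ 2) (hη.pow_const 2) (K ^ 2) hK2 u)).re := by
  have hK0 : 0 ≤ K := (abs_nonneg _).trans (hK 0)
  have hη' : ∀ x, η x ≤ K := fun x => (le_abs_self _).trans (hK x)
  have hin : InH1 (mr (fun x => η x ^ 2) (hη.pow_const 2) (K ^ 2) hK2 u) := by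
    refine mr_inH1 _ _ _ _ κ (4 * κ * K ^ 2) (by positivity) hκ ?_ u hu
    intro x h hh
    have e1 : η (x + h) ^ 2 - η x ^ 2 = (η (x + h) - η x) * (η (x + h) + η x) := by ring
    rw [e1, abs_mul]
    have e2 : |η (x + h) + η x| ≤ 2 * K := by
      refine (abs_add_le _ _).trans ?_
      linarith [hK (x + h), hK x]
    have e3 : |η (x + h) - η x| ≤ 2 * κ * ‖h‖ * K :=
      (hL1 x h hh).trans (mul_le_mul_of_nonneg_left (hη' x) (by positivity))
    calc |η (x + h) - η x| * |η (x + h) + η x| ≤ (2 * κ * ‖h‖ * K) * (2 * K) :=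
          mul_le_mul e3 e2 (abs_nonneg _) (by positivity)
      _ = 4 * κ * K ^ 2 * ‖h‖ := by ring
  refine ⟨hin, ?_⟩
  obtain ⟨φ, hφ⟩ : ∃ φ, φ = mr (fun x => η x ^ 2) (hη.pow_const 2) (K ^ 2) hK2 u := ⟨_, rfl⟩
  obtain ⟨w, hw⟩ : ∃ w, w = mr η hη K hK u := ⟨_, rfl⟩
  rw [← hφ] at hin ⊢
  rw [← hw]
  have hlim := (Complex.continuous_re.tendsto _).comp (dq_tendsto u φ hu hin)
  refine ge_of_tendsto hlim ?_
  have h1 : ∀ᶠ n : ℕ in atTop, κ * (1 / ((n : ℝ) + 1)) ≤ 1 := by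
    have h2 := tendsto_one_div_add_atTop_nhds_zero_nat (𝕜 := ℝ)
    have h3 := h2.const_mul κ
    rw [mul_zero] at h3
    exact h3.eventually_le_const one_pos
  filter_upwards [h1] with n hn
  simp only [Function.comp_apply]
  obtain ⟨t, ht⟩ : ∃ t : ℝ, t = 1 / ((n : ℝ) + 1) := ⟨_, rfl⟩
  have ht0 : 0 < t := by rw [ht]; positivity
  rw [← ht] at hn ⊢
  rw [Complex.re_sum]
  have hk : ∀ k : Fin d, -(4 * κ ^ 2 * ‖w‖ ^ 2) ≤
      ((((t⁻¹) ^ 2 : ℝ) : ℂ) * inner ℂ (dq t k φ) (dq t k u)).re := by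
    intro k
    have hth : ‖t • ek k‖ = t := by rw [norm_smul, norm_ek, mul_one, Real.norm_of_nonneg ht0.le]
    rw [Complex.re_ofReal_mul, inner_eq]
    have hint : Integrable (fun x => dq t k u x * conj (dq t k φ x)) volume :=
      K15.lin_fint (dq t k u) (dq t k φ)
    have e1 : (∫ x, dq t k u x * conj (dq t k φ x)).re = ∫ x, (dq t k u x * conj (dq t k φ x)).re :=
      (integral_re hint).symm
    have hwi := int_sq w
    have hwi' := int_sq (tr (t • ek k) w)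
    have e2 : ∫ x, -((2 * κ * t) ^ 2 / 2 * (‖(tr (t • ek k) w) x‖ ^ 2 + ‖w x‖ ^ 2)) ≤
        ∫ x, (dq t k u x * conj (dq t k φ x)).re := by
      refine integral_mono_ae ((hwi'.add hwi).const_mul _).neg hint.re ?_
      filter_upwards [dq_ae t k u, dq_ae t k φ, tr_ae (t • ek k) w,
        mr_ae η hη K hK u, sh_ae (t • ek k) (mr_ae η hη K hK u),
        mr_ae (fun x => η x ^ 2) (hη.pow_const 2) (K ^ 2) hK2 u,
        sh_ae (t • ek k) (mr_ae (fun x => η x ^ 2) (hη.pow_const 2) (K ^ 2) hK2 u)]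
        with x a1 a2 a3 a4 a5 a6 a7
      rw [← hw] at a4 a5
      rw [← hφ] at a6 a7
      rw [a1, a2, a3, a4, a5, a6, a7]
      have h5 := hL1 x (t • ek k) (by rw [hth]; exact hn)
      have h6 := hL2 x (t • ek k) (by rw [hth]; exact hn)
      rw [hth] at h5 h6
      have := pt_ineq (u (x + t • ek k)) (u x) (η (x + t • ek k)) (η x) (hpos _) (hpos _)
        (2 * κ * t) (by positivity) h6 h5
      exact this
    rw [integral_neg, integral_const_mul, integral_add hwi' hwi, ← norm_sq_eq, ← norm_sq_eq,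
      norm_tr] at e2
    rw [e1]
    calc -(4 * κ ^ 2 * ‖w‖ ^ 2) = (t⁻¹) ^ 2 * (-((2 * κ * t) ^ 2 / 2 * (‖w‖ ^ 2 + ‖w‖ ^ 2))) := by
          field_simp
          ring
      _ ≤ _ := mul_le_mul_of_nonneg_left e2 (by positivity)
  calc -(4 * d * κ ^ 2 * ‖w‖ ^ 2) = ∑ _k : Fin d, -(4 * κ ^ 2 * ‖w‖ ^ 2) := by
        rw [Finset.sum_const, Finset.card_univ, Fintype.card_fin, nsmul_eq_mul]
        ring
    _ ≤ _ := Finset.sum_le_sum fun k _ => hk k

/-- exponential decay of eigenfunctions in the barrier -/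
theorem agmon (hh : ℝ) (hh0 : 0 < hh) (κ : ℝ) (hκ : 0 < κ) (hκh : 4 * d * κ ^ 2 * hh ^ 2 ≤ 1 / 2)
    (ρ τ : ℝ) (hτ : 0 < τ) (U : Ed d → ℝ) (lam : ℝ) (hlam : 0 ≤ lam)
    (hU0 : ∀ x, 0 ≤ U x) (hU : ∀ x, ρ ≤ ‖x‖ → lam + 1 ≤ U x) (u : L2d d) (hu : InH1 u)
    (hun : ‖u‖ = 1)
    (heq : ∀ φ : L2d d, InH1 φ → Integrable (fun x => (U x : ℂ) * u x * conj (φ x)) volume ∧
      ((hh ^ 2 : ℝ) : ℂ) * dirichlet u φ + ∫ x, (U x : ℂ) * u x * conj (φ x) =
        (lam : ℂ) * ∫ x, u x * conj (φ x)) :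
    ∫ x, (if ρ + τ ≤ ‖x‖ then ‖u x‖ ^ 2 else 0) ≤ Real.exp (-(2 * κ * τ)) * (2 * lam + 1) := by
  let b : Ed d → ℝ := fun x => min (max (‖x‖ - ρ) 0) τ
  have hb0 : ∀ x, 0 ≤ b x := fun x => le_min (le_max_right _ _) hτ.le
  have hbτ : ∀ x, b x ≤ τ := fun x => min_le_right _ _
  have hbl : ∀ x y : Ed d, |b x - b y| ≤ ‖x - y‖ := by
    intro x y
    have h1 : |b x - b y| ≤ |max (‖x‖ - ρ) 0 - max (‖y‖ - ρ) 0| := by
      refine (abs_min_sub_min_le_max (max (‖x‖ - ρ) 0) τ (max (‖y‖ - ρ) 0) τ).trans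
        (max_le le_rfl ?_)
      rw [sub_self, abs_zero]
      exact abs_nonneg _
    have h2 : |max (‖x‖ - ρ) 0 - max (‖y‖ - ρ) 0| ≤ |(‖x‖ - ρ) - (‖y‖ - ρ)| := by
      refine (abs_max_sub_max_le_max (‖x‖ - ρ) 0 (‖y‖ - ρ) 0).trans (max_le le_rfl ?_)
      rw [sub_self, abs_zero]
      exact abs_nonneg _
    refine h1.trans (h2.trans ?_)
    rw [show (‖x‖ - ρ) - (‖y‖ - ρ) = ‖x‖ - ‖y‖ by ring]
    exact abs_norm_sub_norm_le x y
  let η : Ed d → ℝ := fun x => Real.exp (κ * b x)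
  have hηm : Measurable η := by
    have : Measurable b := by
      unfold b
      fun_prop
    exact Real.measurable_exp.comp (this.const_mul κ)
  have hηpos : ∀ x, 0 < η x := fun x => Real.exp_pos _
  obtain ⟨K, hKd⟩ : ∃ K, K = Real.exp (κ * τ) := ⟨_, rfl⟩
  have hKpos : 0 < K := by rw [hKd]; exact Real.exp_pos _
  have hηK : ∀ x, |η x| ≤ K := by
    intro x
    rw [abs_of_pos (hηpos x), hKd]
    exact Real.exp_le_exp.2 (mul_le_mul_of_nonneg_left (hbτ x) hκ.le)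
  have hηK2 : ∀ x, |η x ^ 2| ≤ K ^ 2 := by
    intro x
    rw [abs_pow]
    exact pow_le_pow_left₀ (abs_nonneg _) (hηK x) 2
  have hkey : ∀ x y : Ed d, κ * ‖y - x‖ ≤ 1 → |η y - η x| ≤ 2 * κ * ‖y - x‖ * η x := by
    intro x y hxy
    have e1 : η y - η x = η x * (Real.exp (κ * (b y - b x)) - 1) := by
      show Real.exp (κ * b y) - Real.exp (κ * b x) = Real.exp (κ * b x) * _
      rw [mul_sub, ← Real.exp_add, mul_one]
      congr 2
      ring
    rw [e1, abs_mul, abs_of_pos (hηpos x), mul_comm]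
    refine mul_le_mul_of_nonneg_right ?_ (hηpos x).le
    have e2 : |κ * (b y - b x)| ≤ κ * ‖y - x‖ := by
      rw [abs_mul, abs_of_pos hκ]
      exact mul_le_mul_of_nonneg_left (hbl y x) hκ.le
    have e3 := Real.abs_exp_sub_one_le (e2.trans hxy)
    linarith
  have hL1 : ∀ x h : Ed d, κ * ‖h‖ ≤ 1 → |η (x + h) - η x| ≤ 2 * κ * ‖h‖ * η x := by
    intro x h hh'
    have := hkey x (x + h)
    rw [add_sub_cancel_left] at this
    exact this hh'
  have hL2 : ∀ x h : Ed d, κ * ‖h‖ ≤ 1 → |η (x + h) - η x| ≤ 2 * κ * ‖h‖ * η (x + h) := by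
    intro x h hh'
    have := hkey (x + h) x
    rw [sub_add_cancel_left, norm_neg, abs_sub_comm] at this
    exact this hh'
  obtain ⟨hφ, hD⟩ := agmon_ineq η hηm hηpos K hηK hηK2 κ hκ hL1 hL2 u hu
  obtain ⟨φ, hφd⟩ : ∃ φ, φ = mr (fun x => η x ^ 2) (hηm.pow_const 2) (K ^ 2) hηK2 u := ⟨_, rfl⟩
  obtain ⟨w, hwd⟩ : ∃ w, w = mr η hηm K hηK u := ⟨_, rfl⟩
  rw [← hφd] at hφ hD
  rw [← hwd] at hD
  obtain ⟨hi, he⟩ := heq φ hφ
  have hwae : ∀ᵐ x ∂(volume : Measure (Ed d)), w x = (η x : ℂ) * u x := by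
    rw [hwd]; exact mr_ae η hηm K hηK u
  have hφae : ∀ᵐ x ∂(volume : Measure (Ed d)), φ x = ((η x ^ 2 : ℝ) : ℂ) * u x := by
    rw [hφd]; exact mr_ae (fun x => η x ^ 2) _ _ _ u
  have e1 : (fun x => (U x : ℂ) * u x * conj (φ x)) =ᵐ[volume]
      fun x => ((U x * ‖w x‖ ^ 2 : ℝ) : ℂ) := by
    filter_upwards [hwae, hφae] with x a b
    rw [a, b, map_mul, Complex.conj_ofReal, norm_mul, Complex.norm_real,
      Real.norm_of_nonneg (hηpos x).le]
    have : u x * conj (u x) = ((‖u x‖ ^ 2 : ℝ) : ℂ) := by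
      rw [Complex.mul_conj, Complex.normSq_eq_norm_sq]
    calc (U x : ℂ) * u x * (((η x ^ 2 : ℝ) : ℂ) * conj (u x))
        = (U x : ℂ) * ((η x ^ 2 : ℝ) : ℂ) * (u x * conj (u x)) := by ring
      _ = _ := by rw [this]; push_cast; ring
  have e2 : (fun x => u x * conj (φ x)) =ᵐ[volume] fun x => ((‖w x‖ ^ 2 : ℝ) : ℂ) := by
    filter_upwards [hwae, hφae] with x a b
    rw [a, b, map_mul, Complex.conj_ofReal, norm_mul, Complex.norm_real,
      Real.norm_of_nonneg (hηpos x).le]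
    have : u x * conj (u x) = ((‖u x‖ ^ 2 : ℝ) : ℂ) := by
      rw [Complex.mul_conj, Complex.normSq_eq_norm_sq]
    calc u x * (((η x ^ 2 : ℝ) : ℂ) * conj (u x))
        = ((η x ^ 2 : ℝ) : ℂ) * (u x * conj (u x)) := by ring
      _ = _ := by rw [this]; push_cast; ring
  rw [integral_congr_ae e1, integral_congr_ae e2, integral_complex_ofReal,
    integral_complex_ofReal] at he
  have he2 := congrArg Complex.re he
  rw [Complex.add_re, Complex.re_ofReal_mul, Complex.ofReal_re, Complex.re_ofReal_mul,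
    Complex.ofReal_re] at he2
  have hUw : Integrable (fun x => U x * ‖w x‖ ^ 2) volume := by
    have := (hi.congr e1).re
    refine this.congr (Eventually.of_forall fun x => ?_)
    simp only
    exact Complex.ofReal_re _
  have hw2 := int_sq w
  have hu2 := int_sq u
  have h1 : ∫ x, U x * ‖w x‖ ^ 2 ≤ (lam + 1 / 2) * ∫ x, ‖w x‖ ^ 2 := by
    rw [← norm_sq_eq] at he2 ⊢
    have h2 : -(1 / 2 * ‖w‖ ^ 2) ≤ hh ^ 2 * (dirichlet u φ).re := by
      have h3 := mul_le_mul_of_nonneg_left hD (sq_nonneg hh)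
      have h4 := mul_le_mul_of_nonneg_right hκh (sq_nonneg ‖w‖)
      nlinarith
    linarith
  -- pointwise lower bound
  have h2 : ∀ᵐ x ∂(volume : Measure (Ed d)),
      1 / 2 * Real.exp (2 * κ * τ) * (if ρ + τ ≤ ‖x‖ then ‖u x‖ ^ 2 else 0) ≤
      (U x * ‖w x‖ ^ 2 - (lam + 1 / 2) * ‖w x‖ ^ 2) + (lam + 1 / 2) * ‖u x‖ ^ 2 := by
    filter_upwards [hwae] with x a
    have hw' : ‖w x‖ = η x * ‖u x‖ := by
      rw [a, norm_mul, Complex.norm_real, Real.norm_of_nonneg (hηpos x).le]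
    by_cases hx : ρ ≤ ‖x‖
    · have hUx := hU x hx
      have h3 : 1 / 2 * ‖w x‖ ^ 2 ≤ U x * ‖w x‖ ^ 2 - (lam + 1 / 2) * ‖w x‖ ^ 2 := by
        nlinarith [sq_nonneg ‖w x‖]
      have h4 : 0 ≤ (lam + 1 / 2) * ‖u x‖ ^ 2 := by positivity
      split_ifs with hx2
      · have hbx : b x = τ := by
          show min (max (‖x‖ - ρ) 0) τ = τ
          rw [min_eq_right]
          exact le_max_of_le_left (by linarith)
        have hηx : η x ^ 2 = Real.exp (2 * κ * τ) := by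
          show Real.exp (κ * b x) ^ 2 = _
          rw [hbx, ← Real.exp_nat_mul]
          congr 1
          push_cast
          ring
        have h5 : ‖w x‖ ^ 2 = Real.exp (2 * κ * τ) * ‖u x‖ ^ 2 := by rw [hw', mul_pow, hηx]
        rw [h5] at h3 ⊢
        linarith
      · rw [mul_zero]
        have : 0 ≤ 1 / 2 * ‖w x‖ ^ 2 := by positivity
        linarith
    · push Not at hx
      have hx2 : ¬ (ρ + τ ≤ ‖x‖) := by linarith
      rw [if_neg hx2, mul_zero]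
      have hbx : b x = 0 := by
        show min (max (‖x‖ - ρ) 0) τ = 0
        rw [max_eq_right (by linarith), min_eq_left hτ.le]
      have hηx : η x = 1 := by
        show Real.exp (κ * b x) = 1
        rw [hbx, mul_zero, Real.exp_zero]
      rw [hw', hηx, one_mul]
      have := mul_nonneg (hU0 x) (sq_nonneg ‖u x‖)
      linarith
  have hmeas : MeasurableSet {x : Ed d | ρ + τ ≤ ‖x‖} := measurableSet_le measurable_const measurable_norm
  have hiu : Integrable (fun x => if ρ + τ ≤ ‖x‖ then ‖u x‖ ^ 2 else 0) volume := by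
    have := hu2.indicator hmeas
    refine this.congr (Eventually.of_forall fun x => ?_)
    simp only [Set.indicator, Set.mem_ofPred_eq]
  have i1 : Integrable (fun x => U x * ‖w x‖ ^ 2 - (lam + 1 / 2) * ‖w x‖ ^ 2) volume :=
    hUw.sub (hw2.const_mul _)
  have i2 : Integrable (fun x => (lam + 1 / 2) * ‖u x‖ ^ 2) volume := hu2.const_mul _
  have i3 : Integrable (fun x => (lam + 1 / 2) * ‖w x‖ ^ 2) volume := hw2.const_mul _
  have h3 : ∫ x, 1 / 2 * Real.exp (2 * κ * τ) * (if ρ + τ ≤ ‖x‖ then ‖u x‖ ^ 2 else 0) ≤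
      ∫ x, ((U x * ‖w x‖ ^ 2 - (lam + 1 / 2) * ‖w x‖ ^ 2) + (lam + 1 / 2) * ‖u x‖ ^ 2) :=
    integral_mono_ae (hiu.const_mul _) (i1.add i2) h2
  rw [integral_const_mul] at h3
  have h4 : ∫ x, ((U x * ‖w x‖ ^ 2 - (lam + 1 / 2) * ‖w x‖ ^ 2) + (lam + 1 / 2) * ‖u x‖ ^ 2) =
      (∫ x, U x * ‖w x‖ ^ 2) - (lam + 1 / 2) * (∫ x, ‖w x‖ ^ 2) + (lam + 1 / 2) * 1 := by
    rw [integral_add i1 i2, integral_sub hUw i3, integral_const_mul, integral_const_mul,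
      ← norm_sq_eq u, hun]
    norm_num
  have h5 : 1 / 2 * Real.exp (2 * κ * τ) * ∫ x, (if ρ + τ ≤ ‖x‖ then ‖u x‖ ^ 2 else 0) ≤
      lam + 1 / 2 := by
    refine h3.trans ?_
    refine (le_of_eq h4).trans ?_
    linarith
  have h6 : Real.exp (-(2 * κ * τ)) * Real.exp (2 * κ * τ) = 1 := by
    rw [← Real.exp_add, neg_add_cancel, Real.exp_zero]
  have h7 := mul_le_mul_of_nonneg_left h5 (mul_nonneg (zero_le_two) (Real.exp_pos (-(2 * κ * τ))).le)
  calc ∫ x, (if ρ + τ ≤ ‖x‖ then ‖u x‖ ^ 2 else 0)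
      = (Real.exp (-(2 * κ * τ)) * Real.exp (2 * κ * τ)) *
        ∫ x, (if ρ + τ ≤ ‖x‖ then ‖u x‖ ^ 2 else 0) := by rw [h6, one_mul]
    _ = 2 * Real.exp (-(2 * κ * τ)) * (1 / 2 * Real.exp (2 * κ * τ) *
        ∫ x, (if ρ + τ ≤ ‖x‖ then ‖u x‖ ^ 2 else 0)) := by ring
    _ ≤ 2 * Real.exp (-(2 * κ * τ)) * (lam + 1 / 2) := h7
    _ = _ := by ring

end Pool.Agent.Q177.CW
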