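import Mathlib

namespace Pool.Agent.Q177.CW

open scoped ComplexConjugate
open ContinuousLinearMap

variable {X : Type*} [NormedAddCommGroup X] [InnerProductSpace ℂ X] [CompleteSpace X]

theorem solve (S C : X →L[ℂ] X) (hS : ∀ x y, inner ℂ (S x) y = inner ℂ x (S y))
    (hC : ∀ x y, inner ℂ (C x) y = inner ℂ x (C y)) (μ θ κ δ : ℝ) (hμ : 0 ≤ μ) (hθ : 0 ≤ θ)
    (hκ : 0 ≤ κ) (hδ : 0 < δ) (hSθ : ∀ w, ‖S w‖ ^ 2 ≤ θ * ‖w‖ ^ 2) (hμθ : μ * θ ≤ 1 - δ) :
    ∃ G : X →L[ℂ] X, (∀ r, ‖G r‖ ≤ θ * (1 + κ) / δ * ‖r‖) ∧ (∀ r, ∃ w, G r = S w) ∧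
      ∀ r, G r = S (S ((μ : ℂ) • G r + ((κ : ℂ) + Complex.I) • C (G r) + r)) := by
  obtain ⟨c, hc⟩ : ∃ c : ℂ, c = (κ : ℂ) + Complex.I := ⟨_, rfl⟩
  let B : X →L[ℂ] X := ContinuousLinearMap.id ℂ X - (μ : ℂ) • (S ∘L S) - c • (S ∘L C ∘L S)
  have hB : ∀ w, B w = w - (μ : ℂ) • S (S w) - c • S (C (S w)) := fun w => rfl
  have hκ1 : (0 : ℝ) < 1 + κ := by linarith
  -- lower bound
  have hlow : ∀ w, ‖w‖ ^ 2 * (δ / (1 + κ)) ≤ ‖inner ℂ (B w) w‖ := by
    intro w
    have hreal : (inner ℂ (C (S w)) (S w)).im = 0 := by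
      have h1 := inner_conj_symm (𝕜 := ℂ) (C (S w)) (S w)
      have h2 := hC (S w) (S w)
      have h3 : conj (inner ℂ (C (S w)) (S w)) = inner ℂ (C (S w)) (S w) := by
        rw [inner_conj_symm, ← h2]
      exact Complex.conj_eq_iff_im.1 h3
    obtain ⟨t, ht⟩ : ∃ t : ℝ, inner ℂ (C (S w)) (S w) = (t : ℂ) :=
      ⟨(inner ℂ (C (S w)) (S w)).re, by
        apply Complex.ext
        · simp
        · simp [hreal]⟩
    have h1 : inner ℂ (B w) w = ((‖w‖ ^ 2 - μ * ‖S w‖ ^ 2 : ℝ) : ℂ) - conj c * (t : ℂ) := by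
      rw [hB, inner_sub_left, inner_sub_left, inner_smul_left, inner_smul_left,
        hS (S w) w, hS (C (S w)) w, ht, inner_self_eq_norm_sq_to_K, inner_self_eq_norm_sq_to_K,
        Complex.conj_ofReal]
      push_cast
      rfl
    have h2 : (conj ((1 : ℂ) + Complex.I * κ) * inner ℂ (B w) w).re =
        ‖w‖ ^ 2 - μ * ‖S w‖ ^ 2 := by
      rw [h1, hc]
      simp only [map_add, map_mul, map_one, Complex.conj_I, Complex.conj_ofReal, Complex.mul_re,
        Complex.add_re, Complex.add_im, Complex.sub_re, Complex.sub_im, Complex.mul_im,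
        Complex.ofReal_re, Complex.ofReal_im, Complex.neg_re, Complex.neg_im, Complex.I_re,
        Complex.I_im, Complex.one_re, Complex.one_im]
      ring
    have h3 : ‖w‖ ^ 2 - μ * ‖S w‖ ^ 2 ≤ ‖conj ((1 : ℂ) + Complex.I * κ) * inner ℂ (B w) w‖ := by
      rw [← h2]
      exact Complex.re_le_norm _
    have h4 : ‖conj ((1 : ℂ) + Complex.I * κ)‖ ≤ 1 + κ := by
      rw [RCLike.norm_conj]
      refine (norm_add_le _ _).trans ?_
      rw [norm_mul, Complex.norm_I, Complex.norm_real, Real.norm_of_nonneg hκ, norm_one, one_mul]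
    have h5 : ‖w‖ ^ 2 * δ ≤ ‖w‖ ^ 2 - μ * ‖S w‖ ^ 2 := by
      have h6 : μ * ‖S w‖ ^ 2 ≤ μ * (θ * ‖w‖ ^ 2) := mul_le_mul_of_nonneg_left (hSθ w) hμ
      have h7 : μ * θ * ‖w‖ ^ 2 ≤ (1 - δ) * ‖w‖ ^ 2 :=
        mul_le_mul_of_nonneg_right hμθ (by positivity)
      nlinarith
    rw [norm_mul] at h3
    have h6 : ‖w‖ ^ 2 * δ ≤ (1 + κ) * ‖inner ℂ (B w) w‖ :=
      h5.trans (h3.trans (mul_le_mul_of_nonneg_right h4 (norm_nonneg _)))
    rw [mul_div_assoc', div_le_iff₀ hκ1]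
    linarith
  have hcpos : 0 < δ / (1 + κ) := div_pos hδ hκ1
  have hunit : IsUnit B := by
    refine isUnit_of_forall_le_norm_inner_map B (c := ⟨δ / (1 + κ), hcpos.le⟩) ?_ ?_
    · exact hcpos
    · intro w
      exact hlow w
  obtain ⟨Bu, hBu⟩ := hunit
  have hinv : ∀ y, B ((↑Bu⁻¹ : X →L[ℂ] X) y) = y := by
    intro y
    have : (B * (↑Bu⁻¹ : X →L[ℂ] X)) y = y := by
      rw [← hBu, Units.mul_inv]
      rfl
    exact this
  have hinvn : ∀ y, ‖(↑Bu⁻¹ : X →L[ℂ] X) y‖ ≤ (1 + κ) / δ * ‖y‖ := by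
    intro y
    obtain ⟨w, hw⟩ : ∃ w, w = (↑Bu⁻¹ : X →L[ℂ] X) y := ⟨_, rfl⟩
    have h1 := hlow w
    have h2 : ‖inner ℂ (B w) w‖ ≤ ‖B w‖ * ‖w‖ := norm_inner_le_norm _ _
    have h3 : B w = y := by rw [hw]; exact hinv y
    rw [h3] at h2 h1
    rw [← hw]
    by_cases hw0 : ‖w‖ = 0
    · rw [hw0]; positivity
    have hw1 : 0 < ‖w‖ := lt_of_le_of_ne (norm_nonneg _) (Ne.symm hw0)
    have h4 : ‖w‖ * (δ / (1 + κ)) ≤ ‖y‖ := by
      have : ‖w‖ * (‖w‖ * (δ / (1 + κ))) ≤ ‖w‖ * ‖y‖ := by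
        calc ‖w‖ * (‖w‖ * (δ / (1 + κ))) = ‖w‖ ^ 2 * (δ / (1 + κ)) := by ring
          _ ≤ _ := h1.trans h2
          _ = ‖w‖ * ‖y‖ := by ring
      exact le_of_mul_le_mul_left this hw1
    calc ‖w‖ = (1 + κ) / δ * (‖w‖ * (δ / (1 + κ))) := by field_simp
      _ ≤ (1 + κ) / δ * ‖y‖ := mul_le_mul_of_nonneg_left h4 (by positivity)
  refine ⟨S ∘L (↑Bu⁻¹ : X →L[ℂ] X) ∘L S, ?_, fun r => ⟨(↑Bu⁻¹ : X →L[ℂ] X) (S r), rfl⟩, ?_⟩
  · intro r
    show ‖S ((↑Bu⁻¹ : X →L[ℂ] X) (S r))‖ ≤ _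
    obtain ⟨s, hs⟩ : ∃ s, s = √θ := ⟨_, rfl⟩
    have hs0 : 0 ≤ s := by rw [hs]; exact Real.sqrt_nonneg _
    have hs2 : s * s = θ := by rw [hs]; exact Real.mul_self_sqrt hθ
    have hSn : ∀ w, ‖S w‖ ≤ s * ‖w‖ := by
      intro w
      refine le_of_sq_le_sq ?_ (by positivity)
      calc ‖S w‖ ^ 2 ≤ θ * ‖w‖ ^ 2 := hSθ w
        _ = (s * ‖w‖) ^ 2 := by rw [← hs2]; ring
    calc ‖S ((↑Bu⁻¹ : X →L[ℂ] X) (S r))‖ ≤ s * ‖(↑Bu⁻¹ : X →L[ℂ] X) (S r)‖ := hSn _
      _ ≤ s * ((1 + κ) / δ * ‖S r‖) := mul_le_mul_of_nonneg_left (hinvn _) hs0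
      _ ≤ s * ((1 + κ) / δ * (s * ‖r‖)) :=
          mul_le_mul_of_nonneg_left (mul_le_mul_of_nonneg_left (hSn r) (by positivity)) hs0
      _ = θ * (1 + κ) / δ * ‖r‖ := by rw [← hs2]; ring
  · intro r
    obtain ⟨w, hw⟩ : ∃ w, w = (↑Bu⁻¹ : X →L[ℂ] X) (S r) := ⟨_, rfl⟩
    have h1 : B w = S r := by rw [hw]; exact hinv _
    have h2 : w = (μ : ℂ) • S (S w) + c • S (C (S w)) + S r := by
      rw [hB] at h1
      rw [← h1]
      abel
    show S ((↑Bu⁻¹ : X →L[ℂ] X) (S r)) = S (S ((μ : ℂ) • S ((↑Bu⁻¹ : X →L[ℂ] X) (S r)) +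
      ((κ : ℂ) + Complex.I) • C (S ((↑Bu⁻¹ : X →L[ℂ] X) (S r))) + r))
    rw [← hw, ← hc]
    have h3 : S ((μ : ℂ) • S w + c • C (S w) + r) = w := by
      rw [map_add, map_add, map_smul, map_smul]
      exact h2.symm
    rw [h3]

theorem invariant {N : ℕ} (u : Fin N → X) (hu : Orthonormal ℂ u) (T C : X →L[ℂ] X)
    (hT : T.IsPositive)
    (hC : ∀ x y, inner ℂ (C x) y = inner ℂ x (C y)) (μ : Fin N → ℝ)
    (hTu : ∀ n, T (u n) = ((μ n : ℂ))⁻¹ • u n) (hμ : ∀ n, 0 < μ n) (μ' g κ ε : ℝ) (hg : 0 < g)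
    (hμ' : 0 < μ') (hgap : ∀ n, μ n + g ≤ μ')
    (hQ : ∀ w, (∀ n, inner ℂ (u n) w = 0) → (inner ℂ (T w) w).re ≤ μ'⁻¹ * ‖w‖ ^ 2)
    (hκ : 0 ≤ κ) (hε : 0 ≤ ε) (hCu : ∀ n, ‖C (u n)‖ ≤ ε)
    (hsmall : 16 * (1 + κ) ^ 2 * (N + 1) * ε ≤ g) :
    ∃ (v : Fin N → X) (A : Matrix (Fin N) (Fin N) ℂ),
      (∀ n, v n = T (∑ m, A m n • v m + ((κ : ℂ) + Complex.I) • C (v n))) ∧
      (∀ m n, ‖A m n - if m = n then (μ n : ℂ) else 0‖ ≤ 2 * (1 + κ) * ε) ∧
      LinearIndependent ℂ v := by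
  classical
  obtain ⟨c, hc⟩ : ∃ c : ℂ, c = (κ : ℂ) + Complex.I := ⟨_, rfl⟩
  have hcn : ‖c‖ ≤ 1 + κ := by
    rw [hc]
    refine (norm_add_le _ _).trans ?_
    rw [Complex.norm_I, Complex.norm_real, Real.norm_of_nonneg hκ, add_comm]
  have hTs : ∀ x y, inner ℂ (T x) y = inner ℂ x (T y) := fun x y => hT.isSymmetric x y
  -- the projection
  let P : X →L[ℂ] X := ∑ n, (innerSL ℂ (u n)).smulRight (u n)
  have hP : ∀ w, P w = ∑ n, inner ℂ (u n) w • u n := by
    intro w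
    simp only [P, ContinuousLinearMap.sum_apply, ContinuousLinearMap.smulRight_apply,
      innerSL_apply_apply]
  let Q : X →L[ℂ] X := ContinuousLinearMap.id ℂ X - P
  have hQa : ∀ w, Q w = w - P w := fun w => rfl
  have huP : ∀ m w, inner ℂ (u m) (P w) = inner ℂ (u m) w := by
    intro m w
    rw [hP, inner_sum]
    simp_rw [inner_smul_right]
    rw [Finset.sum_eq_single m]
    · rw [orthonormal_iff_ite.1 hu m m, if_pos rfl, mul_one]
    · intro b _ hb
      rw [orthonormal_iff_ite.1 hu m b, if_neg (Ne.symm hb), mul_zero]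
    · intro h; exact absurd (Finset.mem_univ _) h
  have huQ : ∀ m w, inner ℂ (u m) (Q w) = 0 := by
    intro m w
    rw [hQa, inner_sub_right, huP, sub_self]
  have hPs : ∀ x y, inner ℂ (P x) y = inner ℂ x (P y) := by
    intro x y
    rw [hP, hP, sum_inner, inner_sum]
    refine Finset.sum_congr rfl fun n _ => ?_
    rw [inner_smul_left, inner_smul_right, inner_conj_symm]
    ring
  have hQs : ∀ x y, inner ℂ (Q x) y = inner ℂ x (Q y) := by
    intro x y
    rw [hQa, hQa, inner_sub_left, inner_sub_right, hPs]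
  have hQn : ∀ w, ‖Q w‖ ^ 2 ≤ ‖w‖ ^ 2 := by
    intro w
    have h1 : inner ℂ (P w) (Q w) = 0 := by
      rw [hP, sum_inner]
      refine Finset.sum_eq_zero fun n _ => ?_
      rw [inner_smul_left, huQ, mul_zero]
    have h2 : ‖P w + Q w‖ * ‖P w + Q w‖ = ‖P w‖ * ‖P w‖ + ‖Q w‖ * ‖Q w‖ :=
      norm_add_sq_eq_norm_sq_add_norm_sq_of_inner_eq_zero _ _ h1
    have h3 : P w + Q w = w := by rw [hQa]; abel
    rw [h3] at h2
    nlinarith [mul_self_nonneg ‖P w‖]
  have hQu : ∀ m, Q (u m) = 0 := by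
    intro m
    rw [hQa, hP]
    rw [Finset.sum_eq_single m]
    · rw [orthonormal_iff_ite.1 hu m m, if_pos rfl, one_smul, sub_self]
    · intro b _ hb
      rw [orthonormal_iff_ite.1 hu b m, if_neg hb, zero_smul]
    · intro h; exact absurd (Finset.mem_univ _) h
  -- the compressed operator and its square root
  let TQ : X →L[ℂ] X := Q ∘L T ∘L Q
  have hTQ : ∀ w, TQ w = Q (T (Q w)) := fun w => rfl
  have hTQp : TQ.IsPositive := by
    refine ⟨?_, ?_⟩
    · intro x y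
      show inner ℂ (Q (T (Q x))) y = inner ℂ x (Q (T (Q y)))
      rw [hQs, hTs, hQs]
    · intro x
      have h1 := hT.2 (Q x)
      have h2 : TQ.reApplyInnerSelf x = T.reApplyInnerSelf (Q x) := by
        rw [ContinuousLinearMap.reApplyInnerSelf_apply, ContinuousLinearMap.reApplyInnerSelf_apply]
        show RCLike.re (inner ℂ (Q (T (Q x))) x) = _
        rw [hQs]
      rw [h2]
      exact h1
  obtain ⟨S, hSs, hSS⟩ : ∃ S : X →L[ℂ] X, (∀ x y, inner ℂ (S x) y = inner ℂ x (S y)) ∧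
      ∀ w, S (S w) = TQ w := by
    have h0 : (0 : X →L[ℂ] X) ≤ TQ := by
      rw [ContinuousLinearMap.nonneg_iff_isPositive]
      exact hTQp
    refine ⟨CFC.sqrt TQ, ?_, ?_⟩
    · have h1 : (0 : X →L[ℂ] X) ≤ CFC.sqrt TQ := CFC.sqrt_nonneg TQ
      rw [ContinuousLinearMap.nonneg_iff_isPositive] at h1
      intro x y
      exact h1.isSymmetric x y
    · intro w
      have h1 := CFC.sqrt_mul_sqrt_self TQ h0
      calc CFC.sqrt TQ (CFC.sqrt TQ w) = (CFC.sqrt TQ * CFC.sqrt TQ) w := rfl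
        _ = TQ w := by rw [h1]
  have hSn : ∀ w, ‖S w‖ ^ 2 = (inner ℂ (TQ w) w).re := by
    intro w
    have h1 : inner ℂ (S w) (S w) = ((‖S w‖ : ℂ)) ^ 2 := inner_self_eq_norm_sq_to_K _
    have h2 : inner ℂ (TQ w) w = ((‖S w‖ ^ 2 : ℝ) : ℂ) := by
      rw [← hSS, hSs, h1]
      push_cast
      rfl
    rw [h2, Complex.ofReal_re]
  have hSθ : ∀ w, ‖S w‖ ^ 2 ≤ μ'⁻¹ * ‖w‖ ^ 2 := by
    intro w
    rw [hSn, hTQ, hQs]
    refine (hQ (Q w) (fun n => huQ n w)).trans ?_
    exact mul_le_mul_of_nonneg_left (hQn w) (by positivity)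
  have hSu : ∀ m, S (u m) = 0 := by
    intro m
    have h1 := hSn (u m)
    rw [hTQ, hQu, map_zero, map_zero, inner_zero_left] at h1
    have h2 : ‖S (u m)‖ = 0 := by
      have : ‖S (u m)‖ ^ 2 = 0 := by rw [h1]; rfl
      exact pow_eq_zero_iff (two_ne_zero) |>.1 this
    exact norm_eq_zero.1 h2
  have huS : ∀ m w, inner ℂ (u m) (S w) = 0 := by
    intro m w
    rw [← hSs, hSu, inner_zero_left]
  -- the solution operators
  have hsol : ∀ n, ∃ G : X →L[ℂ] X, (∀ r, ‖G r‖ ≤ (1 + κ) / g * ‖r‖) ∧ (∀ r, ∃ w, G r = S w) ∧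
      ∀ r, G r = S (S ((μ n : ℂ) • G r + c • C (G r) + r)) := by
    intro n
    obtain ⟨G, h1, h2, h3⟩ := solve S C hSs hC (μ n) μ'⁻¹ κ (g / μ') (hμ n).le (by positivity) hκ
      (by positivity) hSθ (by
        have h := hgap n
        rw [← div_eq_mul_inv, div_le_iff₀ hμ', sub_mul, div_mul_cancel₀ _ hμ'.ne', one_mul]
        linarith)
    refine ⟨G, fun r => ?_, h2, fun r => ?_⟩
    · refine (h1 r).trans (le_of_eq ?_)
      field_simp
    · rw [hc]; exact h3 r
  choose G hG1 hG2 hG3 using hsol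
  -- constants
  obtain ⟨L, hL⟩ : ∃ L, L = (1 + κ) / g := ⟨_, rfl⟩
  have hL0 : 0 ≤ L := by rw [hL]; positivity
  have hLc : 16 * (L * (1 + κ) * ((N + 1) * ε)) ≤ 1 := by
    rw [hL]
    have h1 : 16 * ((1 + κ) / g * (1 + κ) * ((N + 1) * ε)) =
        (16 * (1 + κ) ^ 2 * (N + 1) * ε) / g := by
      field_simp
    rw [h1, div_le_one hg]
    exact hsmall
  have hN0 : (0 : ℝ) ≤ N := Nat.cast_nonneg _
  obtain ⟨r0, hr0⟩ : ∃ r0, r0 = 2 * (L * (1 + κ) * ε) := ⟨_, rfl⟩
  have hr0n : 0 ≤ r0 := by rw [hr0]; positivity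
  have hx : 0 ≤ L * (1 + κ) * ε := by positivity
  have hr08 : (N + 1) * r0 ≤ 1 / 8 := by
    rw [hr0]
    calc (N + 1) * (2 * (L * (1 + κ) * ε)) = (16 * (L * (1 + κ) * ((N + 1) * ε))) / 8 := by ring
      _ ≤ 1 / 8 := by linarith
  have hr01 : r0 ≤ 1 / 8 := by nlinarith
  have hin : ∀ m w, ‖inner ℂ (u m) (C w)‖ ≤ ε * ‖w‖ := by
    intro m w
    rw [← hC]
    exact (norm_inner_le_norm _ _).trans (mul_le_mul_of_nonneg_right (hCu m) (norm_nonneg _))
  let Φ : (Fin N → X) → (Fin N → X) := fun q n =>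
    G n (c • C (u n) - c • ∑ m, inner ℂ (u m) (C (u n + q n)) • q m)
  have hΦ : ∀ q n, Φ q n = G n (c • C (u n) - c • ∑ m, inner ℂ (u m) (C (u n + q n)) • q m) :=
    fun q n => rfl
  have hun : ∀ n, ‖u n‖ = 1 := hu.1
  have hmaps : Set.MapsTo Φ (Metric.closedBall 0 r0) (Metric.closedBall 0 r0) := by
    intro q hq
    rw [mem_closedBall_zero_iff] at hq ⊢
    rw [pi_norm_le_iff_of_nonneg hr0n]
    intro n
    have hqn : ∀ m, ‖q m‖ ≤ r0 := fun m => (norm_le_pi_norm q m).trans hq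
    rw [hΦ]
    refine (hG1 n _).trans ?_
    rw [← hL]
    have h1 : ‖∑ m, inner ℂ (u m) (C (u n + q n)) • q m‖ ≤ N * (ε * (9 / 8) * r0) := by
      refine (norm_sum_le _ _).trans ?_
      have h2 : ∀ m ∈ Finset.univ, ‖inner ℂ (u m) (C (u n + q n)) • q m‖ ≤ ε * (9 / 8) * r0 := by
        intro m _
        rw [norm_smul]
        refine mul_le_mul ((hin m _).trans (mul_le_mul_of_nonneg_left ?_ hε)) (hqn m)
          (norm_nonneg _) (by positivity)
        refine (norm_add_le _ _).trans ?_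
        rw [hun]
        linarith [hqn n]
      refine (Finset.sum_le_sum h2).trans ?_
      rw [Finset.sum_const, Finset.card_univ, Fintype.card_fin, nsmul_eq_mul]
    have h3 : ‖c • C (u n) - c • ∑ m, inner ℂ (u m) (C (u n + q n)) • q m‖ ≤
        (1 + κ) * (2 * ε) := by
      rw [← smul_sub, norm_smul]
      refine mul_le_mul hcn ?_ (norm_nonneg _) (by positivity)
      refine (norm_sub_le _ _).trans ?_
      have h4 : (N : ℝ) * (ε * (9 / 8) * r0) ≤ ε := by
        have h5 : N * r0 ≤ 1 / 8 := by nlinarith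
        nlinarith
      linarith [hCu n]
    calc L * ‖c • C (u n) - c • ∑ m, inner ℂ (u m) (C (u n + q n)) • q m‖
        ≤ L * ((1 + κ) * (2 * ε)) := mul_le_mul_of_nonneg_left h3 hL0
      _ = r0 := by rw [hr0]; ring
  have hlip : ∀ q ∈ Metric.closedBall (0 : Fin N → X) r0, ∀ q' ∈ Metric.closedBall (0 : Fin N → X) r0,
      ‖Φ q - Φ q'‖ ≤ 1 / 2 * ‖q - q'‖ := by
    intro q hq q' hq'
    rw [mem_closedBall_zero_iff] at hq hq'
    rw [pi_norm_le_iff_of_nonneg (by positivity)]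
    intro n
    have hqn : ∀ m, ‖q m‖ ≤ r0 := fun m => (norm_le_pi_norm q m).trans hq
    have hqn' : ∀ m, ‖q' m‖ ≤ r0 := fun m => (norm_le_pi_norm q' m).trans hq'
    have hqd : ∀ m, ‖q m - q' m‖ ≤ ‖q - q'‖ := fun m => norm_le_pi_norm (q - q') m
    rw [Pi.sub_apply, hΦ, hΦ, ← map_sub]
    refine (hG1 n _).trans ?_
    rw [← hL]
    have e1 : c • C (u n) - c • ∑ m, inner ℂ (u m) (C (u n + q n)) • q m -
        (c • C (u n) - c • ∑ m, inner ℂ (u m) (C (u n + q' n)) • q' m) =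
        c • ∑ m, (inner ℂ (u m) (C (u n + q' n)) • (q' m - q m) +
          inner ℂ (u m) (C (q' n - q n)) • q m) := by
      have : ∀ m, inner ℂ (u m) (C (u n + q' n)) • (q' m - q m) +
          inner ℂ (u m) (C (q' n - q n)) • q m =
          inner ℂ (u m) (C (u n + q' n)) • q' m - inner ℂ (u m) (C (u n + q n)) • q m := by
        intro m
        have h6 : C (q' n - q n) = C (u n + q' n) - C (u n + q n) := by
          rw [← map_sub]
          congr 1
          abel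
        rw [h6, inner_sub_right, sub_smul, smul_sub]
        abel
      rw [Finset.sum_congr rfl fun m _ => this m, Finset.sum_sub_distrib, smul_sub]
      abel
    rw [e1, norm_smul]
    have h1 : ‖∑ m, (inner ℂ (u m) (C (u n + q' n)) • (q' m - q m) +
          inner ℂ (u m) (C (q' n - q n)) • q m)‖ ≤ N * (2 * ε * ‖q - q'‖) := by
      refine (norm_sum_le _ _).trans ?_
      have h2 : ∀ m ∈ Finset.univ, ‖inner ℂ (u m) (C (u n + q' n)) • (q' m - q m) +
          inner ℂ (u m) (C (q' n - q n)) • q m‖ ≤ 2 * ε * ‖q - q'‖ := by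
        intro m _
        refine (norm_add_le _ _).trans ?_
        rw [norm_smul, norm_smul]
        have h3 : ‖inner ℂ (u m) (C (u n + q' n))‖ ≤ ε * (9 / 8) := by
          refine (hin m _).trans (mul_le_mul_of_nonneg_left ?_ hε)
          refine (norm_add_le _ _).trans ?_
          rw [hun]
          linarith [hqn' n]
        have h4 : ‖inner ℂ (u m) (C (q' n - q n))‖ ≤ ε * ‖q - q'‖ := by
          refine (hin m _).trans (mul_le_mul_of_nonneg_left ?_ hε)
          rw [norm_sub_rev]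
          exact hqd n
        have h5 : ‖q' m - q m‖ ≤ ‖q - q'‖ := by rw [norm_sub_rev]; exact hqd m
        have h6 : ‖inner ℂ (u m) (C (u n + q' n))‖ * ‖q' m - q m‖ ≤ ε * (9 / 8) * ‖q - q'‖ :=
          mul_le_mul h3 h5 (norm_nonneg _) (by positivity)
        have h7 : ‖inner ℂ (u m) (C (q' n - q n))‖ * ‖q m‖ ≤ ε * ‖q - q'‖ * (1 / 8) :=
          mul_le_mul h4 ((hqn m).trans hr01) (norm_nonneg _) (by positivity)
        have h8 : 0 ≤ ε * ‖q - q'‖ := by positivity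
        nlinarith
      refine (Finset.sum_le_sum h2).trans ?_
      rw [Finset.sum_const, Finset.card_univ, Fintype.card_fin, nsmul_eq_mul]
    have h9 : ‖c‖ * ‖∑ m, (inner ℂ (u m) (C (u n + q' n)) • (q' m - q m) +
          inner ℂ (u m) (C (q' n - q n)) • q m)‖ ≤ (1 + κ) * (N * (2 * ε * ‖q - q'‖)) :=
      mul_le_mul hcn h1 (norm_nonneg _) (by positivity)
    refine (mul_le_mul_of_nonneg_left h9 hL0).trans ?_
    have h10 : L * (1 + κ) * (N * ε) ≤ 1 / 16 := by
      have h11 : L * (1 + κ) * (N * ε) ≤ L * (1 + κ) * ((N + 1) * ε) :=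
        mul_le_mul_of_nonneg_left (mul_le_mul_of_nonneg_right (by linarith) hε) (by positivity)
      linarith
    calc L * ((1 + κ) * (N * (2 * ε * ‖q - q'‖))) = 2 * (L * (1 + κ) * (N * ε)) * ‖q - q'‖ := by
          ring
      _ ≤ 2 * (1 / 16) * ‖q - q'‖ := by
          refine mul_le_mul_of_nonneg_right ?_ (norm_nonneg _)
          linarith
      _ ≤ 1 / 2 * ‖q - q'‖ := by
          refine mul_le_mul_of_nonneg_right ?_ (norm_nonneg _)
          norm_num
  have hcontr : ContractingWith (1 / 2 : NNReal) (hmaps.restrict Φ _ _) := by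
    refine ⟨?_, ?_⟩
    · rw [← NNReal.coe_lt_coe]; norm_num
    · refine LipschitzWith.of_dist_le_mul ?_
      rintro ⟨q, hq⟩ ⟨q', hq'⟩
      rw [Subtype.dist_eq, Subtype.dist_eq]
      show dist (Φ q) (Φ q') ≤ ((1 / 2 : NNReal) : ℝ) * dist q q'
      rw [dist_eq_norm, dist_eq_norm]
      refine (hlip q hq q' hq').trans (le_of_eq ?_)
      norm_num
  obtain ⟨q, hq, hfix, -, -⟩ := hcontr.exists_fixedPoint' (Metric.isClosed_closedBall.isComplete)
    hmaps (x := 0) (by simp [hr0n]) (edist_ne_top _ _)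
  rw [mem_closedBall_zero_iff] at hq
  have hqn : ∀ m, ‖q m‖ ≤ r0 := fun m => (norm_le_pi_norm q m).trans hq
  have hfixn : ∀ n, q n = G n (c • C (u n) - c • ∑ m, inner ℂ (u m) (C (u n + q n)) • q m) := by
    intro n
    have := congrFun hfix n
    rw [hΦ] at this
    exact this.symm
  have huq : ∀ m n, inner ℂ (u m) (q n) = 0 := by
    intro m n
    obtain ⟨w, hw⟩ := hG2 n (c • C (u n) - c • ∑ m, inner ℂ (u m) (C (u n + q n)) • q m)
    rw [hfixn n, hw]
    exact huS m w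
  let v : Fin N → X := fun n => u n + q n
  have hv : ∀ n, v n = u n + q n := fun n => rfl
  have huv : ∀ m n, inner ℂ (u m) (v n) = if m = n then (1 : ℂ) else 0 := by
    intro m n
    rw [hv, inner_add_right, huq, add_zero]
    exact orthonormal_iff_ite.1 hu m n
  let A : Matrix (Fin N) (Fin N) ℂ := fun m n =>
    (if m = n then (μ n : ℂ) else 0) - c * inner ℂ (u m) (C (v n))
  have hA : ∀ m n, A m n = (if m = n then (μ n : ℂ) else 0) - c * inner ℂ (u m) (C (v n)) :=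
    fun m n => rfl
  refine ⟨v, A, ?_, ?_, ?_⟩
  · intro n
    rw [← hc]
    obtain ⟨F, hF⟩ : ∃ F, F = ∑ m, A m n • v m + c • C (v n) := ⟨_, rfl⟩
    rw [← hF]
    -- components
    have hcomp : ∀ m, inner ℂ (u m) (T F) = if m = n then (1 : ℂ) else 0 := by
      intro m
      rw [← hTs, hTu, inner_smul_left, hF, inner_add_right, inner_sum]
      simp_rw [inner_smul_right, huv]
      rw [Finset.sum_eq_single m]
      · rw [if_pos rfl, mul_one, hA]
        have : (if m = n then (μ n : ℂ) else 0) - c * inner ℂ (u m) (C (v n)) +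
            c * inner ℂ (u m) (C (v n)) = if m = n then (μ n : ℂ) else 0 := by ring
        rw [this]
        by_cases hmn : m = n
        · subst hmn
          rw [if_pos rfl, if_pos rfl, map_inv₀, Complex.conj_ofReal]
          exact inv_mul_cancel₀ (Complex.ofReal_ne_zero.2 (hμ m).ne')
        · rw [if_neg hmn, if_neg hmn, mul_zero]
      · intro b _ hb
        rw [if_neg (Ne.symm hb), mul_zero]
      · intro h; exact absurd (Finset.mem_univ _) h
    have hPT : P (T F) = u n := by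
      rw [hP, Finset.sum_eq_single n]
      · rw [hcomp, if_pos rfl, one_smul]
      · intro b _ hb
        rw [hcomp, if_neg hb, zero_smul]
      · intro h; exact absurd (Finset.mem_univ _) h
    have hQT : Q (T F) = q n := by
      have h1 : Q (T F) = TQ F := by
        rw [hTQ]
        have h2 : F = P F + Q F := by rw [hQa]; abel
        have h3 : Q (T (P F)) = 0 := by
          rw [hP, map_sum, map_sum]
          refine Finset.sum_eq_zero fun m _ => ?_
          rw [map_smul, map_smul, hTu, map_smul, hQu, smul_zero, smul_zero]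
        conv_lhs => rw [h2, map_add, map_add, h3, zero_add]
      have h4 : TQ F = S (S ((μ n : ℂ) • q n + c • C (q n) +
          (c • C (u n) - c • ∑ m, inner ℂ (u m) (C (u n + q n)) • q m))) := by
        rw [hSS]
        -- difference is in span of u
        have h5 : F = ((μ n : ℂ) • q n + c • C (q n) +
          (c • C (u n) - c • ∑ m, inner ℂ (u m) (C (u n + q n)) • q m)) + ∑ m, A m n • u m := by
          rw [hF]
          have h6 : ∑ m, A m n • v m = ∑ m, A m n • u m + ∑ m, A m n • q m := by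
            rw [← Finset.sum_add_distrib]
            exact Finset.sum_congr rfl fun m _ => by rw [hv, smul_add]
          have h7 : ∑ m, A m n • q m = (μ n : ℂ) • q n -
              c • ∑ m, inner ℂ (u m) (C (u n + q n)) • q m := by
            have h8 : ∀ m, A m n • q m = (if m = n then (μ n : ℂ) • q m else 0) -
                c • inner ℂ (u m) (C (v n)) • q m := by
              intro m
              rw [hA, sub_smul, mul_smul]
              by_cases hmn : m = n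
              · rw [if_pos hmn, if_pos hmn]
              · rw [if_neg hmn, if_neg hmn, zero_smul]
            rw [Finset.sum_congr rfl fun m _ => h8 m, Finset.sum_sub_distrib,
              Finset.sum_ite_eq' Finset.univ n, if_pos (Finset.mem_univ _), Finset.smul_sum]
          rw [h6, h7, hv, map_add, smul_add]
          abel
        have h9 : TQ (∑ m, A m n • u m) = 0 := by
          rw [map_sum]
          refine Finset.sum_eq_zero fun m _ => ?_
          rw [map_smul, hTQ, hQu, map_zero, map_zero, smul_zero]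
        conv_lhs => rw [h5, map_add, h9, add_zero]
      rw [h1, h4]
      have h5 := hG3 n (c • C (u n) - c • ∑ m, inner ℂ (u m) (C (u n + q n)) • q m)
      rw [← hfixn n] at h5
      exact h5.symm
    rw [hv, ← hPT, ← hQT, hQa]
    abel
  · intro m n
    rw [hA]
    have : (if m = n then (μ n : ℂ) else 0) - c * inner ℂ (u m) (C (v n)) -
        (if m = n then (μ n : ℂ) else 0) = -(c * inner ℂ (u m) (C (v n))) := by ring
    rw [this, norm_neg, norm_mul]
    have h1 : ‖inner ℂ (u m) (C (v n))‖ ≤ ε * 2 := by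
      refine (hin m _).trans (mul_le_mul_of_nonneg_left ?_ hε)
      rw [hv]
      refine (norm_add_le _ _).trans ?_
      rw [hun]
      linarith [hqn n]
    calc ‖c‖ * ‖inner ℂ (u m) (C (v n))‖ ≤ (1 + κ) * (ε * 2) :=
          mul_le_mul hcn h1 (norm_nonneg _) (by positivity)
      _ = 2 * (1 + κ) * ε := by ring
  · rw [Fintype.linearIndependent_iff]
    intro a ha i
    have h1 : inner ℂ (u i) (∑ n, a n • v n) = a i := by
      rw [inner_sum]
      simp_rw [inner_smul_right, huv]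
      rw [Finset.sum_eq_single i]
      · rw [if_pos rfl, mul_one]
      · intro b _ hb
        rw [if_neg (Ne.symm hb), mul_zero]
      · intro h; exact absurd (Finset.mem_univ _) h
    rw [ha, inner_zero_right] at h1
    exact h1.symm

end Pool.Agent.Q177.CW
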