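import Mathlib

namespace Pool.Agent.Q177.CW

open scoped ComplexConjugate
open ContinuousLinearMap

variable {X : Type*} [NormedAddCommGroup X] [InnerProductSpace ℂ X] [CompleteSpace X]

noncomputable def fth (θ : ℝ) : ℝ → ℝ := fun s => max (s - θ) 0

theorem fth_cont (θ : ℝ) : Continuous (fth θ) := by unfold fth; fun_prop

noncomputable def Rth (T : X →L[ℂ] X) (θ : ℝ) : Submodule ℂ X :=
  LinearMap.range ((cfc (fth θ) T : X →L[ℂ] X) : X →ₗ[ℂ] X)

theorem mem_Rth (T : X →L[ℂ] X) (θ : ℝ) (x : X) : x ∈ Rth T θ ↔ ∃ g, (cfc (fth θ) T) g = x :=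
  Iff.rfl

theorem sa_of_pos {T : X →L[ℂ] X} (hT : T.IsPositive) : IsSelfAdjoint T := hT.isSelfAdjoint

theorem cfc_sym (T : X →L[ℂ] X) (f : ℝ → ℝ) (x y : X) :
    inner ℂ (cfc f T x) y = inner ℂ x (cfc f T y) := by
  have h1 : IsSelfAdjoint (cfc f T) := cfc_predicate f T
  have h2 := (ContinuousLinearMap.isSelfAdjoint_iff_isSymmetric).1 h1
  exact h2 x y

theorem cfc_mul_apply' (T : X →L[ℂ] X) (f g : ℝ → ℝ) (hf : Continuous f)
    (hg : Continuous g) (x : X) : cfc f T (cfc g T x) = cfc (fun s => f s * g s) T x := by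
  rw [cfc_mul f g T hf.continuousOn hg.continuousOn]
  rfl

theorem cfc_inner_mono {T : X →L[ℂ] X} (hT : T.IsPositive) (f g : ℝ → ℝ) (hf : Continuous f)
    (hg : Continuous g) (hfg : ∀ s, f s ≤ g s) (x : X) :
    (inner ℂ (cfc f T x) x).re ≤ (inner ℂ (cfc g T x) x).re := by
  have h1 : cfc f T ≤ cfc g T :=
    cfc_mono (fun s _ => hfg s) hf.continuousOn hg.continuousOn
  rw [ContinuousLinearMap.le_def] at h1
  have h2 := h1.2 x
  rw [ContinuousLinearMap.reApplyInnerSelf_apply, ContinuousLinearMap.sub_apply, inner_sub_left,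
    map_sub] at h2
  have h3 : RCLike.re (inner ℂ (cfc g T x) x) = (inner ℂ (cfc g T x) x).re := rfl
  have h4 : RCLike.re (inner ℂ (cfc f T x) x) = (inner ℂ (cfc f T x) x).re := rfl
  rw [h3, h4] at h2
  linarith

theorem Rth_inv {T : X →L[ℂ] X} (hT : T.IsPositive) (θ : ℝ) (x : X) (hx : x ∈ Rth T θ) :
    T x ∈ Rth T θ := by
  obtain ⟨g, rfl⟩ := hx
  refine ⟨T g, ?_⟩
  have h1 : T = cfc (fun s : ℝ => s) T := (cfc_id' ℝ T (sa_of_pos hT)).symm
  have h2 : cfc (fth θ) T (cfc (fun s : ℝ => s) T g) = cfc (fun s : ℝ => s) T (cfc (fth θ) T g) := by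
    rw [cfc_mul_apply' T _ _ (fth_cont θ) continuous_id', cfc_mul_apply' T _ _ continuous_id'
      (fth_cont θ)]
    congr 2
    funext s
    ring
  rw [← h1] at h2
  exact h2

theorem Rth_pre {T : X →L[ℂ] X} (hT : T.IsPositive) (θ : ℝ) (hθ : 0 < θ) (x : X)
    (hx : x ∈ Rth T θ) : ∃ y, T y = x ∧ (inner ℂ y x).re ≤ θ⁻¹ * ‖x‖ ^ 2 := by
  obtain ⟨g, rfl⟩ := hx
  let ψ : ℝ → ℝ := fun s => fth θ s * (max s θ)⁻¹
  have hmax : ∀ s : ℝ, 0 < max s θ := fun s => lt_max_of_lt_right hθ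
  have hψc : Continuous ψ := by
    refine (fth_cont θ).mul ?_
    refine Continuous.inv₀ (by fun_prop) (fun s => (hmax s).ne')
  have h1 : T = cfc (fun s : ℝ => s) T := (cfc_id' ℝ T (sa_of_pos hT)).symm
  refine ⟨cfc ψ T g, ?_, ?_⟩
  · have h2 : cfc (fun s : ℝ => s) T (cfc ψ T g) = cfc (fth θ) T g := by
      rw [cfc_mul_apply' T _ _ continuous_id' hψc]
      congr 2
      funext s
      show s * (fth θ s * (max s θ)⁻¹) = fth θ s
      unfold fth
      by_cases h : s ≤ θ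
      · rw [max_eq_right (by linarith : s - θ ≤ 0)]; ring
      · push Not at h
        rw [max_eq_left h.le, max_eq_left (by linarith : (0 : ℝ) ≤ s - θ)]
        have : s ≠ 0 := (hθ.trans h).ne'
        field_simp
    rw [← h1] at h2
    exact h2
  · show (inner ℂ (cfc ψ T g) (cfc (fth θ) T g)).re ≤ θ⁻¹ * ‖cfc (fth θ) T g‖ ^ 2
    have h2 : inner ℂ (cfc ψ T g) (cfc (fth θ) T g) = inner ℂ (cfc (fun s => fth θ s * ψ s) T g) g := by
      rw [← cfc_sym, cfc_mul_apply' T _ _ (fth_cont θ) hψc]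
    have h3 : inner ℂ (cfc (fth θ) T g) (cfc (fth θ) T g) =
        inner ℂ (cfc (fun s => fth θ s * fth θ s) T g) g := by
      rw [← cfc_sym, cfc_mul_apply' T _ _ (fth_cont θ) (fth_cont θ)]
    have h4 : (inner ℂ (cfc (fth θ) T g) (cfc (fth θ) T g)).re = ‖cfc (fth θ) T g‖ ^ 2 := by
      rw [inner_self_eq_norm_sq_to_K]
      norm_cast
    have h5 : cfc (fun s => θ⁻¹ * (fth θ s * fth θ s)) T g =
        (θ⁻¹ : ℂ) • cfc (fun s => fth θ s * fth θ s) T g := by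
      have := cfc_const_mul θ⁻¹ (fun s => fth θ s * fth θ s) T
        (((fth_cont θ).mul (fth_cont θ)).continuousOn)
      rw [this]
      show θ⁻¹ • (cfc (fun s => fth θ s * fth θ s) T g) = _
      rw [← Complex.ofReal_inv, Complex.coe_smul]
    have h6 := cfc_inner_mono hT (fun s => fth θ s * ψ s) (fun s => θ⁻¹ * (fth θ s * fth θ s))
      ((fth_cont θ).mul hψc) (continuous_const.mul ((fth_cont θ).mul (fth_cont θ)))
      (fun s => by
        show fth θ s * (fth θ s * (max s θ)⁻¹) ≤ θ⁻¹ * (fth θ s * fth θ s)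
        have h7 : (max s θ)⁻¹ ≤ θ⁻¹ := inv_anti₀ hθ (le_max_right _ _)
        have h8 : 0 ≤ fth θ s * fth θ s := mul_self_nonneg _
        nlinarith) g
    rw [h2]
    refine h6.trans (le_of_eq ?_)
    rw [h5, inner_smul_left, ← h3, ← Complex.ofReal_inv, Complex.conj_ofReal, Complex.re_ofReal_mul,
      h4]

theorem Rth_orth {T : X →L[ℂ] X} (hT : T.IsPositive) (θ : ℝ) (w : X)
    (hw : ∀ x ∈ Rth T θ, inner ℂ x w = 0) : (inner ℂ (T w) w).re ≤ θ * ‖w‖ ^ 2 := by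
  have h0 : cfc (fth θ) T w = 0 := by
    have h1 := hw (cfc (fth θ) T (cfc (fth θ) T w)) ⟨_, rfl⟩
    rw [cfc_sym] at h1
    exact inner_self_eq_zero.1 h1
  have h1 := cfc_inner_mono hT (fun s => s - θ) (fth θ) (by fun_prop) (fth_cont θ)
    (fun s => le_max_left _ _) w
  rw [h0, inner_zero_left] at h1
  have h2 : cfc (fun s : ℝ => s - θ) T = T - algebraMap ℝ (X →L[ℂ] X) θ := by
    rw [cfc_sub (fun s : ℝ => s) (fun _ => θ) T, cfc_id' ℝ T (sa_of_pos hT),
      cfc_const θ T (sa_of_pos hT)]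
  rw [h2] at h1
  have h3 : (T - algebraMap ℝ (X →L[ℂ] X) θ) w = T w - (θ : ℂ) • w := by
    rw [ContinuousLinearMap.sub_apply]
    congr 1
  rw [h3, inner_sub_left, inner_smul_left, Complex.conj_ofReal, Complex.sub_re,
    inner_self_eq_norm_sq_to_K] at h1
  have h4 : ((θ : ℂ) * ((‖w‖ : ℂ)) ^ 2).re = θ * ‖w‖ ^ 2 := by
    rw [← Complex.ofReal_pow, ← Complex.ofReal_mul, Complex.ofReal_re]
  have h5 : ((θ : ℂ) * ((‖w‖ : ℂ)) ^ 2).re = θ * ‖w‖ ^ 2 := h4
  have h6 : (inner ℂ (T w) w).re - ((θ : ℂ) * ((‖w‖ : ℂ)) ^ 2).re ≤ (0 : ℂ).re := h1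
  rw [h5, Complex.zero_re] at h6
  linarith

theorem Rth_mono {T : X →L[ℂ] X} {θ₁ θ₂ : ℝ} (h : θ₂ < θ₁) :
    Rth T θ₁ ≤ Rth T θ₂ := by
  rintro x ⟨g, rfl⟩
  let χ : ℝ → ℝ := fun s => fth θ₁ s * (max (s - θ₂) (θ₁ - θ₂))⁻¹
  have hmax : ∀ s : ℝ, 0 < max (s - θ₂) (θ₁ - θ₂) := fun s => lt_max_of_lt_right (by linarith)
  have hχc : Continuous χ := by
    refine (fth_cont θ₁).mul ?_
    refine Continuous.inv₀ (by fun_prop) (fun s => (hmax s).ne')
  refine ⟨cfc χ T g, ?_⟩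
  have h2 : cfc (fth θ₂) T (cfc χ T g) = cfc (fth θ₁) T g := by
    rw [cfc_mul_apply' T _ _ (fth_cont θ₂) hχc]
    congr 2
    funext s
    show fth θ₂ s * (fth θ₁ s * (max (s - θ₂) (θ₁ - θ₂))⁻¹) = fth θ₁ s
    unfold fth
    by_cases hs : s ≤ θ₁
    · rw [max_eq_right (by linarith : s - θ₁ ≤ 0)]; ring
    · push Not at hs
      rw [max_eq_left (by linarith : θ₁ - θ₂ ≤ s - θ₂), max_eq_left (by linarith : (0 : ℝ) ≤ s - θ₂)]
      have : s - θ₂ ≠ 0 := by
        have : 0 < s - θ₂ := by linarith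
        exact this.ne'
      field_simp
  exact h2

/-- Cauchy–Schwarz for a positive operator -/
theorem pos_cs (A : X →L[ℂ] X) (hA : A.IsPositive) (x y : X) :
    ‖inner ℂ x (A y)‖ ^ 2 ≤ (inner ℂ x (A x)).re * (inner ℂ y (A y)).re := by
  have h0 : (0 : X →L[ℂ] X) ≤ A := by
    rw [ContinuousLinearMap.nonneg_iff_isPositive]
    exact hA
  obtain ⟨S, hSs, hSS⟩ : ∃ S : X →L[ℂ] X, (∀ x y, inner ℂ (S x) y = inner ℂ x (S y)) ∧
      ∀ w, S (S w) = A w := by
    refine ⟨CFC.sqrt A, ?_, ?_⟩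
    · have h1 : (0 : X →L[ℂ] X) ≤ CFC.sqrt A := CFC.sqrt_nonneg A
      rw [ContinuousLinearMap.nonneg_iff_isPositive] at h1
      intro x y
      exact h1.isSymmetric x y
    · intro w
      have h1 := CFC.sqrt_mul_sqrt_self A h0
      calc CFC.sqrt A (CFC.sqrt A w) = (CFC.sqrt A * CFC.sqrt A) w := rfl
        _ = A w := by rw [h1]
  have e4 : ∀ x y, inner ℂ x (A y) = inner ℂ (S x) (S y) := by
    intro x y
    rw [hSs, hSS]
  have e6 : ∀ x, (inner ℂ x (A x)).re = ‖S x‖ ^ 2 := by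
    intro x
    rw [e4, inner_self_eq_norm_sq_to_K]
    norm_cast
  rw [e6, e6, e4, ← mul_pow]
  exact pow_le_pow_left₀ (norm_nonneg _) (norm_inner_le_norm _ _) 2

/-- eigenvectors on an invariant finite-dimensional subspace -/
theorem diag {T : X →L[ℂ] X} (hT : T.IsPositive) (R : Submodule ℂ X) [FiniteDimensional ℂ R]
    (hR : ∀ x ∈ R, T x ∈ R) :
    ∃ (u : Fin (Module.finrank ℂ R) → X) (t : Fin (Module.finrank ℂ R) → ℝ), Orthonormal ℂ u ∧
      (∀ n, u n ∈ R) ∧ (∀ n, T (u n) = (t n : ℂ) • u n) ∧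
      ∀ w, (∀ n, inner ℂ (u n) w = 0) → ∀ x ∈ R, inner ℂ x w = 0 := by
  have hsym : LinearMap.IsSymmetric (T : X →ₗ[ℂ] X) := hT.isSymmetric
  let T' : R →ₗ[ℂ] R := (T : X →ₗ[ℂ] X).restrict hR
  have hT' : T'.IsSymmetric := hsym.restrict_invariant hR
  let b := hT'.eigenvectorBasis (rfl : Module.finrank ℂ R = Module.finrank ℂ R)
  refine ⟨fun n => (b n : X), fun n => hT'.eigenvalues rfl n, ?_, fun n => (b n).2, ?_, ?_⟩
  · have h1 := b.orthonormal
    exact h1.comp_linearIsometry R.subtypeₗᵢ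
  · intro n
    have h1 := hT'.apply_eigenvectorBasis rfl n
    have h2 := congrArg (Subtype.val) h1
    exact h2
  · intro w hw x hx
    have h1 : (⟨x, hx⟩ : R) = ∑ i, inner ℂ (b i) (⟨x, hx⟩ : R) • b i := (b.sum_repr' _).symm
    have h2 : x = ∑ i, inner ℂ (b i) (⟨x, hx⟩ : R) • (b i : X) := by
      have h3 := congrArg (R.subtype) h1
      rw [map_sum] at h3
      simpa using! h3
    rw [h2, sum_inner]
    refine Finset.sum_eq_zero fun i _ => ?_
    rw [inner_smul_left, hw i, mul_zero]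

theorem fin_of_bound (R : Submodule ℂ X) (M : ℕ)
    (h : ∀ (n : ℕ) (w : Fin n → X), Orthonormal ℂ w → (∀ j, w j ∈ R) → n ≤ M) :
    FiniteDimensional ℂ R ∧ Module.finrank ℂ R ≤ M := by
  have key : ∀ F : Submodule ℂ X, F ≤ R → ∀ [FiniteDimensional ℂ F], Module.finrank ℂ F ≤ M := by
    intro F hF _
    refine h (Module.finrank ℂ F) (fun j => (stdOrthonormalBasis ℂ F j : X)) ?_ ?_
    · exact (stdOrthonormalBasis ℂ F).orthonormal.comp_linearIsometry F.subtypeₗᵢ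
    · intro j; exact hF (stdOrthonormalBasis ℂ F j).2
  have hfin : FiniteDimensional ℂ R := by
    by_contra hcon
    have h1 : Cardinal.aleph0 ≤ Module.rank ℂ R := by
      by_contra h2
      push Not at h2
      exact hcon (Module.rank_lt_aleph0_iff.1 h2)
    have h2 : ((M + 1 : ℕ) : Cardinal) ≤ Module.rank ℂ R := (Cardinal.natCast_le_aleph0).trans h1
    obtain ⟨s, hs, hsl⟩ := exists_finset_linearIndependent_of_le_rank h2
    let F : Submodule ℂ X := (Submodule.span ℂ (s : Set R)).map R.subtype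
    have hFR : F ≤ R := by
      rintro x ⟨y, _, rfl⟩
      exact y.2
    haveI : FiniteDimensional ℂ (Submodule.span ℂ (s : Set R)) :=
      FiniteDimensional.span_finset ℂ s
    haveI : FiniteDimensional ℂ F := by
      unfold F
      infer_instance
    have h3 := key F hFR
    have h4 : Module.finrank ℂ F = M + 1 := by
      have h5 : Module.finrank ℂ F = Module.finrank ℂ (Submodule.span ℂ (s : Set R)) :=
        (Submodule.equivMapOfInjective R.subtype R.subtype_injective _).finrank_eq.symm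
      rw [h5, finrank_span_finset_eq_card hsl, hs]
    omega
  exact ⟨hfin, key R le_rfl⟩

/-- the cluster below a spectral gap -/
theorem cluster {T : X →L[ℂ] X} (hT : T.IsPositive) (M : ℕ) (μ₁ g μm : ℝ) (hμ₁ : 0 < μ₁)
    (hg : 0 < g) (hm : μ₁ + (M + 1) * g ≤ μm)
    (hdim : ∀ (n : ℕ) (w : Fin n → X), Orthonormal ℂ w →
      (∀ j, ∃ y, T y = w j ∧ (inner ℂ y (w j)).re ≤ μm) → n ≤ M) :
    ∃ (N : ℕ) (u : Fin N → X) (μ : Fin N → ℝ) (μ' : ℝ), N ≤ M ∧ Orthonormal ℂ u ∧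
      (∀ n, 0 < μ n) ∧ (∀ n, T (u n) = ((μ n : ℂ))⁻¹ • u n) ∧ (∀ n, μ n + g ≤ μ') ∧
      μ₁ + g ≤ μ' ∧ μ' ≤ μm ∧
      ∀ w, (∀ n, inner ℂ (u n) w = 0) → (inner ℂ (T w) w).re ≤ μ'⁻¹ * ‖w‖ ^ 2 := by
  let m : ℕ → ℝ := fun k => μ₁ + k * g
  have hmpos : ∀ k, 0 < m k := fun k => by
    show 0 < μ₁ + k * g
    positivity
  have hmm : ∀ k, m k < m (k + 1) := fun k => by
    show μ₁ + k * g < μ₁ + ((k + 1 : ℕ) : ℝ) * g
    push_cast
    nlinarith
  let R : ℕ → Submodule ℂ X := fun k => Rth T (m k)⁻¹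
  have hRmono : ∀ k, R k ≤ R (k + 1) := fun k =>
    Rth_mono (inv_strictAnti₀ (hmpos k) (hmm k))
  have hRb : ∀ k, k ≤ M + 1 → FiniteDimensional ℂ (R k) ∧ Module.finrank ℂ (R k) ≤ M := by
    intro k hk
    refine fin_of_bound (R k) M fun n w hw hwR => hdim n w hw fun j => ?_
    obtain ⟨y, hy1, hy2⟩ := Rth_pre hT _ (inv_pos.2 (hmpos k)) (w j) (hwR j)
    refine ⟨y, hy1, hy2.trans ?_⟩
    rw [inv_inv, hw.1 j]
    have h1 : m k ≤ μm := by
      refine le_trans ?_ hm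
      show μ₁ + k * g ≤ μ₁ + (M + 1) * g
      have : (k : ℝ) ≤ M + 1 := by exact_mod_cast hk
      nlinarith
    linarith
  have hex : ∃ k ≤ M, R k = R (k + 1) := by
    by_contra hcon
    push Not at hcon
    have hstep : ∀ k ≤ M + 1, k ≤ Module.finrank ℂ (R k) := by
      intro k
      induction k with
      | zero => intro _; exact Nat.zero_le _
      | succ k ih =>
        intro hk
        have h1 := ih (by omega)
        haveI := (hRb (k + 1) hk).1
        have h2 : Module.finrank ℂ (R k) < Module.finrank ℂ (R (k + 1)) :=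
          Submodule.finrank_lt_finrank_of_lt (lt_of_le_of_ne (hRmono k) (hcon k (by omega)))
        omega
    have h1 := hstep (M + 1) le_rfl
    have h2 := (hRb (M + 1) le_rfl).2
    omega
  obtain ⟨k, hk, hkR⟩ := hex
  haveI := (hRb k (by omega)).1
  obtain ⟨u, t, hu, huR, hTu, hspan⟩ := diag hT (R k) (fun x hx => Rth_inv hT _ x hx)
  have ht : ∀ n, 0 < t n ∧ (t n)⁻¹ ≤ m k := by
    intro n
    obtain ⟨y, hy1, hy2⟩ := Rth_pre hT _ (inv_pos.2 (hmpos k)) (u n) (huR n)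
    have h1 : inner ℂ (T y) (u n) = inner ℂ y (T (u n)) := hT.isSymmetric y (u n)
    rw [hy1, hTu, inner_smul_right] at h1
    have h2 : inner ℂ (u n) (u n) = (1 : ℂ) := by
      rw [inner_self_eq_norm_sq_to_K, hu.1 n]
      norm_num
    rw [h2] at h1
    have ht0 : t n ≠ 0 := by
      intro h
      rw [h, Complex.ofReal_zero, zero_mul] at h1
      exact one_ne_zero h1
    have ht1 : 0 ≤ t n := by
      have h3 := hT.2 (u n)
      rw [ContinuousLinearMap.reApplyInnerSelf_apply, hTu, inner_smul_left, h2,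
        Complex.conj_ofReal, mul_one] at h3
      exact h3
    have ht2 : 0 < t n := lt_of_le_of_ne ht1 (Ne.symm ht0)
    refine ⟨ht2, ?_⟩
    have h3 : inner ℂ y (u n) = (((t n)⁻¹ : ℝ) : ℂ) := by
      rw [Complex.ofReal_inv]
      exact eq_inv_of_mul_eq_one_right h1.symm
    rw [h3, Complex.ofReal_re, hu.1 n, inv_inv] at hy2
    linarith
  refine ⟨_, u, fun n => (t n)⁻¹, m (k + 1), (hRb k (by omega)).2, hu, fun n => inv_pos.2 (ht n).1,
    fun n => ?_, fun n => ?_, ?_, ?_, ?_⟩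
  · rw [hTu]
    push_cast
    rw [inv_inv]
  · have h1 := (ht n).2
    show (t n)⁻¹ + g ≤ μ₁ + ((k + 1 : ℕ) : ℝ) * g
    have h2 : m k = μ₁ + k * g := rfl
    push_cast
    linarith
  · show μ₁ + g ≤ μ₁ + ((k + 1 : ℕ) : ℝ) * g
    push_cast
    nlinarith [mul_nonneg (Nat.cast_nonneg k : (0:ℝ) ≤ k) hg.le]
  · refine le_trans ?_ hm
    show μ₁ + ((k + 1 : ℕ) : ℝ) * g ≤ μ₁ + (M + 1) * g
    have : (k : ℝ) ≤ M := by exact_mod_cast hk
    push_cast
    nlinarith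
  · intro w hw
    refine Rth_orth hT (m (k + 1))⁻¹ w fun x hx => ?_
    have hx' : x ∈ R k := by rw [hkR]; exact hx
    exact hspan w hw x hx'

end Pool.Agent.Q177.CW
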