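import Mathlib
import Pool.Agent.Q177.CW.Agmon
import Pool.Agent.Q177.CW.Spec
import Pool.Agent.Helper209.CX.K02
import Pool.Agent.Helper209.CX.K03

namespace Pool.Agent.Q177.CW
open MeasureTheory FourierTransform Pool.Agent.Helper209.CX Filter Topology
open scoped ComplexConjugate ENNReal

variable {d : ℕ}

/-- Fourier multiplier -/
noncomputable def fm (m : Ed d → ℂ) (hm : Measurable m) (K : ℝ) (hK : ∀ x, ‖m x‖ ≤ K) :
    L2d d →L[ℂ] L2d d :=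
  ((Lp.fourierTransformₗᵢ (Ed d) ℂ).symm.toContinuousLinearEquiv : L2d d →L[ℂ] L2d d) ∘L
    (mulOp m hm K hK) ∘L
    ((Lp.fourierTransformₗᵢ (Ed d) ℂ).toContinuousLinearEquiv : L2d d →L[ℂ] L2d d)

theorem fm_F (m : Ed d → ℂ) (hm : Measurable m) (K : ℝ) (hK : ∀ x, ‖m x‖ ≤ K) (u : L2d d) :
    (𝓕 (fm m hm K hK u) : L2d d) = mulOp m hm K hK (𝓕 u : L2d d) :=
  (Lp.fourierTransformₗᵢ (Ed d) ℂ).apply_symm_apply _

theorem fm_ae (m : Ed d → ℂ) (hm : Measurable m) (K : ℝ) (hK : ∀ x, ‖m x‖ ≤ K) (u : L2d d) :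
    (𝓕 (fm m hm K hK u) : L2d d) =ᵐ[volume] fun ξ => m ξ * (𝓕 u : L2d d) ξ := by
  rw [fm_F]
  exact mulOp_ae _ _ _ _ _

noncomputable def jr (ξ : Ed d) : ℝ := (√(1 + (2 * Real.pi * ‖ξ‖) ^ 2))⁻¹

theorem jr_pos (ξ : Ed d) : 0 < jr ξ := by unfold jr; positivity

theorem jr_cont : Continuous (jr : Ed d → ℝ) := by
  unfold jr
  refine Continuous.inv₀ (by fun_prop) fun ξ => ?_
  positivity

theorem jr_sq (ξ : Ed d) : jr ξ ^ 2 * (1 + (2 * Real.pi * ‖ξ‖) ^ 2) = 1 := by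
  unfold jr
  rw [inv_pow, Real.sq_sqrt (by positivity)]
  exact inv_mul_cancel₀ (by positivity)

theorem jr_bd (ξ : Ed d) : ‖(jr ξ : ℂ)‖ ≤ 1 := by
  rw [Complex.norm_real, Real.norm_of_nonneg (jr_pos ξ).le]
  have h1 := jr_sq ξ
  nlinarith [jr_pos ξ, sq_nonneg (jr ξ * (2 * Real.pi * ‖ξ‖))]

theorem k1_bd (ξ : Ed d) : ‖((2 * Real.pi * ‖ξ‖ * jr ξ : ℝ) : ℂ)‖ ≤ 1 := by
  have hpi := Real.pi_pos
  rw [Complex.norm_real, Real.norm_of_nonneg (by have := (jr_pos ξ).le; positivity)]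
  have h1 := jr_sq ξ
  have h2 : (2 * Real.pi * ‖ξ‖ * jr ξ) ^ 2 ≤ 1 := by nlinarith [sq_nonneg (jr ξ)]
  nlinarith [sq_nonneg (2 * Real.pi * ‖ξ‖ * jr ξ - 1)]

noncomputable def J : L2d d →L[ℂ] L2d d :=
  fm (fun ξ => (jr ξ : ℂ)) (Complex.measurable_ofReal.comp jr_cont.measurable) 1 jr_bd

noncomputable def K1 : L2d d →L[ℂ] L2d d :=
  fm (fun ξ => ((2 * Real.pi * ‖ξ‖ * jr ξ : ℝ) : ℂ))
    (Complex.measurable_ofReal.comp ((measurable_norm.const_mul _).mul jr_cont.measurable)) 1 k1_bd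

theorem J_ae (u : L2d d) :
    (𝓕 (J u) : L2d d) =ᵐ[volume] fun ξ => (jr ξ : ℂ) * (𝓕 u : L2d d) ξ := fm_ae _ _ _ _ _

theorem K1_ae (u : L2d d) : (𝓕 (K1 u) : L2d d) =ᵐ[volume]
    fun ξ => ((2 * Real.pi * ‖ξ‖ * jr ξ : ℝ) : ℂ) * (𝓕 u : L2d d) ξ := fm_ae _ _ _ _ _

theorem J_H1 (u : L2d d) : InH1 (J u) := by
  unfold InH1
  refine MemLp.of_le_mul (c := 1) (Lp.memLp (𝓕 u : L2d d)) ?_ ?_
  · refine AEStronglyMeasurable.mul ?_ (Lp.aestronglyMeasurable (𝓕 (J u) : L2d d))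
    exact Continuous.aestronglyMeasurable (by fun_prop)
  · filter_upwards [J_ae u] with ξ hξ
    rw [hξ, ← mul_assoc, norm_mul]
    refine mul_le_mul_of_nonneg_right ?_ (norm_nonneg _)
    have h1 := k1_bd ξ
    rw [Complex.norm_real, Real.norm_of_nonneg (by have := (jr_pos ξ).le; positivity)] at h1
    rw [norm_mul, Complex.norm_real, Complex.norm_real, norm_norm,
      Real.norm_of_nonneg (jr_pos ξ).le]
    have h2 : (1 : ℝ) ≤ 2 * Real.pi := by nlinarith [Real.pi_gt_three]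
    have h3 : 0 ≤ ‖ξ‖ * jr ξ := mul_nonneg (norm_nonneg _) (jr_pos ξ).le
    nlinarith

theorem J_surj (u : L2d d) (hu : InH1 u) : ∃ f, J f = u := by
  have hF : MemLp (fun ξ : Ed d => (((jr ξ)⁻¹ : ℝ) : ℂ) * (𝓕 u : L2d d) ξ) 2 volume := by
    have h1 : MemLp (fun ξ : Ed d => ‖(𝓕 u : L2d d) ξ‖ + 2 * Real.pi * ‖(‖ξ‖ : ℂ) * (𝓕 u : L2d d) ξ‖)
        2 volume := (Lp.memLp (𝓕 u : L2d d)).norm.add ((hu.norm).const_mul (2 * Real.pi))
    refine MemLp.of_le_mul (c := 1) h1 ?_ (Eventually.of_forall fun ξ => ?_)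
    · refine AEStronglyMeasurable.mul ?_ (Lp.aestronglyMeasurable (𝓕 u : L2d d))
      exact (Complex.measurable_ofReal.comp (jr_cont.measurable.inv)).aestronglyMeasurable
    · have hpi := Real.pi_pos
      rw [norm_mul, norm_mul, Complex.norm_real, Complex.norm_real, norm_norm, one_mul,
        Real.norm_of_nonneg (inv_nonneg.2 (jr_pos ξ).le), Real.norm_of_nonneg (by positivity)]
      have h2 : (jr ξ)⁻¹ ≤ 1 + 2 * Real.pi * ‖ξ‖ := by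
        unfold jr
        rw [inv_inv]
        refine Real.sqrt_le_iff.2 ⟨by positivity, ?_⟩
        nlinarith [mul_nonneg (mul_nonneg (zero_le_two (α := ℝ)) Real.pi_pos.le) (norm_nonneg ξ)]
      calc (jr ξ)⁻¹ * ‖(𝓕 u : L2d d) ξ‖ ≤ (1 + 2 * Real.pi * ‖ξ‖) * ‖(𝓕 u : L2d d) ξ‖ :=
            mul_le_mul_of_nonneg_right h2 (norm_nonneg _)
        _ = _ := by ring
  refine ⟨(Lp.fourierTransformₗᵢ (Ed d) ℂ).symm (hF.toLp _), ?_⟩
  apply (Lp.fourierTransformₗᵢ (Ed d) ℂ).injective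
  apply Lp.ext
  have h1 := J_ae ((Lp.fourierTransformₗᵢ (Ed d) ℂ).symm (hF.toLp _))
  have h2 : (𝓕 ((Lp.fourierTransformₗᵢ (Ed d) ℂ).symm (hF.toLp _)) : L2d d) = hF.toLp _ :=
    (Lp.fourierTransformₗᵢ (Ed d) ℂ).apply_symm_apply _
  rw [h2] at h1
  refine (h1.trans ?_)
  filter_upwards [hF.coeFn_toLp] with ξ hξ
  rw [hξ, ← mul_assoc, ← Complex.ofReal_mul, mul_inv_cancel₀ (jr_pos ξ).ne', Complex.ofReal_one,
    one_mul]
  rfl

theorem inner_F (f g : L2d d) : inner ℂ f g = ∫ ξ, (𝓕 g : L2d d) ξ * conj ((𝓕 f : L2d d) ξ) := by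
  rw [← Lp.inner_fourier_eq, inner_eq]

theorem J_sym (f g : L2d d) : inner ℂ (J f) g = inner ℂ f (J g) := by
  rw [inner_F, inner_F]
  refine integral_congr_ae ?_
  filter_upwards [J_ae f, J_ae g] with ξ a b
  rw [a, b, map_mul, Complex.conj_ofReal]
  ring

theorem dir_J (g h : L2d d) : dirichlet (J g) (J h) = inner ℂ (K1 h) (K1 g) := by
  rw [inner_F]
  unfold dirichlet
  refine integral_congr_ae ?_
  filter_upwards [J_ae g, J_ae h, K1_ae g, K1_ae h] with ξ a b c e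
  rw [a, b, c, e, map_mul, map_mul, Complex.conj_ofReal, Complex.conj_ofReal]
  push_cast
  ring

theorem J_norm (f : L2d d) : ‖K1 f‖ ^ 2 + ‖J f‖ ^ 2 = ‖f‖ ^ 2 := by
  have h0 : ∀ g : L2d d, ‖g‖ ^ 2 = ∫ ξ, ‖(𝓕 g : L2d d) ξ‖ ^ 2 := fun g => by
    rw [← norm_sq_eq, Lp.norm_fourier_eq]
  rw [h0, h0, h0, ← integral_add (int_sq _) (int_sq _)]
  refine integral_congr_ae ?_
  filter_upwards [J_ae f, K1_ae f] with ξ a b
  rw [a, b, norm_mul, norm_mul, Complex.norm_real, Complex.norm_real, Real.norm_eq_abs,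
    Real.norm_eq_abs, mul_pow, mul_pow, sq_abs, sq_abs]
  have h1 := jr_sq ξ
  calc (2 * Real.pi * ‖ξ‖ * jr ξ) ^ 2 * ‖(𝓕 f : L2d d) ξ‖ ^ 2 + jr ξ ^ 2 * ‖(𝓕 f : L2d d) ξ‖ ^ 2
      = (jr ξ ^ 2 * (1 + (2 * Real.pi * ‖ξ‖) ^ 2)) * ‖(𝓕 f : L2d d) ξ‖ ^ 2 := by ring
    _ = _ := by rw [h1, one_mul]

/-- indicator of the complement of the unit ball -/
noncomputable def cc (x : Ed d) : ℝ := if 1 ≤ ‖x‖ then 1 else 0

theorem cc_meas : Measurable (cc : Ed d → ℝ) :=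
  Measurable.ite (measurableSet_le measurable_const measurable_norm) measurable_const
    measurable_const

theorem cc_bd (x : Ed d) : |cc x| ≤ 1 := by unfold cc; split_ifs <;> norm_num

noncomputable def CC : L2d d →L[ℂ] L2d d := mr cc cc_meas 1 cc_bd

theorem CC_ae (u : L2d d) : CC u =ᵐ[volume] fun x => (cc x : ℂ) * u x := mr_ae _ _ _ _ _

theorem CC_sym (f g : L2d d) : inner ℂ (CC f) g = inner ℂ f (CC g) := by
  rw [inner_eq, inner_eq]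
  refine integral_congr_ae ?_
  filter_upwards [CC_ae f, CC_ae g] with x a b
  rw [a, b, map_mul, Complex.conj_ofReal]
  ring

theorem CC_self (u : L2d d) : inner ℂ (CC u) u = ((‖CC u‖ ^ 2 : ℝ) : ℂ) := by
  have h : inner ℂ (CC u) (CC u) = ((‖CC u‖ ^ 2 : ℝ) : ℂ) := by
    rw [inner_self_eq_norm_sq_to_K]; push_cast; rfl
  rw [← h, inner_eq, inner_eq]
  refine integral_congr_ae ?_
  filter_upwards [CC_ae u] with x a
  rw [a, map_mul, Complex.conj_ofReal]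
  have : (cc x : ℂ) * (cc x : ℂ) = (cc x : ℂ) := by unfold cc; split_ifs <;> norm_num
  calc u x * ((cc x : ℂ) * conj (u x)) = (cc x : ℂ) * (u x * conj (u x)) := by ring
    _ = ((cc x : ℂ) * (cc x : ℂ)) * (u x * conj (u x)) := by rw [this]
    _ = _ := by ring

theorem CC_norm_sq (u : L2d d) : ‖CC u‖ ^ 2 = ∫ x, (if 1 ≤ ‖x‖ then ‖u x‖ ^ 2 else 0) := by
  rw [norm_sq_eq]
  refine integral_congr_ae ?_
  filter_upwards [CC_ae u] with x a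
  rw [a, norm_mul, Complex.norm_real]
  unfold cc
  split_ifs <;> simp

/-- data of the potential: form boundedness -/
def FB (W : Ed d → ℝ) : Prop := Measurable W ∧ (∀ x, 0 ≤ W x) ∧
  ∃ C : ℝ, 0 < C ∧ ∀ φ : L2d d, InH1 φ → Integrable (fun x => W x * ‖φ x‖ ^ 2) volume ∧
    ∫ x, W x * ‖φ x‖ ^ 2 ≤ C * ∫ ξ : Ed d, (1 + ‖ξ‖ ^ 2) * ‖(𝓕 φ : L2d d) ξ‖ ^ 2

theorem J_energy (f : L2d d) :
    ∫ ξ : Ed d, (1 + ‖ξ‖ ^ 2) * ‖(𝓕 (J f) : L2d d) ξ‖ ^ 2 ≤ ‖f‖ ^ 2 := by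
  have h0 : ∀ g : L2d d, ‖g‖ ^ 2 = ∫ ξ, ‖(𝓕 g : L2d d) ξ‖ ^ 2 := fun g => by
    rw [← norm_sq_eq, Lp.norm_fourier_eq]
  rw [h0]
  refine integral_mono_of_nonneg (Eventually.of_forall fun ξ => by positivity) (int_sq _) ?_
  filter_upwards [J_ae f] with ξ a
  rw [a, norm_mul, Complex.norm_real, Real.norm_eq_abs, mul_pow, sq_abs]
  have h1 := jr_sq ξ
  have h2 : (1 : ℝ) ≤ (2 * Real.pi) ^ 2 := by nlinarith [Real.pi_gt_three]
  have h3 : 1 + ‖ξ‖ ^ 2 ≤ 1 + (2 * Real.pi * ‖ξ‖) ^ 2 := by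
    rw [mul_pow]
    nlinarith [sq_nonneg ‖ξ‖]
  calc (1 + ‖ξ‖ ^ 2) * (jr ξ ^ 2 * ‖(𝓕 f : L2d d) ξ‖ ^ 2)
      ≤ (1 + (2 * Real.pi * ‖ξ‖) ^ 2) * (jr ξ ^ 2 * ‖(𝓕 f : L2d d) ξ‖ ^ 2) :=
        mul_le_mul_of_nonneg_right h3 (by positivity)
    _ = (jr ξ ^ 2 * (1 + (2 * Real.pi * ‖ξ‖) ^ 2)) * ‖(𝓕 f : L2d d) ξ‖ ^ 2 := by ring
    _ = _ := by rw [h1, one_mul]

theorem sqW_mem (W : Ed d → ℝ) (hW : FB W) (φ : L2d d) (hφ : InH1 φ) :
    MemLp (fun x => ((√(W x) : ℝ) : ℂ) * φ x) 2 volume := by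
  obtain ⟨hm, h0, C, -, hC⟩ := hW
  have hms : AEStronglyMeasurable (fun x => ((√(W x) : ℝ) : ℂ) * φ x) volume :=
    (Complex.measurable_ofReal.comp hm.sqrt).aestronglyMeasurable.mul (Lp.memLp φ).1
  rw [memLp_two_iff_integrable_sq_norm hms]
  refine (hC φ hφ).1.congr (Eventually.of_forall fun x => ?_)
  simp only
  rw [norm_mul, Complex.norm_real, Real.norm_of_nonneg (Real.sqrt_nonneg _), mul_pow,
    Real.sq_sqrt (h0 x)]

theorem exists_K2 (W : Ed d → ℝ) (hW : FB W) : ∃ K2 : L2d d →L[ℂ] L2d d, ∀ f,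
    K2 f =ᵐ[volume] fun x => ((√(W x) : ℝ) : ℂ) * (J f) x := by
  obtain ⟨hm, h0, C, hC0, hC⟩ := id hW
  have hb : ∀ u : L2d d, ‖(sqW_mem W hW (J u) (J_H1 u)).toLp _‖ ≤ √C * ‖u‖ := by
    intro u
    refine le_of_sq_le_sq ?_ (by positivity)
    rw [mul_pow, Real.sq_sqrt hC0.le, norm_sq_eq]
    have e1 : ∫ x, ‖(sqW_mem W hW (J u) (J_H1 u)).toLp _ x‖ ^ 2 = ∫ x, W x * ‖(J u) x‖ ^ 2 := by
      refine integral_congr_ae ?_
      filter_upwards [(sqW_mem W hW (J u) (J_H1 u)).coeFn_toLp] with x hx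
      rw [hx, norm_mul, Complex.norm_real, Real.norm_of_nonneg (Real.sqrt_nonneg _), mul_pow,
        Real.sq_sqrt (h0 x)]
    refine (le_of_eq e1).trans (((hC (J u) (J_H1 u)).2).trans ?_)
    exact mul_le_mul_of_nonneg_left (J_energy u) hC0.le
  exact ⟨mkOp (fun x => ((√(W x) : ℝ) : ℂ)) J (√C) (fun u => sqW_mem W hW (J u) (J_H1 u)) hb,
    fun f => mkOp_ae _ _ _ _ _ f⟩

theorem W_pair (W : Ed d → ℝ) (hW : FB W) (u φ : L2d d) (hu : InH1 u) (hφ : InH1 φ) :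
    Integrable (fun x => (W x : ℂ) * u x * conj (φ x)) volume := by
  have h1 := sqW_mem W hW u hu
  have h2 := (sqW_mem W hW φ hφ).star
  refine (h1.integrable_mul h2).congr (Eventually.of_forall fun x => ?_)
  show ((√(W x) : ℝ) : ℂ) * u x * conj (((√(W x) : ℝ) : ℂ) * φ x) = _
  rw [map_mul, Complex.conj_ofReal]
  have : ((√(W x) : ℝ) : ℂ) * ((√(W x) : ℝ) : ℂ) = (W x : ℂ) := by
    rw [← Complex.ofReal_mul, Real.mul_self_sqrt (hW.2.1 x)]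
  calc ((√(W x) : ℝ) : ℂ) * u x * (((√(W x) : ℝ) : ℂ) * conj (φ x))
      = (((√(W x) : ℝ) : ℂ) * ((√(W x) : ℝ) : ℂ)) * u x * conj (φ x) := by ring
    _ = _ := by rw [this]

/-- the form `a₁(u,φ)` -/
noncomputable def a1 (hh κ : ℝ) (W : Ed d → ℝ) (u φ : L2d d) : ℂ :=
  ((hh ^ 2 : ℝ) : ℂ) * dirichlet u φ + (∫ x, (W x : ℂ) * u x * conj (φ x)) +
    (κ : ℂ) * inner ℂ φ (CC u) + inner ℂ φ u

/-- the quadratic form -/
noncomputable def q1 (hh κ : ℝ) (W : Ed d → ℝ) (u : L2d d) : ℝ :=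
  hh ^ 2 * en u + (∫ x, W x * ‖u x‖ ^ 2) + κ * ‖CC u‖ ^ 2 + ‖u‖ ^ 2

theorem a1_self (hh κ : ℝ) (W : Ed d → ℝ) (u : L2d d) : a1 hh κ W u u = (q1 hh κ W u : ℂ) := by
  unfold a1 q1
  rw [dirichlet_self]
  have e1 : ∫ x, (W x : ℂ) * u x * conj (u x) = ((∫ x, W x * ‖u x‖ ^ 2 : ℝ) : ℂ) := by
    rw [← integral_complex_ofReal]
    refine integral_congr_ae (Eventually.of_forall fun x => ?_)
    simp only
    rw [mul_assoc, Complex.mul_conj, Complex.normSq_eq_norm_sq]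
    push_cast
    ring
  have e2 : inner ℂ u (CC u) = ((‖CC u‖ ^ 2 : ℝ) : ℂ) := by rw [← CC_sym, CC_self]
  have e3 : inner ℂ u u = ((‖u‖ ^ 2 : ℝ) : ℂ) := by
    rw [inner_self_eq_norm_sq_to_K]; push_cast; rfl
  rw [e1, e2, e3]
  push_cast
  ring

/-- the inverse of the selfadjoint operator with barrier -/
theorem exists_T (W : Ed d → ℝ) (hW : FB W) (hh κ : ℝ) (hh0 : 0 < hh) (hκ : 0 ≤ κ) :
    ∃ T : L2d d →L[ℂ] L2d d, T.IsPositive ∧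
      (∀ f, InH1 (T f) ∧ ∀ φ, InH1 φ → a1 hh κ W (T f) φ = inner ℂ φ f) ∧
      (∀ u, InH1 u → (‖u‖ ^ 2) ^ 2 ≤ (inner ℂ (T u) u).re * q1 hh κ W u) := by
  obtain ⟨K2, hK2⟩ := exists_K2 W hW
  let A0 : L2d d →L[ℂ] L2d d := ((hh ^ 2 : ℝ) : ℂ) • (K1.adjoint ∘L K1) + K2.adjoint ∘L K2 +
    (κ : ℂ) • (J ∘L CC ∘L J) + J ∘L J
  have hA0 : ∀ g h, inner ℂ h (A0 g) = ((hh ^ 2 : ℝ) : ℂ) * inner ℂ (K1 h) (K1 g) +
      inner ℂ (K2 h) (K2 g) + (κ : ℂ) * inner ℂ (J h) (CC (J g)) + inner ℂ (J h) (J g) := by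
    intro g h
    show inner ℂ h (((hh ^ 2 : ℝ) : ℂ) • (K1.adjoint (K1 g)) + K2.adjoint (K2 g) +
      (κ : ℂ) • J (CC (J g)) + J (J g)) = _
    rw [inner_add_right, inner_add_right, inner_add_right, inner_smul_right, inner_smul_right,
      ContinuousLinearMap.adjoint_inner_right, ContinuousLinearMap.adjoint_inner_right,
      ← J_sym h, ← J_sym h]
  have hK2i : ∀ g h, inner ℂ (K2 h) (K2 g) = ∫ x, (W x : ℂ) * (J g) x * conj ((J h) x) := by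
    intro g h
    rw [inner_eq]
    refine integral_congr_ae ?_
    filter_upwards [hK2 g, hK2 h] with x a b
    rw [a, b, map_mul, Complex.conj_ofReal]
    have : ((√(W x) : ℝ) : ℂ) * ((√(W x) : ℝ) : ℂ) = (W x : ℂ) := by
      rw [← Complex.ofReal_mul, Real.mul_self_sqrt (hW.2.1 x)]
    calc ((√(W x) : ℝ) : ℂ) * (J g) x * (((√(W x) : ℝ) : ℂ) * conj ((J h) x))
        = (((√(W x) : ℝ) : ℂ) * ((√(W x) : ℝ) : ℂ)) * (J g) x * conj ((J h) x) := by ring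
      _ = _ := by rw [this]
  have hform : ∀ g h, inner ℂ h (A0 g) = a1 hh κ W (J g) (J h) := by
    intro g h
    rw [hA0, hK2i]
    unfold a1
    rw [dir_J]
  have hsym : ∀ g h, inner ℂ (A0 h) g = inner ℂ h (A0 g) := by
    intro g h
    rw [← inner_conj_symm, hA0, hA0]
    simp only [map_add, map_mul, Complex.conj_ofReal, inner_conj_symm]
    rw [CC_sym]
  have hlow : ∀ g, min (hh ^ 2) 1 * ‖g‖ ^ 2 ≤ (inner ℂ (A0 g) g).re := by
    intro g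
    rw [hsym, hA0]
    have e1 : ∀ x : L2d d, inner ℂ x x = ((‖x‖ ^ 2 : ℝ) : ℂ) := fun x => by
      rw [inner_self_eq_norm_sq_to_K]; push_cast; rfl
    rw [e1, e1, e1, ← CC_sym, CC_self, ← Complex.ofReal_mul, ← Complex.ofReal_mul,
      ← Complex.ofReal_add, ← Complex.ofReal_add, ← Complex.ofReal_add, Complex.ofReal_re,
      ← J_norm g]
    have h1 : min (hh ^ 2) 1 * ‖K1 g‖ ^ 2 ≤ hh ^ 2 * ‖K1 g‖ ^ 2 :=
      mul_le_mul_of_nonneg_right (min_le_left _ _) (by positivity)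
    have h2 : min (hh ^ 2) 1 * ‖J g‖ ^ 2 ≤ 1 * ‖J g‖ ^ 2 :=
      mul_le_mul_of_nonneg_right (min_le_right _ _) (by positivity)
    have h3 : 0 ≤ κ * ‖CC (J g)‖ ^ 2 := by positivity
    have h4 : 0 ≤ ‖K2 g‖ ^ 2 := by positivity
    linarith
  have hmin : 0 < min (hh ^ 2) 1 := lt_min (by positivity) one_pos
  have hunit : IsUnit A0 := by
    refine ContinuousLinearMap.isUnit_of_forall_le_norm_inner_map A0
      (c := ⟨min (hh ^ 2) 1, hmin.le⟩) hmin ?_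
    intro g
    have h1 := hlow g
    have h2 : (inner ℂ (A0 g) g).re ≤ ‖inner ℂ (A0 g) g‖ := Complex.re_le_norm _
    show ‖g‖ ^ 2 * min (hh ^ 2) 1 ≤ _
    linarith
  obtain ⟨Au, hAu⟩ := hunit
  obtain ⟨B, hB⟩ : ∃ B : L2d d →L[ℂ] L2d d, ∀ y, A0 (B y) = y :=
    ⟨(↑Au⁻¹ : L2d d →L[ℂ] L2d d), fun y => by
      have : (A0 * (↑Au⁻¹ : L2d d →L[ℂ] L2d d)) y = y := by
        rw [← hAu, Units.mul_inv]
        rfl
      exact this⟩
  have hA0p : A0.IsPositive := by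
    refine ⟨fun x y => hsym y x, fun x => ?_⟩
    rw [ContinuousLinearMap.reApplyInnerSelf_apply]
    have := hlow x
    have h2 : 0 ≤ min (hh ^ 2) 1 * ‖x‖ ^ 2 := mul_nonneg hmin.le (by positivity)
    exact h2.trans this
  have hTp : (J ∘L B ∘L J : L2d d →L[ℂ] L2d d).IsPositive := by
    refine ⟨fun x y => ?_, fun x => ?_⟩
    · show inner ℂ (J (B (J x))) y = inner ℂ x (J (B (J y)))
      rw [J_sym, ← J_sym x]
      have h1 : inner ℂ (B (J x)) (J y) = inner ℂ (B (J x)) (A0 (B (J y))) := by rw [hB]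
      have h2 : inner ℂ (J x) (B (J y)) = inner ℂ (A0 (B (J x))) (B (J y)) := by rw [hB]
      rw [h1, h2, hsym]
    · rw [ContinuousLinearMap.reApplyInnerSelf_apply]
      show 0 ≤ RCLike.re (inner ℂ (J (B (J x))) x)
      rw [J_sym]
      have h1 : inner ℂ (B (J x)) (J x) = inner ℂ (A0 (B (J x))) (B (J x)) := by
        rw [hsym, hB]
      rw [h1]
      have h2 := hA0p.2 (B (J x))
      rw [ContinuousLinearMap.reApplyInnerSelf_apply] at h2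
      exact h2
  refine ⟨J ∘L B ∘L J, hTp, fun f => ⟨J_H1 _, fun φ hφ => ?_⟩, fun u hu => ?_⟩
  · obtain ⟨h, rfl⟩ := J_surj φ hφ
    show a1 hh κ W (J (B (J f))) (J h) = inner ℂ (J h) f
    rw [← hform, hB, J_sym]
  · obtain ⟨h, rfl⟩ := J_surj u hu
    obtain ⟨g, hg⟩ : ∃ g, g = B (J (J h)) := ⟨_, rfl⟩
    have hAg : A0 g = J (J h) := by rw [hg, hB]
    have e1 : inner ℂ h (A0 g) = ((‖J h‖ ^ 2 : ℝ) : ℂ) := by
      rw [hAg, ← J_sym, inner_self_eq_norm_sq_to_K]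
      push_cast
      rfl
    have e2 : inner ℂ ((J ∘L B ∘L J : L2d d →L[ℂ] L2d d) (J h)) (J h) = inner ℂ g (A0 g) := by
      show inner ℂ (J (B (J (J h)))) (J h) = _
      rw [← hg, J_sym, hAg]
    have e3 : inner ℂ h (A0 h) = (q1 hh κ W (J h) : ℂ) := by rw [hform, a1_self]
    have e5 := pos_cs A0 hA0p h g
    rw [e1, e3, Complex.norm_real, Real.norm_of_nonneg (by positivity), Complex.ofReal_re] at e5
    rw [e2, mul_comm]
    exact e5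

end Pool.Agent.Q177.CW
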