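import Mathlib
import Pool.Agent.Q177.CW.Op

namespace Pool.Agent.Q177.CW
open MeasureTheory FourierTransform Pool.Agent.Helper209.CX Filter Topology
open scoped ComplexConjugate ENNReal

/-- upper bound for the number of orthonormal functions of bounded energy -/
theorem dim_upper (d : ℕ) (hd : 1 ≤ d) : ∃ C : ℝ, 0 < C ∧ ∀ (hh κ μ : ℝ), 0 < hh → 0 < μ →
    16 * μ ≤ κ → ∀ (W : Ed d → ℝ), (∀ x, 0 ≤ W x) → ∀ (N : ℕ) (w : Fin N → L2d d),
    Orthonormal ℂ w → (∀ j, InH1 (w j)) → (∀ j, q1 hh κ W (w j) ≤ μ) →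
    (N : ℝ) ≤ C * (√μ / hh) ^ d := by
  obtain ⟨p, hp⟩ : ∃ p : ℝ, p = (d : ℝ) + 1 := ⟨_, rfl⟩
  have hd1 : (1 : ℝ) ≤ d := by exact_mod_cast hd
  have hp1 : 1 < p := by rw [hp]; linarith
  have hpd : (d : ℝ) / 2 < p := by rw [hp]; linarith
  have hpi := Real.pi_pos
  let F : Ed d → ℝ := fun ξ => (1 / (1 + ‖ξ‖ ^ 2)) ^ p
  have hF : Integrable F volume := K03.d3f_Gint d p hpd
  have hF0 : 0 < ∫ ξ, F ξ := by
    rw [integral_pos_iff_support_of_nonneg (fun ξ => by positivity) hF]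
    have : Function.support F = Set.univ := by
      ext ξ
      simp only [Function.mem_support, Set.mem_univ, iff_true]
      have : 0 < F ξ := by
        show 0 < (1 / (1 + ‖ξ‖ ^ 2)) ^ p
        positivity
      exact this.ne'
    rw [this]
    exact isOpen_univ.measure_pos volume ⟨0, trivial⟩
  obtain ⟨IF, hIF⟩ : ∃ IF, IF = ∫ ξ, F ξ := ⟨_, rfl⟩
  rw [← hIF] at hF0
  refine ⟨2 ^ (p - 1) * (64 ^ p * IF) * IF, by positivity, ?_⟩
  intro hh κ μ hh0 hμ hκ W hW N w hw hwH hq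
  obtain ⟨s, hs⟩ : ∃ s : ℝ, s = 2 * Real.pi * hh / √μ := ⟨_, rfl⟩
  have hsμ : 0 < √μ := Real.sqrt_pos.2 hμ
  have hs0 : 0 < s := by rw [hs]; positivity
  let Q : Ed d → ℝ := fun x => 64 * (1 / (1 + ‖x‖ ^ 2))
  let G : Ed d → ℝ := fun ξ => 1 / (1 + ‖s • ξ‖ ^ 2)
  have hQm : Measurable Q := by unfold Q; fun_prop
  have hGm : Measurable G := by unfold G; fun_prop
  have hQ0 : ∀ x, 0 < Q x := fun x => by show 0 < 64 * (1 / (1 + ‖x‖ ^ 2)); positivity
  have hG0 : ∀ ξ, 0 < G ξ := fun ξ => by show 0 < 1 / (1 + ‖s • ξ‖ ^ 2); positivity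
  have hQp : ∀ x, Q x ^ p = 64 ^ p * F x := fun x => by
    show (64 * (1 / (1 + ‖x‖ ^ 2))) ^ p = 64 ^ p * (1 / (1 + ‖x‖ ^ 2)) ^ p
    rw [Real.mul_rpow (by norm_num) (by positivity)]
  have hGp : ∀ ξ, G ξ ^ p = F (s • ξ) := fun ξ => rfl
  have hQi : Integrable (fun x => Q x ^ p) volume := by
    simp_rw [hQp]
    exact hF.const_mul _
  have hGi : Integrable (fun ξ => G ξ ^ p) volume := by
    simp_rw [hGp]
    exact hF.comp_smul hs0.ne'
  have hJ := K03.d3f_J d p hp1 Q G hQm hQ0 hQi hGm hG0 hGi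
  -- explicit bound of J
  have hJle : ∫⁻ x, ∫⁻ ξ, (if (1:ℝ) < 2 * (Q x * G ξ) then ENNReal.ofReal (Q x * G ξ) else 0) ≤
      ENNReal.ofReal (2 ^ (p - 1) * (64 ^ p * IF) * IF * (s⁻¹) ^ d) := by
    have h1 : ∀ x ξ, (if (1:ℝ) < 2 * (Q x * G ξ) then ENNReal.ofReal (Q x * G ξ) else 0) ≤
        (ENNReal.ofReal (2 ^ (p - 1)) * ENNReal.ofReal (Q x ^ p)) * ENNReal.ofReal (G ξ ^ p) := by
      intro x ξ
      split_ifs with h
      · rw [← ENNReal.ofReal_mul (by positivity), ← ENNReal.ofReal_mul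
          (mul_nonneg (by positivity) (Real.rpow_nonneg (hQ0 x).le _))]
        refine ENNReal.ofReal_le_ofReal ((K03.d3f_pow p _ hp1 h).trans (le_of_eq ?_))
        rw [Real.mul_rpow (hQ0 x).le (hG0 ξ).le, mul_assoc]
      · exact bot_le
    have hQi2 : ∫⁻ x, ENNReal.ofReal (Q x ^ p) = ENNReal.ofReal (64 ^ p * IF) := by
      rw [← ofReal_integral_eq_lintegral_ofReal hQi
        (Eventually.of_forall fun x => Real.rpow_nonneg (hQ0 x).le _)]
      simp_rw [hQp]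
      rw [integral_const_mul, ← hIF]
    have hGi2 : ∫⁻ ξ, ENNReal.ofReal (G ξ ^ p) = ENNReal.ofReal ((s⁻¹) ^ d * IF) := by
      rw [← ofReal_integral_eq_lintegral_ofReal hGi
        (Eventually.of_forall fun x => Real.rpow_nonneg (hG0 x).le _)]
      simp_rw [hGp]
      rw [Measure.integral_comp_smul, finrank_euclideanSpace_fin, ← hIF, smul_eq_mul,
        abs_of_pos (by positivity), inv_pow]
    calc ∫⁻ x, ∫⁻ ξ, (if (1:ℝ) < 2 * (Q x * G ξ) then ENNReal.ofReal (Q x * G ξ) else 0)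
        ≤ ∫⁻ x, ∫⁻ ξ, (ENNReal.ofReal (2 ^ (p - 1)) * ENNReal.ofReal (Q x ^ p)) *
            ENNReal.ofReal (G ξ ^ p) := lintegral_mono fun x => lintegral_mono fun ξ => h1 x ξ
      _ = ∫⁻ x, (ENNReal.ofReal (2 ^ (p - 1)) * ENNReal.ofReal (Q x ^ p)) *
            ∫⁻ ξ, ENNReal.ofReal (G ξ ^ p) := by
          refine lintegral_congr fun x => ?_
          exact lintegral_const_mul _ (by fun_prop)
      _ = (∫⁻ x, (ENNReal.ofReal (2 ^ (p - 1)) * ENNReal.ofReal (Q x ^ p))) *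
            ∫⁻ ξ, ENNReal.ofReal (G ξ ^ p) := lintegral_mul_const _ (by fun_prop)
      _ = (ENNReal.ofReal (2 ^ (p - 1)) * ∫⁻ x, ENNReal.ofReal (Q x ^ p)) *
            ∫⁻ ξ, ENNReal.ofReal (G ξ ^ p) := by
          rw [lintegral_const_mul _ (by fun_prop)]
      _ = _ := by
          rw [hQi2, hGi2, ← ENNReal.ofReal_mul (by positivity), ← ENNReal.ofReal_mul (by positivity)]
          congr 1
          ring
  classical
  let B : Set (Ed d) := {x | ‖x‖ < 1}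
  have hBm : MeasurableSet B := measurableSet_lt measurable_norm measurable_const
  let v : Ed d → ℂ := B.indicator fun _ => ((√32 : ℝ) : ℂ)
  have hvm : Measurable v := measurable_const.indicator hBm
  have hvin : ∀ x ∈ B, v x = ((√32 : ℝ) : ℂ) := fun x hx => Set.indicator_of_mem hx _
  have hvout : ∀ x, x ∉ B → v x = 0 := fun x hx => Set.indicator_of_notMem hx _
  have hQB : ∀ x ∈ B, 32 ≤ Q x ∧ Q x ≤ 64 := by
    intro x hx
    have hx1 : ‖x‖ < 1 := hx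
    have h2 : ‖x‖ ^ 2 ≤ 1 := by nlinarith [norm_nonneg x]
    constructor
    · show 32 ≤ 64 * (1 / (1 + ‖x‖ ^ 2))
      rw [mul_one_div, le_div_iff₀ (by positivity)]
      linarith
    · show 64 * (1 / (1 + ‖x‖ ^ 2)) ≤ 64
      rw [mul_one_div, div_le_iff₀ (by positivity)]
      nlinarith [sq_nonneg ‖x‖]
  have hvQ : ∀ x, ‖v x‖ ^ 2 ≤ Q x := by
    intro x
    by_cases hx : x ∈ B
    · rw [hvin x hx, Complex.norm_real, Real.norm_of_nonneg (Real.sqrt_nonneg _),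
        Real.sq_sqrt (by norm_num)]
      exact (hQB x hx).1
    · rw [hvout x hx, norm_zero]
      have := (hQ0 x).le
      simpa using this
  have hvs : ∀ x, v x ≠ 0 → (2 : ℝ) ^ (-((7 : ℕ) : ℤ)) < Q x ∧ Q x ≤ (2 : ℝ) ^ (((7 : ℕ)) : ℤ) := by
    intro x hx
    have hxB : x ∈ B := by
      by_contra hcon
      exact hx (hvout x hcon)
    obtain ⟨h1, h2⟩ := hQB x hxB
    constructor
    · refine lt_of_lt_of_le ?_ h1
      norm_num
    · refine h2.trans ?_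
      norm_num
  have hfin : volume {x | v x ≠ 0} < ⊤ := by
    refine lt_of_le_of_lt (measure_mono (t := Metric.ball (0 : Ed d) 1) ?_) measure_ball_lt_top
    intro x hx
    rw [mem_ball_zero_iff]
    by_contra hcon
    exact hx (hvout x hcon)
  obtain ⟨S, hS0, hS1, hS2⟩ := K02.d2_cw K01.d1_fourier d N w hw Q G hQm hGm hQ0 hG0 v hvm hvQ 7
    hvs hfin 1 one_pos hJ
  have hSj : ∀ j, 1 ≤ S j := by
    intro j
    have hnorm : ‖w j‖ = 1 := hw.1 j
    have hqj := hq j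
    unfold q1 at hqj
    have hWn : 0 ≤ ∫ x, W x * ‖(w j) x‖ ^ 2 := integral_nonneg fun x =>
      mul_nonneg (hW x) (sq_nonneg _)
    have hκ0 : 0 < κ := by linarith
    have hen : hh ^ 2 * en (w j) ≤ μ := by
      have : 0 ≤ κ * ‖CC (w j)‖ ^ 2 := by positivity
      nlinarith [sq_nonneg ‖w j‖]
    have hCC : ‖CC (w j)‖ ^ 2 ≤ 1 / 16 := by
      have h1 : κ * ‖CC (w j)‖ ^ 2 ≤ μ := by
        have : 0 ≤ hh ^ 2 * en (w j) := mul_nonneg (sq_nonneg _) (en_nonneg _)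
        nlinarith [sq_nonneg ‖w j‖]
      have h2 : 16 * μ * ‖CC (w j)‖ ^ 2 ≤ μ := (mul_le_mul_of_nonneg_right hκ (sq_nonneg _)).trans h1
      have h3 : μ * (16 * ‖CC (w j)‖ ^ 2) ≤ μ * 1 := by linarith
      have := le_of_mul_le_mul_left h3 hμ
      linarith
    have hsq := int_sq (𝓕 (w j) : L2d d)
    have hen_i := en_int (w j) (hwH j)
    have eG : (fun ξ => ‖(𝓕 (w j) : L2d d) ξ‖ ^ 2 / G ξ) = fun ξ =>
        ‖(𝓕 (w j) : L2d d) ξ‖ ^ 2 + (hh ^ 2 / μ) * ((2 * Real.pi * ‖ξ‖) ^ 2 *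
          ‖(𝓕 (w j) : L2d d) ξ‖ ^ 2) := by
      funext ξ
      show ‖(𝓕 (w j) : L2d d) ξ‖ ^ 2 / (1 / (1 + ‖s • ξ‖ ^ 2)) = _
      have h4 : ‖s • ξ‖ ^ 2 = hh ^ 2 / μ * (2 * Real.pi * ‖ξ‖) ^ 2 := by
        rw [norm_smul, Real.norm_of_nonneg hs0.le, hs, mul_pow, div_pow, Real.sq_sqrt hμ.le]
        ring
      rw [h4, div_div_eq_mul_div, div_one]
      ring
    have hiG : Integrable (fun ξ => ‖(𝓕 (w j) : L2d d) ξ‖ ^ 2 / G ξ) volume := by
      rw [eG]
      exact hsq.add (hen_i.const_mul _)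
    have h5 := hS2 j (w j) hiG
    have h6 : ∫ ξ, ‖(𝓕 (w j) : L2d d) ξ‖ ^ 2 / G ξ ≤ 2 := by
      rw [eG, integral_add hsq (hen_i.const_mul _), integral_const_mul, ← norm_sq_eq,
        Lp.norm_fourier_eq, hnorm]
      have h7 : hh ^ 2 / μ * en (w j) ≤ 1 := by
        rw [div_mul_eq_mul_div, div_le_one hμ]
        exact hen
      unfold en at h7
      linarith
    -- the left side
    have h8 : ∫ x, v x * (w j) x * conj ((w j) x) =
        (((√32) * (1 - ‖CC (w j)‖ ^ 2) : ℝ) : ℂ) := by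
      have e1 : (fun x => v x * (w j) x * conj ((w j) x)) =
          fun x => (((√32) * (‖(w j) x‖ ^ 2 - (if 1 ≤ ‖x‖ then ‖(w j) x‖ ^ 2 else 0)) : ℝ) : ℂ) := by
        funext x
        rw [mul_assoc, Complex.mul_conj, Complex.normSq_eq_norm_sq]
        by_cases hx : x ∈ B
        · have hx1 : ¬ (1 ≤ ‖x‖) := not_le.2 hx
          rw [hvin x hx, if_neg hx1]
          push_cast
          ring
        · have hx1 : 1 ≤ ‖x‖ := not_lt.1 hx
          rw [hvout x hx, if_pos hx1]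
          simp
      have hiu : Integrable (fun x => if 1 ≤ ‖x‖ then ‖(w j) x‖ ^ 2 else 0) volume := by
        have hmeas : MeasurableSet {x : Ed d | 1 ≤ ‖x‖} :=
          measurableSet_le measurable_const measurable_norm
        refine ((int_sq (w j)).indicator hmeas).congr (Eventually.of_forall fun x => ?_)
        simp only [Set.indicator, Set.mem_ofPred_eq]
      rw [e1, integral_complex_ofReal, integral_const_mul, integral_sub (int_sq _) hiu,
        ← norm_sq_eq, ← CC_norm_sq, hnorm, one_pow]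
    rw [h8, Complex.norm_real, Real.norm_eq_abs, sq_abs, mul_pow, Real.sq_sqrt (by norm_num)] at h5
    have h9 : (15 / 16 : ℝ) ^ 2 ≤ (1 - ‖CC (w j)‖ ^ 2) ^ 2 :=
      pow_le_pow_left₀ (by norm_num) (by linarith) 2
    have h10 : (4 * 1 + 2 * S j) * ∫ ξ, ‖(𝓕 (w j) : L2d d) ξ‖ ^ 2 / G ξ ≤ (4 * 1 + 2 * S j) * 2 :=
      mul_le_mul_of_nonneg_left h6 (by have := hS0 j; linarith)
    nlinarith
  have hsum : (N : ℝ) ≤ ∑ j, S j := by
    calc (N : ℝ) = ∑ _j : Fin N, (1 : ℝ) := by simp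
      _ ≤ _ := Finset.sum_le_sum fun j _ => hSj j
  have hfinal := hS1.trans hJle
  rw [ENNReal.ofReal_le_ofReal_iff (by positivity)] at hfinal
  refine (hsum.trans hfinal).trans ?_
  refine mul_le_mul_of_nonneg_left ?_ (by positivity)
  refine pow_le_pow_left₀ (by positivity) ?_ d
  rw [hs, inv_div]
  refine div_le_div_of_nonneg_left hsμ.le hh0 ?_
  nlinarith [Real.pi_gt_three]

end Pool.Agent.Q177.CW
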