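import Mathlib

namespace Pool.Agent.Q177.CW

open Module.End in
theorem count_lower {X : Type*} [AddCommGroup X] [Module ℂ X] (R : Submodule ℂ (X × X)) {N : ℕ}
    (v : Fin N → X) (hv : LinearIndependent ℂ v) (A : Matrix (Fin N) (Fin N) ℂ)
    (hR : ∀ n, (v n, ∑ m, A m n • v m) ∈ R) (G : ℂ → Submodule ℂ X)
    (hG : ∀ E u, (∃ (n : ℕ) (c : ℕ → X), c 0 = u ∧ c n = 0 ∧ ∀ i < n, (c i, c (i + 1) + E • c i) ∈ R) →
      u ∈ G E)
    (hfin : ∀ E, Module.End.HasEigenvalue (Matrix.toLin' A) E → Module.Finite ℂ (G E)) :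
    ∃ S : Finset ℂ, (∀ E ∈ S, Module.End.HasEigenvalue (Matrix.toLin' A) E) ∧
      N ≤ ∑ E ∈ S, Module.finrank ℂ (G E) := by
  classical
  obtain ⟨f, hf⟩ : ∃ f : Module.End ℂ (Fin N → ℂ), f = Matrix.toLin' A := ⟨_, rfl⟩
  rw [← hf] at hfin ⊢
  let S : Finset ℂ := f.finite_hasEigenvalue.toFinset
  have hS : ∀ E, E ∈ S ↔ f.HasEigenvalue E := fun E => by simp [S]
  refine ⟨S, fun E hE => (hS E).1 hE, ?_⟩
  let φ : (Fin N → ℂ) →ₗ[ℂ] X := Fintype.linearCombination ℂ v
  have hφ : ∀ a, φ a = ∑ n, a n • v n := fun a => rfl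
  have hφi : Function.Injective φ := by
    rw [← LinearMap.ker_eq_bot, LinearMap.ker_eq_bot']
    intro a ha
    have := Fintype.linearIndependent_iff.1 hv a ha
    funext i
    exact this i
  have hφR : ∀ a, (φ a, φ (f a)) ∈ R := by
    intro a
    have h1 : (φ a, φ (f a)) = ∑ n, a n • (v n, ∑ m, A m n • v m) := by
      rw [Prod.ext_iff]
      constructor
      · rw [Prod.fst_sum]
        exact hφ a
      · rw [Prod.snd_sum]
        show φ (f a) = ∑ n, a n • ∑ m, A m n • v m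
        rw [hφ, hf]
        simp_rw [Matrix.toLin'_apply, Matrix.mulVec, dotProduct, Finset.sum_smul, Finset.smul_sum]
        rw [Finset.sum_comm]
        refine Finset.sum_congr rfl fun n _ => Finset.sum_congr rfl fun m _ => ?_
        rw [smul_smul, mul_comm]
    rw [h1]
    exact Submodule.sum_mem _ fun n _ => R.smul_mem _ (hR n)
  have hmap : ∀ E, (f.maxGenEigenspace E).map φ ≤ G E := by
    rintro E _ ⟨a, ha, rfl⟩
    obtain ⟨k, hk⟩ := (mem_maxGenEigenspace f E a).1 ha
    refine hG E _ ⟨k, fun i => φ (((f - E • (1 : Module.End ℂ (Fin N → ℂ))) ^ i) a), ?_, ?_, ?_⟩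
    · simp
    · show φ (((f - E • (1 : Module.End ℂ (Fin N → ℂ))) ^ k) a) = 0
      rw [hk, map_zero]
    · intro i _
      obtain ⟨b, hb⟩ : ∃ b, b = ((f - E • (1 : Module.End ℂ (Fin N → ℂ))) ^ i) a := ⟨_, rfl⟩
      have h2 : ((f - E • (1 : Module.End ℂ (Fin N → ℂ))) ^ (i + 1)) a = f b - E • b := by
        rw [pow_succ', Module.End.mul_apply, ← hb]
        rfl
      show (φ (((f - E • (1 : Module.End ℂ (Fin N → ℂ))) ^ i) a),
        φ (((f - E • (1 : Module.End ℂ (Fin N → ℂ))) ^ (i + 1)) a) +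
          E • φ (((f - E • (1 : Module.End ℂ (Fin N → ℂ))) ^ i) a)) ∈ R
      rw [h2, ← hb, map_sub, map_smul, sub_add_cancel]
      exact hφR b
  have hle : ∀ E, f.HasEigenvalue E →
      Module.finrank ℂ (f.maxGenEigenspace E) ≤ Module.finrank ℂ (G E) := by
    intro E hE
    have h1 := hfin E hE
    have h2 : Module.finrank ℂ (f.maxGenEigenspace E) =
        Module.finrank ℂ ((f.maxGenEigenspace E).map φ) :=
      (Submodule.equivMapOfInjective φ hφi _).finrank_eq
    rw [h2]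
    exact Submodule.finrank_mono (hmap E)
  have hsup : ∀ s : Finset ℂ, Module.finrank ℂ (⨆ E ∈ s, f.maxGenEigenspace E : Submodule ℂ _) ≤
      ∑ E ∈ s, Module.finrank ℂ (f.maxGenEigenspace E) := by
    intro s
    induction s using Finset.induction_on with
    | empty => simp
    | insert E s hE ih =>
      rw [Finset.iSup_insert, Finset.sum_insert hE]
      exact (Submodule.finrank_add_le_finrank_add_finrank _ _).trans (Nat.add_le_add_left ih _)
  have htop : (⨆ E ∈ S, f.maxGenEigenspace E : Submodule ℂ _) = ⊤ := by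
    rw [eq_top_iff, ← iSup_maxGenEigenspace_eq_top f]
    refine iSup_le fun E => ?_
    by_cases hE : f.HasEigenvalue E
    · exact le_iSup₂_of_le E ((hS E).2 hE) le_rfl
    · have h1 : f.maxGenEigenspace E = ⊥ := by
        by_contra hcon
        have h2 : f.HasUnifEigenvalue E ⊤ := hcon
        exact hE (h2.lt zero_lt_one)
      rw [h1]
      exact bot_le
  have h1 := hsup S
  rw [htop, finrank_top, Module.finrank_fin_fun] at h1
  exact h1.trans (Finset.sum_le_sum fun E hE => hle E ((hS E).1 hE))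

/-- eigenvalues of a matrix close to a diagonal one -/
theorem near_diag {N : ℕ} (A : Matrix (Fin N) (Fin N) ℂ) (a : Fin N → ℂ) (η : ℝ)
    (hA : ∀ m n, ‖A m n - if m = n then a n else 0‖ ≤ η) (E : ℂ)
    (hE : Module.End.HasEigenvalue (Matrix.toLin' A) E) : ∃ n, ‖E - a n‖ ≤ N * η := by
  obtain ⟨k, hk⟩ := eigenvalue_mem_ball hE
  refine ⟨k, ?_⟩
  rw [Metric.mem_closedBall, dist_eq_norm] at hk
  have h1 : ‖A k k - a k‖ ≤ η := by simpa using hA k k
  have h2 : ∑ j ∈ Finset.univ.erase k, ‖A k j‖ ≤ ∑ j ∈ (Finset.univ.erase k), η := by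
    refine Finset.sum_le_sum fun j hj => ?_
    have hj' : k ≠ j := (Finset.ne_of_mem_erase hj).symm
    simpa [hj'] using hA k j
  rw [Finset.sum_const, Finset.card_erase_of_mem (Finset.mem_univ _), Finset.card_univ,
    Fintype.card_fin, nsmul_eq_mul] at h2
  have hN : 1 ≤ N := by
    have := k.pos
    omega
  rw [Nat.cast_sub hN, Nat.cast_one] at h2
  calc ‖E - a k‖ = ‖(E - A k k) + (A k k - a k)‖ := by congr 1; ring
    _ ≤ ‖E - A k k‖ + ‖A k k - a k‖ := norm_add_le _ _
    _ ≤ N * η := by linarith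

end Pool.Agent.Q177.CW
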