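import Mathlib
import Pool.Agent.Q177.CW.Op

namespace Pool.Agent.Q177.CW
open MeasureTheory FourierTransform Pool.Agent.Helper209.CX Filter Topology
open scoped ComplexConjugate ENNReal

variable {d : ℕ}

/-- the barrier `-log(1-|x|)` -/
noncomputable def Wp (x : Ed d) : ℝ := if ‖x‖ < 1 then -Real.log (1 - ‖x‖) else 0

theorem Wp_meas : Measurable (Wp : Ed d → ℝ) := by
  unfold Wp
  refine Measurable.ite (measurableSet_lt measurable_norm measurable_const) ?_ measurable_const
  exact (Real.measurable_log.comp (measurable_const.sub measurable_norm)).neg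

theorem Wp_nonneg (x : Ed d) : 0 ≤ Wp x := by
  unfold Wp
  split_ifs with h
  · have := Real.log_nonpos (by linarith : 0 ≤ 1 - ‖x‖) (by linarith [norm_nonneg x])
    linarith
  · exact le_rfl

theorem Wp_half (x : Ed d) (hx : ‖x‖ ≤ 1 / 2) : Wp x ≤ 1 := by
  unfold Wp
  rw [if_pos (by linarith)]
  have h1 : Real.log (1 / 2) ≤ Real.log (1 - ‖x‖) := Real.log_le_log (by norm_num) (by linarith)
  have h2 : Real.log (1 / 2) = -Real.log 2 := by rw [one_div, Real.log_inv]
  have h3 := Real.log_two_lt_d9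
  linarith

theorem Wp_barrier (L : ℝ) (x : Ed d) (hx : 1 - Real.exp (-L) ≤ ‖x‖) (hx1 : ‖x‖ < 1) :
    L ≤ Wp x := by
  unfold Wp
  rw [if_pos hx1]
  have h1 : Real.log (1 - ‖x‖) ≤ Real.log (Real.exp (-L)) :=
    Real.log_le_log (by linarith) (by linarith)
  rw [Real.log_exp] at h1
  linarith

theorem Wp_int (hd : 1 ≤ d) (p : ℝ) (hp : 0 < p) : Integrable (fun x : Ed d => Wp x ^ p) volume := by
  haveI : Nonempty (Fin d) := ⟨⟨0, hd⟩⟩
  haveI : Nontrivial (Ed d) := by
    refine ⟨⟨0, ek ⟨0, hd⟩, ?_⟩⟩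
    intro h
    have := norm_ek (⟨0, hd⟩ : Fin d)
    rw [← h, norm_zero] at this
    exact zero_ne_one this
  have h1 : IntervalIntegrable (fun x : ℝ => x ^ (-(1 / 2) : ℝ)) volume 0 1 :=
    intervalIntegral.intervalIntegrable_rpow' (by norm_num)
  have h2 := (h1.comp_sub_left 1).symm
  rw [sub_zero, sub_self, intervalIntegrable_iff_integrableOn_Ioc_of_le zero_le_one] at h2
  have h3 : IntegrableOn (fun x : ℝ => (1 - x) ^ (-(1 / 2) : ℝ)) (Set.Ioo 0 1) volume :=
    h2.mono_set Set.Ioo_subset_Ioc_self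
  have h4 : IntegrableOn (fun y : ℝ => y ^ (Module.finrank ℝ (Ed d) - 1) • (-Real.log (1 - y)) ^ p)
      (Set.Ioo 0 1) volume := by
    obtain ⟨a, ha⟩ : ∃ a : ℝ, a = 1 / (2 * p) := ⟨_, rfl⟩
    have ha0 : 0 < a := by rw [ha]; positivity
    refine Integrable.mono' (h3.const_mul ((1 / a) ^ p)) ?_ ?_
    · refine Measurable.aestronglyMeasurable ?_
      exact (measurable_id.pow_const _).smul
        ((Real.measurable_log.comp (measurable_const.sub measurable_id)).neg.pow_const p)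
    · refine (ae_restrict_iff' measurableSet_Ioo).2 (Eventually.of_forall fun y hy => ?_)
      have hy0 : 0 < y := hy.1
      have hy1 : 0 < 1 - y := by linarith [hy.2]
      have hlog : 0 ≤ -Real.log (1 - y) := by
        have := Real.log_nonpos hy1.le (by linarith)
        linarith
      rw [norm_smul, Real.norm_of_nonneg (by positivity), Real.norm_of_nonneg
        (Real.rpow_nonneg hlog p)]
      have e1 : -Real.log (1 - y) ≤ ((1 - y)⁻¹) ^ a / a := by
        rw [← Real.log_inv]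
        exact Real.log_le_rpow_div (inv_nonneg.2 hy1.le) ha0
      have e2 : (-Real.log (1 - y)) ^ p ≤ (((1 - y)⁻¹) ^ a / a) ^ p :=
        Real.rpow_le_rpow hlog e1 hp.le
      have e3 : (((1 - y)⁻¹) ^ a / a) ^ p = (1 / a) ^ p * (1 - y) ^ (-(1 / 2) : ℝ) := by
        rw [div_eq_mul_one_div, Real.mul_rpow (by positivity) (by positivity), ← Real.rpow_mul
          (inv_nonneg.2 hy1.le), mul_comm, Real.inv_rpow hy1.le, ← Real.rpow_neg hy1.le]
        congr 2
        rw [ha]
        field_simp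
      have e4 : y ^ (Module.finrank ℝ (Ed d) - 1) ≤ 1 := pow_le_one₀ hy0.le hy.2.le
      calc y ^ (Module.finrank ℝ (Ed d) - 1) * (-Real.log (1 - y)) ^ p
          ≤ 1 * (-Real.log (1 - y)) ^ p :=
            mul_le_mul_of_nonneg_right e4 (Real.rpow_nonneg hlog p)
        _ ≤ _ := by rw [one_mul, ← e3]; exact e2
  have h5 := (integrableOn_fun_norm_addHaar (μ := (volume : Measure (Ed d)))
    (f := fun y => (-Real.log (1 - y)) ^ p) (r := 1)).2 h4
  have h6 : Integrable ((Metric.ball (0 : Ed d) 1).indicator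
      fun x => (-Real.log (1 - ‖x‖)) ^ p) volume := h5.integrable_indicator measurableSet_ball
  refine h6.congr (Eventually.of_forall fun x => ?_)
  simp only [Set.indicator, mem_ball_zero_iff]
  unfold Wp
  split_ifs with h
  · rfl
  · rw [Real.zero_rpow hp.ne']

theorem Wp_memLp (hd : 1 ≤ d) (p : ℝ) (hp : 0 < p) :
    MemLp (Wp : Ed d → ℝ) (ENNReal.ofReal p) volume := by
  have hp0 : ENNReal.ofReal p ≠ 0 := by
    rw [Ne, ENNReal.ofReal_eq_zero, not_le]; exact hp
  rw [← integrable_norm_rpow_iff Wp_meas.aestronglyMeasurable hp0 ENNReal.ofReal_ne_top,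
    ENNReal.toReal_ofReal hp.le]
  refine (Wp_int hd p hp).congr (Eventually.of_forall fun x => ?_)
  simp only
  rw [Real.norm_of_nonneg (Wp_nonneg x)]

theorem Wp_FB (hd : 1 ≤ d) : FB (Wp : Ed d → ℝ) := by
  refine ⟨Wp_meas, Wp_nonneg, ?_⟩
  have hd1 : (1 : ℝ) ≤ d := by exact_mod_cast hd
  obtain ⟨p, hp⟩ : ∃ p : ℝ, p = (d : ℝ) + 1 := ⟨_, rfl⟩
  have hp1 : 1 < p := by rw [hp]; linarith
  have hpd : (d : ℝ) / 2 < p := by rw [hp]; linarith
  let Q : Ed d → ℝ := fun x => Wp x + 1 / (1 + ‖x‖ ^ 2)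
  have hQm : Measurable Q := by
    have : Measurable (fun x : Ed d => 1 / (1 + ‖x‖ ^ 2)) := by fun_prop
    exact Wp_meas.add this
  have hQ0 : ∀ x, 0 < Q x := fun x => by
    have h1 : 0 < 1 / (1 + ‖x‖ ^ 2) := by positivity
    have h2 := Wp_nonneg x
    show 0 < Wp x + 1 / (1 + ‖x‖ ^ 2)
    linarith
  have hp0 : ENNReal.ofReal p ≠ 0 := by
    rw [Ne, ENNReal.ofReal_eq_zero, not_le]; linarith
  have hpnn : 0 ≤ p := by linarith
  have hQi : Integrable (fun x => Q x ^ p) volume := by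
    have m1 := Wp_memLp hd p (by linarith)
    have m2 : MemLp (fun x : Ed d => 1 / (1 + ‖x‖ ^ 2)) (ENNReal.ofReal p) volume := by
      rw [← integrable_norm_rpow_iff (by
        have : Measurable (fun x : Ed d => 1 / (1 + ‖x‖ ^ 2)) := by fun_prop
        exact this.aestronglyMeasurable) hp0 ENNReal.ofReal_ne_top,
        ENNReal.toReal_ofReal hpnn]
      refine (K03.d3f_Gint d p hpd).congr (Eventually.of_forall fun x => ?_)
      simp only
      rw [Real.norm_of_nonneg (by positivity)]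
    have m3 : MemLp Q (ENNReal.ofReal p) volume := m1.add m2
    rw [← integrable_norm_rpow_iff hQm.aestronglyMeasurable hp0 ENNReal.ofReal_ne_top,
      ENNReal.toReal_ofReal hpnn] at m3
    refine m3.congr (Eventually.of_forall fun x => ?_)
    simp only
    rw [Real.norm_of_nonneg (hQ0 x).le]
  obtain ⟨C, hC, h⟩ := K03.d3_form (K02.d2_cw K01.d1_fourier) d hd p hp1 hpd Q hQm hQ0 hQi
  refine ⟨C, hC, fun φ hφ => ?_⟩
  obtain ⟨h1, h2⟩ := h φ hφ
  have hle : ∀ x, Wp x * ‖φ x‖ ^ 2 ≤ Q x * ‖φ x‖ ^ 2 := fun x => by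
    refine mul_le_mul_of_nonneg_right ?_ (sq_nonneg _)
    have h1 : 0 < 1 / (1 + ‖x‖ ^ 2) := by positivity
    show Wp x ≤ Wp x + 1 / (1 + ‖x‖ ^ 2)
    linarith
  refine ⟨?_, ?_⟩
  · refine h1.mono' (Wp_meas.aestronglyMeasurable.mul ((Lp.memLp φ).1.norm.pow 2))
      (Eventually.of_forall fun x => ?_)
    rw [Real.norm_of_nonneg (mul_nonneg (Wp_nonneg x) (sq_nonneg _))]
    exact hle x
  · refine le_trans ?_ h2
    exact integral_mono_of_nonneg (Eventually.of_forall fun x =>
      mul_nonneg (Wp_nonneg x) (sq_nonneg _)) h1 (Eventually.of_forall hle)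

end Pool.Agent.Q177.CW
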