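import Mathlib
import Pool.Agent.Q177.CW.Op

namespace Pool.Agent.Q177.CW
open MeasureTheory FourierTransform Pool.Agent.Helper209.CX Filter Topology
open scoped ComplexConjugate ENNReal

variable {d : ℕ}

theorem norm_sum_disj {N : ℕ} (x : Fin N → ℂ) (h : ∀ i j, i ≠ j → x i = 0 ∨ x j = 0) :
    ‖∑ i, x i‖ ^ 2 = ∑ i, ‖x i‖ ^ 2 := by
  by_cases h0 : ∃ i, x i ≠ 0
  · obtain ⟨i, hi⟩ := h0
    have h1 : ∀ j, j ≠ i → x j = 0 := fun j hj => (h j i hj).resolve_right hi
    rw [Finset.sum_eq_single i (fun j _ hj => h1 j hj) (fun h => absurd (Finset.mem_univ _) h),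
      Finset.sum_eq_single i (fun j _ hj => by rw [h1 j hj]; simp)
        (fun h => absurd (Finset.mem_univ _) h)]
  · push Not at h0
    simp [h0]

noncomputable def tent (r : ℝ) (c x : Ed d) : ℝ := max (r - ‖x - c‖) 0

theorem tent_cont (r : ℝ) (c : Ed d) : Continuous (tent r c) := by unfold tent; fun_prop

theorem tent_nonneg (r : ℝ) (c x : Ed d) : 0 ≤ tent r c x := le_max_right _ _

theorem tent_zero {r : ℝ} {c x : Ed d} (h : r ≤ ‖x - c‖) : tent r c x = 0 := by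
  unfold tent
  exact max_eq_right (by linarith)

theorem tent_lip (r : ℝ) (c x y : Ed d) : |tent r c x - tent r c y| ≤ ‖x - y‖ := by
  unfold tent
  refine (abs_max_sub_max_le_max (r - ‖x - c‖) 0 (r - ‖y - c‖) 0).trans (max_le ?_ ?_)
  · rw [show r - ‖x - c‖ - (r - ‖y - c‖) = -(‖x - c‖ - ‖y - c‖) by ring, abs_neg]
    refine (abs_norm_sub_norm_le _ _).trans (le_of_eq ?_)
    congr 1
    abel
  · rw [sub_self, abs_zero]
    exact norm_nonneg _

theorem tent_mem (r : ℝ) (c : Ed d) :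
    MemLp (fun x => ((tent r c x : ℝ) : ℂ)) 2 volume := by
  refine Continuous.memLp_of_hasCompactSupport (Complex.continuous_ofReal.comp (tent_cont r c)) ?_
  refine HasCompactSupport.of_support_subset_isCompact (isCompact_closedBall c r) ?_
  intro x hx
  rw [Metric.mem_closedBall, dist_eq_norm]
  by_contra hcon
  push Not at hcon
  apply hx
  show ((tent r c x : ℝ) : ℂ) = 0
  rw [tent_zero hcon.le, Complex.ofReal_zero]

noncomputable def bump (r : ℝ) (c : Ed d) : L2d d := (tent_mem r c).toLp _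

theorem bump_ae (r : ℝ) (c : Ed d) : bump r c =ᵐ[volume] fun x => ((tent r c x : ℝ) : ℂ) :=
  (tent_mem r c).coeFn_toLp

noncomputable def vd (d : ℕ) : ℝ := (volume : Measure (Ed d)).real (Metric.ball 0 1)

theorem vd_pos : 0 < vd d := by
  unfold vd
  rw [Measure.real, ENNReal.toReal_pos_iff]
  exact ⟨Metric.measure_ball_pos _ _ one_pos, measure_ball_lt_top⟩

theorem vol_ball (c : Ed d) (r : ℝ) (hr : 0 < r) :
    (volume : Measure (Ed d)).real (Metric.ball c r) = r ^ d * vd d := by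
  unfold vd
  rw [Measure.real, Measure.addHaar_ball_of_pos _ _ hr, finrank_euclideanSpace_fin,
    ENNReal.toReal_mul, ENNReal.toReal_ofReal (by positivity)]
  rfl

/-- squared norm of the bump -/
noncomputable def gam (d : ℕ) (r : ℝ) : ℝ := ∫ x : Ed d, (tent r 0 x) ^ 2

theorem tent_sq_int (r : ℝ) (c : Ed d) : Integrable (fun x => (tent r c x) ^ 2) volume := by
  refine (int_sq (bump r c)).congr ?_
  filter_upwards [bump_ae r c] with x hx
  rw [hx, Complex.norm_real, Real.norm_eq_abs, sq_abs]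

theorem tent_sq (r : ℝ) (c : Ed d) : ∫ x : Ed d, (tent r c x) ^ 2 = gam d r := by
  unfold gam
  have h := integral_sub_right_eq_self (fun x : Ed d => (tent r 0 x) ^ 2) c (μ := volume)
  rw [← h]
  refine integral_congr_ae (Eventually.of_forall fun x => ?_)
  simp only [tent, sub_zero]

theorem gam_ge (r : ℝ) (hr : 0 < r) : (r / 2) ^ 2 * ((r / 2) ^ d * vd d) ≤ gam d r := by
  rw [← vol_ball (0 : Ed d) (r / 2) (by positivity)]
  unfold gam
  have h1 : ∫ x in Metric.ball (0 : Ed d) (r / 2), (r / 2) ^ 2 ≤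
      ∫ x in Metric.ball (0 : Ed d) (r / 2), (tent r 0 x) ^ 2 := by
    refine setIntegral_mono_on ?_ (tent_sq_int r 0).integrableOn measurableSet_ball ?_
    · exact integrableOn_const (measure_ball_lt_top.ne)
    · intro x hx
      rw [mem_ball_zero_iff] at hx
      refine pow_le_pow_left₀ (by positivity) ?_ 2
      unfold tent
      rw [sub_zero]
      exact le_max_of_le_left (by linarith)
  have h2 : ∫ x in Metric.ball (0 : Ed d) (r / 2), (tent r 0 x) ^ 2 ≤
      ∫ x : Ed d, (tent r 0 x) ^ 2 :=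
    setIntegral_le_integral (tent_sq_int r 0) (Eventually.of_forall fun x => sq_nonneg _)
  rw [setIntegral_const, smul_eq_mul, mul_comm] at h1
  exact h1.trans h2

section
variable {N : ℕ} (r : ℝ) (c : Fin N → Ed d)

theorem comb_ae (a : Fin N → ℂ) : (∑ i, a i • bump r (c i) : L2d d) =ᵐ[volume]
    fun x => ∑ i, a i * ((tent r (c i) x : ℝ) : ℂ) := by
  have h : ∀ᵐ x ∂(volume : Measure (Ed d)), ∀ i, bump r (c i) x = ((tent r (c i) x : ℝ) : ℂ) :=
    ae_all_iff.2 fun i => bump_ae r (c i)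
  filter_upwards [K15.lin_coe a (fun i => bump r (c i)), h] with x h1 h2
  rw [h1]
  exact Finset.sum_congr rfl fun i _ => by rw [h2 i]

theorem comb_disj (hr : 0 < r) (hc : ∀ i j, i ≠ j → 3 * r ≤ ‖c i - c j‖) (a : Fin N → ℂ) (x : Ed d) :
    ‖∑ i, a i * ((tent r (c i) x : ℝ) : ℂ)‖ ^ 2 = ∑ i, ‖a i‖ ^ 2 * (tent r (c i) x) ^ 2 := by
  rw [norm_sum_disj]
  · refine Finset.sum_congr rfl fun i _ => ?_
    rw [norm_mul, Complex.norm_real, Real.norm_eq_abs, mul_pow, sq_abs]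
  · intro i j hij
    by_cases hi : r ≤ ‖x - c i‖
    · left; rw [tent_zero hi]; simp
    · right
      push Not at hi
      have h1 := hc i j hij
      have h2 : ‖c i - c j‖ ≤ ‖x - c i‖ + ‖x - c j‖ := by
        have : c i - c j = (x - c j) - (x - c i) := by abel
        rw [this, add_comm]
        exact norm_sub_le _ _
      rw [tent_zero (by linarith : r ≤ ‖x - c j‖)]
      simp

theorem comb_norm (hr : 0 < r) (hc : ∀ i j, i ≠ j → 3 * r ≤ ‖c i - c j‖) (a : Fin N → ℂ) :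
    ‖(∑ i, a i • bump r (c i) : L2d d)‖ ^ 2 = (∑ i, ‖a i‖ ^ 2) * gam d r := by
  rw [norm_sq_eq]
  have e1 : ∫ x, ‖(∑ i, a i • bump r (c i) : L2d d) x‖ ^ 2 =
      ∫ x, ∑ i, ‖a i‖ ^ 2 * (tent r (c i) x) ^ 2 := by
    refine integral_congr_ae ?_
    filter_upwards [comb_ae r c a] with x hx
    rw [hx, comb_disj r c hr hc]
  rw [e1, integral_finsetSum _ fun i _ => (tent_sq_int r (c i)).const_mul _, Finset.sum_mul]
  refine Finset.sum_congr rfl fun i _ => ?_
  rw [integral_const_mul, tent_sq]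

theorem comb_dq (hr : 0 < r) (hc : ∀ i j, i ≠ j → 3 * r ≤ ‖c i - c j‖) (a : Fin N → ℂ)
    (t : ℝ) (ht : 0 < t) (htr : t ≤ r / 2) (k : Fin d) :
    ‖dq t k (∑ i, a i • bump r (c i) : L2d d)‖ ^ 2 ≤
      t ^ 2 * ((∑ i, ‖a i‖ ^ 2) * ((2 * r) ^ d * vd d)) := by
  have hth : ‖t • ek k‖ = t := by rw [norm_smul, norm_ek, mul_one, Real.norm_of_nonneg ht.le]
  rw [norm_sq_eq]
  have hfar : ∀ x i, 3 / 2 * r ≤ ‖x - c i‖ →
      tent r (c i) x = 0 ∧ tent r (c i) (x + t • ek k) = 0 := by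
    intro x i hx
    refine ⟨tent_zero (by linarith), tent_zero ?_⟩
    have h1 : ‖x - c i‖ ≤ ‖x + t • ek k - c i‖ + ‖t • ek k‖ := by
      have : x - c i = (x + t • ek k - c i) - t • ek k := by abel
      rw [this]
      exact norm_sub_le _ _
    rw [hth] at h1
    linarith
  have hint : ∀ i : Fin N, Integrable ((Metric.ball (c i) (2 * r)).indicator
      fun _ => ‖a i‖ ^ 2 * t ^ 2) volume := fun i =>
    (integrableOn_const (measure_ball_lt_top.ne)).integrable_indicator measurableSet_ball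
  have e1 : ∫ x, ‖dq t k (∑ i, a i • bump r (c i) : L2d d) x‖ ^ 2 ≤
      ∫ x, ∑ i, (Metric.ball (c i) (2 * r)).indicator (fun _ => ‖a i‖ ^ 2 * t ^ 2) x := by
    refine integral_mono_ae (int_sq _) (integrable_finsetSum _ fun i _ => hint i) ?_
    filter_upwards [dq_ae t k (∑ i, a i • bump r (c i) : L2d d), comb_ae r c a,
      sh_ae (t • ek k) (comb_ae r c a)] with x h1 h2 h3
    rw [h1, h2, h3, ← Finset.sum_sub_distrib, norm_sum_disj]
    · refine Finset.sum_le_sum fun i _ => ?_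
      rw [← mul_sub, ← Complex.ofReal_sub, norm_mul, Complex.norm_real, Real.norm_eq_abs, mul_pow]
      by_cases hx : x ∈ Metric.ball (c i) (2 * r)
      · rw [Set.indicator_of_mem hx]
        refine mul_le_mul_of_nonneg_left ?_ (by positivity)
        refine pow_le_pow_left₀ (abs_nonneg _) ?_ 2
        refine (tent_lip r (c i) _ _).trans (le_of_eq ?_)
        rw [add_sub_cancel_left, hth]
      · rw [Set.indicator_of_notMem hx]
        rw [Metric.mem_ball, dist_eq_norm, not_lt] at hx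
        obtain ⟨h4, h5⟩ := hfar x i (by linarith)
        rw [h4, h5]
        simp
    · intro i j hij
      by_cases hi : 3 / 2 * r ≤ ‖x - c i‖
      · left
        obtain ⟨h4, h5⟩ := hfar x i hi
        rw [h4, h5]
        simp
      · right
        push Not at hi
        have h6 := hc i j hij
        have h7 : ‖c i - c j‖ ≤ ‖x - c i‖ + ‖x - c j‖ := by
          have : c i - c j = (x - c j) - (x - c i) := by abel
          rw [this, add_comm]
          exact norm_sub_le _ _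
        obtain ⟨h4, h5⟩ := hfar x j (by linarith)
        rw [h4, h5]
        simp
  refine e1.trans (le_of_eq ?_)
  rw [integral_finsetSum _ fun i _ => hint i, Finset.sum_mul, Finset.mul_sum]
  refine Finset.sum_congr rfl fun i _ => ?_
  rw [integral_indicator measurableSet_ball, setIntegral_const, vol_ball (c i) (2 * r) (by positivity),
    smul_eq_mul]
  ring

theorem comb_H1 (hr : 0 < r) (hc : ∀ i j, i ≠ j → 3 * r ≤ ‖c i - c j‖) (a : Fin N → ℂ) :
    InH1 (∑ i, a i • bump r (c i) : L2d d) ∧ en (∑ i, a i • bump r (c i) : L2d d) ≤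
      d * ((∑ i, ‖a i‖ ^ 2) * ((2 * r) ^ d * vd d)) := by
  have hv := (vd_pos (d := d)).le
  have hs : 0 ≤ ∑ i, ‖a i‖ ^ 2 := Finset.sum_nonneg fun i _ => by positivity
  refine inH1_of_dq _ _ (by positivity) ?_
  have h1 : ∀ᶠ n : ℕ in atTop, (1 / ((n : ℝ) + 1)) ≤ r / 2 :=
    (tendsto_one_div_add_atTop_nhds_zero_nat (𝕜 := ℝ)).eventually_le_const (by positivity)
  filter_upwards [h1] with n hn
  obtain ⟨t, ht⟩ : ∃ t : ℝ, t = 1 / ((n : ℝ) + 1) := ⟨_, rfl⟩
  have ht0 : 0 < t := by rw [ht]; positivity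
  rw [← ht] at hn ⊢
  calc ∑ k, (t⁻¹) ^ 2 * ‖dq t k (∑ i, a i • bump r (c i) : L2d d)‖ ^ 2
      ≤ ∑ _k : Fin d, ((∑ i, ‖a i‖ ^ 2) * ((2 * r) ^ d * vd d)) := by
        refine Finset.sum_le_sum fun k _ => ?_
        refine (mul_le_mul_of_nonneg_left (comb_dq r c hr hc a t ht0 hn k) (by positivity)).trans
          (le_of_eq ?_)
        rw [← mul_assoc, ← mul_pow, inv_mul_cancel₀ ht0.ne', one_pow, one_mul]
    _ = _ := by rw [Finset.sum_const, Finset.card_univ, Fintype.card_fin, nsmul_eq_mul]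

theorem comb_q1 (hr : 0 < r) (hr4 : r ≤ 1 / 4) (hc : ∀ i j, i ≠ j → 3 * r ≤ ‖c i - c j‖)
    (hc4 : ∀ i, ‖c i‖ ≤ 1 / 4) (W : Ed d → ℝ) (hW0 : ∀ x, 0 ≤ W x) (hWm : Measurable W)
    (hW : ∀ x, ‖x‖ ≤ 1 / 2 → W x ≤ 1) (hh κ β : ℝ)
    (hβ : hh ^ 2 * (4 * d * 4 ^ d / r ^ 2) ≤ β) (a : Fin N → ℂ) :
    q1 hh κ W (∑ i, a i • bump r (c i) : L2d d) ≤
      (β + 2) * ‖(∑ i, a i • bump r (c i) : L2d d)‖ ^ 2 := by
  have hv := (vd_pos (d := d))
  have hs : 0 ≤ ∑ i, ‖a i‖ ^ 2 := Finset.sum_nonneg fun i _ => by positivity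
  obtain ⟨f, hf⟩ : ∃ f : L2d d, f = ∑ i, a i • bump r (c i) := ⟨_, rfl⟩
  have hfn := comb_norm r c hr hc a
  have hfe := (comb_H1 r c hr hc a).2
  rw [← hf] at hfn hfe ⊢
  have hfar : ∀ᵐ x ∂(volume : Measure (Ed d)), 1 / 2 < ‖x‖ → f x = 0 := by
    have h1 := comb_ae r c a
    rw [← hf] at h1
    filter_upwards [h1] with x hx hx2
    rw [hx]
    refine Finset.sum_eq_zero fun i _ => ?_
    rw [tent_zero, Complex.ofReal_zero, mul_zero]
    have h2 : ‖x‖ ≤ ‖x - c i‖ + ‖c i‖ := by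
      calc ‖x‖ = ‖(x - c i) + c i‖ := by congr 1; abel
        _ ≤ _ := norm_add_le _ _
    have h3 := hc4 i
    linarith
  have hC : ‖CC f‖ ^ 2 = 0 := by
    rw [CC_norm_sq]
    refine integral_eq_zero_of_ae ?_
    filter_upwards [hfar] with x hx
    split_ifs with h
    · rw [hx (by linarith)]; simp
    · rfl
  have hWf : ∫ x, W x * ‖f x‖ ^ 2 ≤ ‖f‖ ^ 2 := by
    rw [norm_sq_eq]
    refine integral_mono_of_nonneg (Eventually.of_forall fun x => mul_nonneg (hW0 x) (sq_nonneg _))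
      (int_sq f) ?_
    filter_upwards [hfar] with x hx
    by_cases h : ‖x‖ ≤ 1 / 2
    · have := hW x h
      nlinarith [sq_nonneg ‖f x‖]
    · rw [hx (by linarith)]; simp
  have hen : hh ^ 2 * en f ≤ β * ‖f‖ ^ 2 := by
    have h1 : (d : ℝ) * ((∑ i, ‖a i‖ ^ 2) * ((2 * r) ^ d * vd d)) ≤
        (4 * d * 4 ^ d / r ^ 2) * ‖f‖ ^ 2 := by
      rw [hfn]
      have h2 := gam_ge (d := d) r hr
      have h3 : (4 * d * 4 ^ d / r ^ 2) * ((∑ i, ‖a i‖ ^ 2) * ((r / 2) ^ 2 * ((r / 2) ^ d * vd d))) ≤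
          (4 * d * 4 ^ d / r ^ 2) * ((∑ i, ‖a i‖ ^ 2) * gam d r) :=
        mul_le_mul_of_nonneg_left (mul_le_mul_of_nonneg_left h2 hs) (by positivity)
      refine le_trans (le_of_eq ?_) h3
      have h4 : (2 * r) ^ d = 4 ^ d * (r / 2) ^ d := by
        rw [← mul_pow]; congr 1; ring
      rw [h4]
      field_simp
      ring
    calc hh ^ 2 * en f ≤ hh ^ 2 * ((4 * d * 4 ^ d / r ^ 2) * ‖f‖ ^ 2) :=
          mul_le_mul_of_nonneg_left (hfe.trans h1) (sq_nonneg _)
      _ = (hh ^ 2 * (4 * d * 4 ^ d / r ^ 2)) * ‖f‖ ^ 2 := by ring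
      _ ≤ β * ‖f‖ ^ 2 := mul_le_mul_of_nonneg_right hβ (sq_nonneg _)
  unfold q1
  rw [hC]
  linarith

end

/-- a grid of separated centres -/
theorem grid (d : ℕ) (hd : 1 ≤ d) (r : ℝ) (hr : 0 < r) (hr1 : r ≤ 1 / (12 * d)) :
    ∃ (N : ℕ) (c : Fin N → Ed d), (∀ i j, i ≠ j → 3 * r ≤ ‖c i - c j‖) ∧ (∀ i, ‖c i‖ ≤ 1 / 4) ∧
      (1 / (24 * d * r)) ^ d ≤ (N : ℝ) := by
  have hd1 : (1 : ℝ) ≤ d := by exact_mod_cast hd
  have hd0 : (0 : ℝ) < d := by linarith
  obtain ⟨y, hy⟩ : ∃ y : ℝ, y = 1 / (12 * d * r) := ⟨_, rfl⟩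
  have hy1 : 1 ≤ y := by
    rw [hy, le_div_iff₀ (by positivity), one_mul]
    rw [le_div_iff₀ (by positivity)] at hr1
    linarith
  obtain ⟨m, hm⟩ : ∃ m : ℕ, m = ⌊y⌋₊ := ⟨_, rfl⟩
  have hmy : (m : ℝ) ≤ y := by rw [hm]; exact Nat.floor_le (by linarith)
  have hmy2 : y / 2 ≤ m := by
    have h1 : y < m + 1 := by rw [hm]; exact Nat.lt_floor_add_one y
    have h2 : 1 ≤ m := by rw [hm]; exact (Nat.one_le_floor_iff y).2 hy1
    have h3 : (1 : ℝ) ≤ m := by exact_mod_cast h2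
    linarith
  let ι := Fin d → Fin m
  let e : Fin (Fintype.card ι) ≃ ι := (Fintype.equivFin ι).symm
  let pt : ι → Ed d := fun z => WithLp.toLp 2 fun k => 3 * r * ((z k : ℕ) : ℝ)
  have hpt : ∀ z k, pt z k = 3 * r * ((z k : ℕ) : ℝ) := fun z k => rfl
  refine ⟨Fintype.card ι, fun i => pt (e i), ?_, ?_, ?_⟩
  · intro i j hij
    have hne : e i ≠ e j := fun h => hij (e.injective h)
    obtain ⟨k, hk⟩ := Function.ne_iff.1 hne
    have h1 : |(pt (e i) - pt (e j)) k| ≤ ‖pt (e i) - pt (e j)‖ := by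
      have := PiLp.norm_apply_le (pt (e i) - pt (e j)) k
      simpa [Real.norm_eq_abs] using this
    refine le_trans ?_ h1
    have h2 : (pt (e i) - pt (e j)) k = 3 * r * (((e i k : ℕ) : ℝ) - ((e j k : ℕ) : ℝ)) := by
      rw [PiLp.sub_apply, hpt, hpt]
      ring
    rw [h2, abs_mul, abs_of_pos (by positivity)]
    have h3 : (1 : ℝ) ≤ |((e i k : ℕ) : ℝ) - ((e j k : ℕ) : ℝ)| := by
      have h4 : ((e i k : ℕ) : ℤ) - ((e j k : ℕ) : ℤ) ≠ 0 := by
        intro h
        apply hk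
        apply Fin.ext
        omega
      have h5 := Int.one_le_abs h4
      exact_mod_cast h5
    nlinarith
  · intro i
    have h1 : ‖pt (e i)‖ ≤ ∑ k, |pt (e i) k| := by
      have h2 : ‖pt (e i)‖ ^ 2 ≤ (∑ k, |pt (e i) k|) ^ 2 := by
        rw [EuclideanSpace.norm_sq_eq]
        simp_rw [Real.norm_eq_abs]
        exact Finset.sum_sq_le_sq_sum_of_nonneg fun k _ => abs_nonneg _
      exact le_of_sq_le_sq h2 (Finset.sum_nonneg fun k _ => abs_nonneg _)
    refine h1.trans ?_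
    have h3 : ∀ k ∈ Finset.univ, |pt (e i) k| ≤ 3 * r * y := by
      intro k _
      rw [hpt, abs_of_nonneg (by positivity)]
      refine mul_le_mul_of_nonneg_left ?_ (by positivity)
      have h4 : ((e i k : ℕ) : ℝ) ≤ m := by exact_mod_cast (e i k).2.le
      linarith
    refine (Finset.sum_le_sum h3).trans (le_of_eq ?_)
    rw [Finset.sum_const, Finset.card_univ, Fintype.card_fin, nsmul_eq_mul, hy]
    field_simp
    norm_num
  · have h1 : Fintype.card ι = m ^ d := by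
      rw [Fintype.card_fun, Fintype.card_fin, Fintype.card_fin]
    rw [h1, Nat.cast_pow]
    refine pow_le_pow_left₀ (by positivity) ?_ d
    refine le_trans (le_of_eq ?_) hmy2
    rw [hy]
    field_simp
    norm_num

end Pool.Agent.Q177.CW
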