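import Mathlib
import Pool.Agent.Q177.CW.Pot
import Pool.Agent.Q177.CW.Trial
import Pool.Agent.Q177.CW.DimUp
import Pool.Agent.Q177.CW.Contr
import Pool.Agent.Q177.CW.Lin
import Pool.Agent.Helper209.CX.K31

namespace Pool.Agent.Q177.CW
open MeasureTheory FourierTransform Pool.Agent.Helper209.CX Filter Topology
open scoped ComplexConjugate ENNReal

variable {d : ℕ}

/-- the potential -/
noncomputable def Vp (x : Ed d) : ℂ :=
  if ‖x‖ < 1 then ((-Real.log (1 - ‖x‖) : ℝ) : ℂ) + Complex.I else 0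

theorem Vp_eq (x : Ed d) : Vp x = (Wp x : ℂ) + Complex.I * (1 - (cc x : ℂ)) := by
  unfold Vp Wp cc
  by_cases h : ‖x‖ < 1
  · rw [if_pos h, if_pos h, if_neg (not_le.2 h)]
    push_cast
    ring
  · rw [if_neg h, if_neg h, if_pos (not_lt.1 h)]
    simp

theorem pair_eq (u φ : L2d d) : inner ℂ φ u = ∫ x, u x * conj (φ x) := inner_eq φ u

theorem Vp_pair (hd : 1 ≤ d) (u φ : L2d d) (hu : InH1 u) (hφ : InH1 φ) :
    Integrable (fun x => Vp x * u x * conj (φ x)) volume ∧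
    ∫ x, Vp x * u x * conj (φ x) = (∫ x, (Wp x : ℂ) * u x * conj (φ x)) +
      Complex.I * inner ℂ φ u - Complex.I * inner ℂ φ (CC u) := by
  have i1 := W_pair Wp (Wp_FB hd) u φ hu hφ
  have i2 : Integrable (fun x => u x * conj (φ x)) volume := K15.lin_fint u φ
  have i3 : Integrable (fun x => (CC u) x * conj (φ x)) volume := K15.lin_fint (CC u) φ
  have e1 : (fun x => Vp x * u x * conj (φ x)) =ᵐ[volume] fun x =>
      (Wp x : ℂ) * u x * conj (φ x) + Complex.I * (u x * conj (φ x)) -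
        Complex.I * ((CC u) x * conj (φ x)) := by
    filter_upwards [CC_ae u] with x hx
    rw [hx, Vp_eq]
    ring
  have i4 : Integrable (fun x => (Wp x : ℂ) * u x * conj (φ x) + Complex.I * (u x * conj (φ x)))
      volume := i1.add (i2.const_mul _)
  refine ⟨(i4.sub (i3.const_mul _)).congr e1.symm, ?_⟩
  rw [integral_congr_ae e1, integral_sub i4 (i3.const_mul _), integral_add i1 (i2.const_mul _),
    integral_const_mul, integral_const_mul, ← pair_eq, ← pair_eq]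

/-- smallness of the exponential factor -/
theorem small_exp (C s : ℝ) (hC : 0 ≤ C) (hs : 0 ≤ s) (K c : ℝ) (hc : 0 < c) :
    ∀ᶠ h : ℝ in 𝓝[>] 0, K * (C * (s / h) ^ d + 1) ^ 2 * Real.exp (-(c / h)) ≤ 1 := by
  have h1 := tendsto_rpow_mul_exp_neg_mul_atTop_nhds_zero (2 * d : ℝ) c hc
  have h2 : Tendsto (fun h : ℝ => h⁻¹) (𝓝[>] 0) atTop := tendsto_inv_nhdsGT_zero
  have h3 := (h1.comp h2).const_mul (|K| * (C * s ^ d + 1) ^ 2)
  rw [mul_zero] at h3
  have h4 := h3.eventually_le_const (one_pos)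
  have h5 : ∀ᶠ h : ℝ in 𝓝[>] 0, h ≤ 1 :=
    mem_nhdsWithin_of_mem_nhds (Iic_mem_nhds one_pos)
  filter_upwards [h4, h5, self_mem_nhdsWithin] with h h6 h7 h8
  have hh : 0 < h := h8
  simp only [Function.comp_apply] at h6
  refine le_trans ?_ h6
  have e1 : c * h⁻¹ = c / h := by rw [div_eq_mul_inv]
  have e2 : (h⁻¹) ^ (2 * d : ℝ) = ((h⁻¹) ^ d) ^ 2 := by
    rw [← pow_mul, ← Real.rpow_natCast]
    congr 1
    push_cast
    ring
  rw [neg_mul, e1, e2]
  have h9 : 1 ≤ (h⁻¹) ^ d := one_le_pow₀ ((one_le_inv₀ hh).2 h7)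
  have h10 : C * (s / h) ^ d + 1 ≤ (C * s ^ d + 1) * (h⁻¹) ^ d := by
    rw [div_eq_mul_inv, mul_pow]
    nlinarith [mul_nonneg hC (pow_nonneg hs d)]
  have h11 : 0 ≤ C * (s / h) ^ d + 1 := by positivity
  have h12 : (C * (s / h) ^ d + 1) ^ 2 ≤ ((C * s ^ d + 1) * (h⁻¹) ^ d) ^ 2 :=
    pow_le_pow_left₀ h11 h10 2
  calc K * (C * (s / h) ^ d + 1) ^ 2 * Real.exp (-(c / h))
      ≤ |K| * ((C * s ^ d + 1) * (h⁻¹) ^ d) ^ 2 * Real.exp (-(c / h)) := by
        refine mul_le_mul_of_nonneg_right ?_ (Real.exp_pos _).le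
        exact mul_le_mul (le_abs_self K) h12 (sq_nonneg _) (abs_nonneg _)
    _ = |K| * (C * s ^ d + 1) ^ 2 * (((h⁻¹) ^ d) ^ 2 * Real.exp (-(c / h))) := by ring

/-- eigenfunctions of the operator with barrier decay -/
theorem eig_decay (hd : 1 ≤ d) (hh κ μ μm : ℝ) (hh0 : 0 < hh) (hκ : μm ≤ κ) (hμ1 : 1 ≤ μ)
    (hμm : μ ≤ μm) (u : L2d d) (hu : InH1 u) (hun : ‖u‖ = 1)
    (ha : ∀ φ, InH1 φ → a1 hh κ Wp u φ = (μ : ℂ) * inner ℂ φ u) :
    ‖CC u‖ ^ 2 ≤ Real.exp (-(Real.exp (-μm) / (2 * d * hh))) * (2 * μm) := by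
  have hd1 : (1 : ℝ) ≤ d := by exact_mod_cast hd
  have hκ0 : 0 ≤ κ := by linarith
  have h := agmon (d := d) hh hh0 (1 / (4 * d * hh)) (by positivity) (by
    have e : 4 * (d : ℝ) * (1 / (4 * d * hh)) ^ 2 * hh ^ 2 = 1 / (4 * d) := by
      field_simp
    rw [e]
    rw [div_le_div_iff₀ (by positivity) (by norm_num)]
    linarith) (1 - Real.exp (-μm)) (Real.exp (-μm)) (Real.exp_pos _)
    (fun x => Wp x + κ * cc x) (μ - 1) (by linarith)
    (fun x => by
      have h1 := Wp_nonneg x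
      have h2 : 0 ≤ cc x := by unfold cc; split_ifs <;> norm_num
      positivity)
    (fun x hx => by
      by_cases h1 : ‖x‖ < 1
      · have h2 := Wp_barrier μm x hx h1
        have h3 : 0 ≤ κ * cc x := by
          have h2 : 0 ≤ cc x := by unfold cc; split_ifs <;> norm_num
          positivity
        linarith
      · have h2 : cc x = 1 := by unfold cc; rw [if_pos (not_lt.1 h1)]
        rw [h2]
        have := Wp_nonneg x
        linarith) u hu hun
    (fun φ hφ => by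
      have i1 := W_pair Wp (Wp_FB hd) u φ hu hφ
      have i3 : Integrable (fun x => (CC u) x * conj (φ x)) volume := K15.lin_fint (CC u) φ
      have e1 : (fun x => ((Wp x + κ * cc x : ℝ) : ℂ) * u x * conj (φ x)) =ᵐ[volume] fun x =>
          (Wp x : ℂ) * u x * conj (φ x) + (κ : ℂ) * ((CC u) x * conj (φ x)) := by
        filter_upwards [CC_ae u] with x hx
        rw [hx]
        push_cast
        ring
      refine ⟨(i1.add (i3.const_mul _)).congr e1.symm, ?_⟩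
      rw [integral_congr_ae e1, integral_add i1 (i3.const_mul _), integral_const_mul, ← pair_eq,
        ← pair_eq]
      have h1 := ha φ hφ
      unfold a1 at h1
      have h2 : (((μ - 1 : ℝ)) : ℂ) = (μ : ℂ) - 1 := by push_cast; ring
      rw [h2, sub_mul, one_mul, ← h1]
      ring)
  rw [CC_norm_sq]
  have e2 : (1 - Real.exp (-μm)) + Real.exp (-μm) = 1 := by ring
  rw [e2] at h
  refine h.trans ?_
  have e3 : 2 * (1 / (4 * (d : ℝ) * hh)) * Real.exp (-μm) = Real.exp (-μm) / (2 * d * hh) := by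
    field_simp
    norm_num
  rw [e3]
  refine mul_le_mul_of_nonneg_left ?_ (Real.exp_pos _).le
  linarith

/-- the main construction -/
theorem core (hd : 1 ≤ d) : ∃ c : ℝ, 0 < c ∧ ∀ β : ℝ, 4 ≤ β → ∀ᶠ hh : ℝ in 𝓝[>] 0,
    ∃ (N : ℕ) (v : Fin N → L2d d) (A : Matrix (Fin N) (Fin N) ℂ), LinearIndependent ℂ v ∧
      (∀ n, IsHu hh Vp (v n) (∑ m, A m n • v m)) ∧
      (∀ E, Module.End.HasEigenvalue (Matrix.toLin' A) E → ‖E‖ ≤ 3 * β ∧ 1 / 2 ≤ E.im) ∧
      c * (√β / hh) ^ d ≤ N := by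
  have hd1 : (1 : ℝ) ≤ d := by exact_mod_cast hd
  have hd0 : (0 : ℝ) < d := by linarith
  obtain ⟨C, hC, hup⟩ := dim_upper d hd
  obtain ⟨c1, hc1⟩ : ∃ c1 : ℝ, c1 = √(8 * d * 4 ^ d) := ⟨_, rfl⟩
  have hc1pos : 0 < c1 := by rw [hc1]; exact Real.sqrt_pos.2 (by positivity)
  have hc1sq : c1 ^ 2 = 8 * d * 4 ^ d := by rw [hc1]; exact Real.sq_sqrt (by positivity)
  refine ⟨(1 / (24 * d * c1)) ^ d, by positivity, ?_⟩
  intro β hβ
  have hβ0 : 0 < β := by linarith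
  have hsβ : 0 < √β := Real.sqrt_pos.2 hβ0
  obtain ⟨μm, hμm⟩ : ∃ μm : ℝ, μm = 2 * β + 2 := ⟨_, rfl⟩
  have hμm0 : 0 < μm := by linarith
  obtain ⟨κ, hκ⟩ : ∃ κ : ℝ, κ = 16 * μm := ⟨_, rfl⟩
  have hκ0 : 0 < κ := by linarith
  obtain ⟨e0, he0⟩ : ∃ e0 : ℝ, e0 = Real.exp (-μm) / (4 * d) := ⟨_, rfl⟩
  have he0pos : 0 < e0 := by rw [he0]; positivity
  have hev1 := small_exp (d := d) C (√μm) hC.le (Real.sqrt_nonneg _)
    (16 * (1 + κ) ^ 2 * √(2 * μm)) e0 he0pos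
  have hev2 : ∀ᶠ hh : ℝ in 𝓝[>] 0, hh * (c1 / √β) ≤ 1 / (12 * d) := by
    have h1 : Tendsto (fun hh : ℝ => hh * (c1 / √β)) (𝓝[>] 0) (𝓝 (0 * (c1 / √β))) :=
      (tendsto_nhdsWithin_of_tendsto_nhds tendsto_id).mul_const _
    rw [zero_mul] at h1
    exact h1.eventually_le_const (by positivity)
  filter_upwards [hev1, hev2, self_mem_nhdsWithin] with hh hsm hr1 hhp
  have hh0 : 0 < hh := hhp
  obtain ⟨T, hTp, hT1, hT2⟩ := exists_T (d := d) Wp (Wp_FB hd) hh κ hh0 hκ0.le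
  -- upper bound for dimensions
  obtain ⟨Y, hY⟩ : ∃ Y : ℝ, Y = C * (√μm / hh) ^ d := ⟨_, rfl⟩
  have hY0 : 0 ≤ Y := by rw [hY]; positivity
  obtain ⟨M, hM⟩ : ∃ M : ℕ, M = ⌊Y⌋₊ := ⟨_, rfl⟩
  have hMY : (M : ℝ) ≤ Y := by rw [hM]; exact Nat.floor_le hY0
  obtain ⟨g, hg⟩ : ∃ g : ℝ, g = 1 / ((M : ℝ) + 1) := ⟨_, rfl⟩
  have hg0 : 0 < g := by rw [hg]; positivity
  have hq1T : ∀ y, q1 hh κ Wp (T y) = (inner ℂ y (T y)).re := by
    intro y
    have h1 := (hT1 y).2 (T y) (hT1 y).1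
    rw [a1_self] at h1
    have h2 := congrArg Complex.re h1
    rw [Complex.ofReal_re] at h2
    rw [h2, ← inner_conj_symm, Complex.conj_re]
  have hdim : ∀ (n : ℕ) (w : Fin n → L2d d), Orthonormal ℂ w →
      (∀ j, ∃ y, T y = w j ∧ (inner ℂ y (w j)).re ≤ μm) → n ≤ M := by
    intro n w hw hwy
    rw [hM]
    refine Nat.le_floor ?_
    rw [hY]
    refine hup hh κ μm hh0 hμm0 (by linarith) Wp Wp_nonneg n w hw ?_ ?_
    · intro j
      obtain ⟨y, hy, -⟩ := hwy j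
      rw [← hy]
      exact (hT1 y).1
    · intro j
      obtain ⟨y, hy, hy2⟩ := hwy j
      rw [← hy, hq1T, hy]
      exact hy2
  obtain ⟨N, u, μ, μ', hNM, hu, hμpos, hTu, hgap, hμ'1, hμ'm, hQ⟩ :=
    cluster hTp M (β + 1) g μm (by linarith) hg0 (by
      rw [hg, mul_one_div, div_self (by positivity)]
      linarith) hdim
  have hμ'pos : 0 < μ' := by linarith
  have huT : ∀ n, T ((μ n : ℂ) • u n) = u n := by
    intro n
    rw [map_smul, hTu, smul_smul, mul_inv_cancel₀ (Complex.ofReal_ne_zero.2 (hμpos n).ne'),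
      one_smul]
  have huH : ∀ n, InH1 (u n) := fun n => by
    rw [← huT n]
    exact (hT1 _).1
  have hua : ∀ n φ, InH1 φ → a1 hh κ Wp (u n) φ = (μ n : ℂ) * inner ℂ φ (u n) := by
    intro n φ hφ
    have h1 := (hT1 ((μ n : ℂ) • u n)).2 φ hφ
    rw [huT, inner_smul_right] at h1
    exact h1
  have hμ1 : ∀ n, 1 ≤ μ n := by
    intro n
    have h1 := hua n (u n) (huH n)
    rw [a1_self, inner_self_eq_norm_sq_to_K, hu.1 n] at h1
    have h2 := congrArg Complex.re h1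
    rw [Complex.ofReal_re] at h2
    have h3 : ((μ n : ℂ) * (((1 : ℝ) : ℂ)) ^ 2).re = μ n := by simp
    have h4 : q1 hh κ Wp (u n) = μ n := h2.trans h3
    rw [← h4]
    unfold q1
    rw [hu.1 n]
    have h5 : 0 ≤ hh ^ 2 * en (u n) := mul_nonneg (sq_nonneg _) (en_nonneg _)
    have h6 : 0 ≤ ∫ x, Wp x * ‖(u n) x‖ ^ 2 := integral_nonneg fun x =>
      mul_nonneg (Wp_nonneg x) (sq_nonneg _)
    have h7 : 0 ≤ κ * ‖CC (u n)‖ ^ 2 := by positivity
    linarith
  have hμn : ∀ n, μ n ≤ μm := fun n => by linarith [hgap n]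
  -- smallness of the tails
  obtain ⟨ε, hε⟩ : ∃ ε : ℝ, ε = Real.exp (-(e0 / hh)) * √(2 * μm) := ⟨_, rfl⟩
  have hε0 : 0 ≤ ε := by rw [hε]; positivity
  have hCu : ∀ n, ‖CC (u n)‖ ≤ ε := by
    intro n
    have h1 := eig_decay hd hh κ (μ n) μm hh0 (by linarith) (hμ1 n) (hμn n) (u n) (huH n) (hu.1 n)
      (fun φ hφ => hua n φ hφ)
    refine le_of_sq_le_sq ?_ hε0
    refine h1.trans (le_of_eq ?_)
    rw [hε, mul_pow, Real.sq_sqrt (by positivity), ← Real.exp_nat_mul]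
    congr 2
    rw [he0]
    push_cast
    field_simp
    norm_num
  have hM1 : (M : ℝ) + 1 ≤ Y + 1 := by linarith
  have hsm2 : 16 * (1 + κ) ^ 2 * ((M : ℝ) + 1) ^ 2 * ε ≤ 1 := by
    rw [← hY] at hsm
    refine le_trans ?_ hsm
    rw [hε]
    have h1 : ((M : ℝ) + 1) ^ 2 ≤ (Y + 1) ^ 2 := pow_le_pow_left₀ (by positivity) hM1 2
    calc 16 * (1 + κ) ^ 2 * ((M : ℝ) + 1) ^ 2 * (Real.exp (-(e0 / hh)) * √(2 * μm))
        = (16 * (1 + κ) ^ 2 * √(2 * μm) * Real.exp (-(e0 / hh))) * ((M : ℝ) + 1) ^ 2 := by ring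
      _ ≤ (16 * (1 + κ) ^ 2 * √(2 * μm) * Real.exp (-(e0 / hh))) * (Y + 1) ^ 2 :=
          mul_le_mul_of_nonneg_left h1 (by positivity)
      _ = _ := by ring
  have hNM' : (N : ℝ) ≤ M := by exact_mod_cast hNM
  have hsmall : 16 * (1 + κ) ^ 2 * (N + 1) * ε ≤ g := by
    rw [hg, le_div_iff₀ (by positivity)]
    refine le_trans ?_ hsm2
    have h1 : ((N : ℝ) + 1) * ((M : ℝ) + 1) ≤ ((M : ℝ) + 1) ^ 2 := by
      rw [sq]
      exact mul_le_mul_of_nonneg_right (by linarith) (by positivity)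
    calc 16 * (1 + κ) ^ 2 * ((N : ℝ) + 1) * ε * ((M : ℝ) + 1)
        = (16 * (1 + κ) ^ 2 * ε) * (((N : ℝ) + 1) * ((M : ℝ) + 1)) := by ring
      _ ≤ (16 * (1 + κ) ^ 2 * ε) * ((M : ℝ) + 1) ^ 2 :=
          mul_le_mul_of_nonneg_left h1 (by positivity)
      _ = _ := by ring
  obtain ⟨v, A, hv, hA, hli⟩ := invariant u hu T CC hTp CC_sym μ hTu hμpos μ' g κ ε hg0 hμ'pos hgap
    hQ hκ0.le hε0 hCu hsmall
  have hvH : ∀ n, InH1 (v n) := fun n => by
    rw [hv n]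
    exact (hT1 _).1
  refine ⟨N, v, A + (Complex.I - 1) • (1 : Matrix (Fin N) (Fin N) ℂ), hli, ?_, ?_, ?_⟩
  · intro n
    refine ⟨hvH n, fun φ hφ => ?_⟩
    obtain ⟨i1, e1⟩ := Vp_pair hd (v n) φ (hvH n) hφ
    refine ⟨i1, ?_⟩
    rw [e1, ← pair_eq]
    have h1 := (hT1 (∑ m, A m n • v m + ((κ : ℂ) + Complex.I) • CC (v n))).2 φ hφ
    rw [← hv n, inner_add_right, inner_smul_right] at h1
    unfold a1 at h1
    have h2 : ∑ m, (A + (Complex.I - 1) • (1 : Matrix (Fin N) (Fin N) ℂ)) m n • v m =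
        ∑ m, A m n • v m + (Complex.I - 1) • v n := by
      have h3 : ∀ m, (A + (Complex.I - 1) • (1 : Matrix (Fin N) (Fin N) ℂ)) m n • v m =
          A m n • v m + (if m = n then (Complex.I - 1) • v m else 0) := by
        intro m
        rw [Matrix.add_apply, Matrix.smul_apply, Matrix.one_apply, add_smul]
        by_cases hmn : m = n
        · rw [if_pos hmn, if_pos hmn, smul_eq_mul, mul_one]
        · rw [if_neg hmn, if_neg hmn, smul_zero, zero_smul]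
      rw [Finset.sum_congr rfl fun m _ => h3 m, Finset.sum_add_distrib,
        Finset.sum_ite_eq' Finset.univ n, if_pos (Finset.mem_univ _)]
    rw [h2, inner_add_right, inner_smul_right]
    linear_combination h1
  · intro E hE
    have hAd : ∀ m n, ‖(A + (Complex.I - 1) • (1 : Matrix (Fin N) (Fin N) ℂ)) m n -
        (if m = n then ((μ n : ℂ) - 1 + Complex.I) else 0)‖ ≤ 2 * (1 + κ) * ε := by
      intro m n
      refine le_trans (le_of_eq ?_) (hA m n)
      congr 1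
      rw [Matrix.add_apply, Matrix.smul_apply, Matrix.one_apply]
      by_cases hmn : m = n
      · rw [if_pos hmn, if_pos hmn, if_pos hmn, smul_eq_mul]; ring
      · rw [if_neg hmn, if_neg hmn, if_neg hmn, smul_zero]; ring
    obtain ⟨n, hn⟩ := near_diag _ (fun n => (μ n : ℂ) - 1 + Complex.I) _ hAd E hE
    have hb : (N : ℝ) * (2 * (1 + κ) * ε) ≤ 1 / 8 := by
      have h1 : g ≤ 1 := by
        rw [hg, div_le_one (by positivity)]
        have : (0 : ℝ) ≤ M := Nat.cast_nonneg _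
        linarith
      have h2 : (N : ℝ) * (2 * (1 + κ) * ε) * 8 ≤ 16 * (1 + κ) ^ 2 * (N + 1) * ε := by
        have h3 : (N : ℝ) * (1 + κ) ≤ (1 + κ) ^ 2 * (N + 1) := by
          have hN0 : (0 : ℝ) ≤ N := Nat.cast_nonneg _
          nlinarith [mul_nonneg hN0 hκ0.le, mul_nonneg (mul_nonneg hN0 hκ0.le) hκ0.le]
        calc (N : ℝ) * (2 * (1 + κ) * ε) * 8 = 16 * ε * ((N : ℝ) * (1 + κ)) := by ring
          _ ≤ 16 * ε * ((1 + κ) ^ 2 * (N + 1)) := mul_le_mul_of_nonneg_left h3 (by positivity)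
          _ = _ := by ring
      linarith
    have hn2 : ‖E - ((μ n : ℂ) - 1 + Complex.I)‖ ≤ 1 / 8 := hn.trans hb
    constructor
    · have h1 : ‖E‖ ≤ ‖E - ((μ n : ℂ) - 1 + Complex.I)‖ + ‖((μ n : ℂ) - 1 + Complex.I)‖ := by
        calc ‖E‖ = ‖(E - ((μ n : ℂ) - 1 + Complex.I)) + ((μ n : ℂ) - 1 + Complex.I)‖ := by
              congr 1; ring
          _ ≤ _ := norm_add_le _ _
      have h2 : ‖((μ n : ℂ) - 1 + Complex.I)‖ ≤ (μ n - 1) + 1 := by
        refine (norm_add_le _ _).trans ?_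
        rw [Complex.norm_I]
        have h3 : ((μ n : ℂ) - 1) = ((μ n - 1 : ℝ) : ℂ) := by push_cast; ring
        rw [h3, Complex.norm_real, Real.norm_of_nonneg (by linarith [hμ1 n])]
      have h4 := hμn n
      linarith
    · have h1 : |(E - ((μ n : ℂ) - 1 + Complex.I)).im| ≤ 1 / 8 := (Complex.abs_im_le_norm _).trans hn2
      have h2 : (E - ((μ n : ℂ) - 1 + Complex.I)).im = E.im - 1 := by simp
      rw [h2] at h1
      have := (abs_le.1 h1).1
      linarith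
  · -- lower bound for the number of eigenvalues
    obtain ⟨r, hr⟩ : ∃ r : ℝ, r = hh * (c1 / √β) := ⟨_, rfl⟩
    have hr0 : 0 < r := by rw [hr]; positivity
    rw [← hr] at hr1
    obtain ⟨N0, c, hsep, hc4, hN0⟩ := grid d hd r hr0 hr1
    have hr4 : r ≤ 1 / 4 := by
      refine hr1.trans ?_
      rw [div_le_div_iff₀ (by positivity) (by norm_num)]
      linarith
    have hle : N0 ≤ N := by
      by_contra hcon
      push Not at hcon
      -- a trial function orthogonal to all u n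
      let L : (Fin N0 → ℂ) →ₗ[ℂ] (Fin N → ℂ) :=
        LinearMap.pi fun n => (innerSL ℂ (u n) : L2d d →ₗ[ℂ] ℂ) ∘ₗ
          (Fintype.linearCombination ℂ fun i => bump r (c i))
      have hker : LinearMap.ker L ≠ ⊥ := by
        refine LinearMap.ker_ne_bot_of_finrank_lt ?_
        rw [Module.finrank_fin_fun, Module.finrank_fin_fun]
        exact hcon
      obtain ⟨a, haL, ha0⟩ := (Submodule.ne_bot_iff _).1 hker
      obtain ⟨f, hf⟩ : ∃ f : L2d d, f = ∑ i, a i • bump r (c i) := ⟨_, rfl⟩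
      have hfo : ∀ n, inner ℂ (u n) f = 0 := by
        intro n
        have h1 : L a = 0 := haL
        have h2 := congrFun h1 n
        rw [hf]
        exact h2
      have hfH : InH1 f := by rw [hf]; exact (comb_H1 r c hr0 hsep a).1
      have hfn : ‖f‖ ^ 2 = (∑ i, ‖a i‖ ^ 2) * gam d r := by
        rw [hf]; exact comb_norm r c hr0 hsep a
      have hgam : 0 < gam d r := lt_of_lt_of_le (by have := vd_pos (d := d); positivity)
        (gam_ge r hr0)
      have hsa : 0 < ∑ i, ‖a i‖ ^ 2 := by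
        obtain ⟨i, hi⟩ := Function.ne_iff.1 ha0
        have hi' : 0 < ‖a i‖ ^ 2 := by
          have : 0 < ‖a i‖ := norm_pos_iff.2 hi
          positivity
        exact lt_of_lt_of_le hi' (Finset.single_le_sum (f := fun i => ‖a i‖ ^ 2)
          (fun i _ => by positivity) (Finset.mem_univ i))
      have hfpos : 0 < ‖f‖ ^ 2 := by rw [hfn]; positivity
      have hqf : q1 hh κ Wp f ≤ (β / 2 + 2) * ‖f‖ ^ 2 := by
        rw [hf]
        refine comb_q1 r c hr0 hr4 hsep hc4 Wp Wp_nonneg Wp_meas Wp_half hh κ (β / 2) ?_ a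
        rw [hr, mul_pow, div_pow, Real.sq_sqrt hβ0.le, hc1sq]
        have h4 : (0 : ℝ) < 4 ^ d := by positivity
        refine le_of_eq ?_
        field_simp
        norm_num
      have hvar := hT2 f hfH
      have hQf := hQ f hfo
      have hqf0 : 0 ≤ q1 hh κ Wp f := by
        unfold q1
        have h5 : 0 ≤ hh ^ 2 * en f := mul_nonneg (sq_nonneg _) (en_nonneg _)
        have h6 : 0 ≤ ∫ x, Wp x * ‖f x‖ ^ 2 := integral_nonneg fun x =>
          mul_nonneg (Wp_nonneg x) (sq_nonneg _)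
        have h7 : 0 ≤ κ * ‖CC f‖ ^ 2 := by positivity
        have h8 := sq_nonneg ‖f‖
        linarith
      have h9 : (‖f‖ ^ 2) ^ 2 ≤ (μ'⁻¹ * ‖f‖ ^ 2) * ((β / 2 + 2) * ‖f‖ ^ 2) :=
        hvar.trans (mul_le_mul hQf hqf hqf0 (by positivity))
      have h10 : μ' * (‖f‖ ^ 2) ^ 2 ≤ (β / 2 + 2) * (‖f‖ ^ 2) ^ 2 := by
        calc μ' * (‖f‖ ^ 2) ^ 2 ≤ μ' * ((μ'⁻¹ * ‖f‖ ^ 2) * ((β / 2 + 2) * ‖f‖ ^ 2)) :=
              mul_le_mul_of_nonneg_left h9 hμ'pos.le
          _ = (μ' * μ'⁻¹) * ((β / 2 + 2) * (‖f‖ ^ 2) ^ 2) := by ring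
          _ = _ := by rw [mul_inv_cancel₀ hμ'pos.ne', one_mul]
      have h11 : μ' ≤ β / 2 + 2 := le_of_mul_le_mul_right h10 (by positivity)
      linarith
    have hle' : (N0 : ℝ) ≤ N := by exact_mod_cast hle
    refine le_trans (le_of_eq ?_) (hN0.trans hle')
    rw [← mul_pow]
    congr 1
    rw [hr]
    field_simp

end Pool.Agent.Q177.CW
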