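import Mathlib
import Pool.Agent.Q177.CW.Core

namespace Pool.Agent.Q177.CW
open MeasureTheory Filter Topology
open scoped ENNReal

noncomputable def dl (E : ℂ) : ℝ := Metric.infDist E {z : ℂ | 0 ≤ z.re ∧ z.im = 0}

theorem dl_le (E : ℂ) : dl E ≤ ‖E‖ := by
  have h : (0 : ℂ) ∈ {z : ℂ | 0 ≤ z.re ∧ z.im = 0} := by simp
  have := Metric.infDist_le_dist_of_mem (x := E) h
  rwa [dist_zero_right] at this

theorem im_le_dl (E : ℂ) : |E.im| ≤ dl E := by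
  unfold dl
  rw [Metric.le_infDist ⟨0, by simp⟩]
  rintro z ⟨-, hz⟩
  rw [dist_eq_norm]
  have h := Complex.abs_im_le_norm (E - z)
  rwa [Complex.sub_im, hz, sub_zero] at h

theorem w_lower (d : ℕ) (γ σ : ℝ) (hσ : σ ≤ d / 2) (hγ : 0 < γ) (E : ℂ) (hE : 1 / 2 ≤ E.im) :
    (1 / 2) ^ (γ + d / 2) * ‖E‖ ^ (-((d : ℝ) / 2)) ≤ ‖E‖ ^ (-σ) * dl E ^ (γ + σ) := by
  have h1 : 1 / 2 ≤ dl E := (hE.trans (le_abs_self _)).trans (im_le_dl E)
  have h2 := dl_le E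
  obtain ⟨x, hx⟩ : ∃ x, x = ‖E‖ := ⟨_, rfl⟩
  obtain ⟨y, hy⟩ : ∃ y, y = dl E := ⟨_, rfl⟩
  rw [← hy] at h1 h2 ⊢
  rw [← hx] at h2 ⊢
  have hy0 : 0 < y := by linarith
  have hx0 : 0 < x := by linarith
  obtain ⟨s, hs⟩ : ∃ s : ℝ, s = d / 2 - σ := ⟨_, rfl⟩
  have hs0 : 0 ≤ s := by rw [hs]; linarith
  have e1 : x ^ (-σ) * y ^ (γ + σ) = (x ^ (-((d : ℝ) / 2)) * y ^ (γ + d / 2)) * (x / y) ^ s := by
    rw [Real.div_rpow hx0.le hy0.le, div_eq_mul_inv (x ^ s), ← Real.rpow_neg hy0.le]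
    have e2 : x ^ (-σ) = x ^ (-((d : ℝ) / 2)) * x ^ s := by
      rw [← Real.rpow_add hx0]; congr 1; rw [hs]; ring
    have e3 : y ^ (γ + σ) = y ^ (γ + d / 2) * y ^ (-s) := by
      rw [← Real.rpow_add hy0]; congr 1; rw [hs]; ring
    rw [e2, e3]; ring
  rw [e1]
  have h3 : 1 ≤ (x / y) ^ s := Real.one_le_rpow ((one_le_div hy0).2 h2) hs0
  have h4 : (1 / 2 : ℝ) ^ (γ + d / 2) ≤ y ^ (γ + d / 2) :=
    Real.rpow_le_rpow (by norm_num) h1 (by positivity)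
  have h5 : 0 ≤ x ^ (-((d : ℝ) / 2)) := Real.rpow_nonneg hx0.le _
  calc (1 / 2 : ℝ) ^ (γ + d / 2) * x ^ (-((d : ℝ) / 2))
      ≤ y ^ (γ + d / 2) * x ^ (-((d : ℝ) / 2)) := mul_le_mul_of_nonneg_right h4 h5
    _ = (x ^ (-((d : ℝ) / 2)) * y ^ (γ + d / 2)) * 1 := by ring
    _ ≤ _ := mul_le_mul_of_nonneg_left h3 (by positivity)

theorem cake (d : ℕ) (hd : 1 ≤ d) (x : ℝ) (hx : 0 < x) (J : ℕ) :
    ∑ j ∈ Finset.range J, (if x ≤ 3 * 4 ^ (j + 1) then ((3 : ℝ) * 4 ^ (j + 1)) ^ (-((d : ℝ) / 2))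
      else 0) ≤ 2 * x ^ (-((d : ℝ) / 2)) := by
  have hd1 : (1 : ℝ) ≤ d := by exact_mod_cast hd
  have hx' : 0 < x ^ (-((d : ℝ) / 2)) := Real.rpow_pos_of_pos hx _
  let t : ℕ → ℝ := fun j => 3 * 4 ^ (j + 1)
  have ht0 : ∀ j, 0 < t j := fun j => by show (0 : ℝ) < 3 * 4 ^ (j + 1); positivity
  have htm : Monotone t := by
    refine monotone_nat_of_le_succ fun j => ?_
    show (3 : ℝ) * 4 ^ (j + 1) ≤ 3 * 4 ^ (j + 1 + 1)
    rw [pow_succ (4 : ℝ) (j + 1)]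
    have : (0 : ℝ) < 4 ^ (j + 1) := by positivity
    linarith
  let a : ℕ → ℝ := fun j => (t j) ^ (-((d : ℝ) / 2))
  have ha0 : ∀ j, 0 < a j := fun j => Real.rpow_pos_of_pos (ht0 j) _
  have hastep : ∀ j, 2 * a (j + 1) ≤ a j := by
    intro j
    have e1 : t (j + 1) = 4 * t j := by
      show (3 : ℝ) * 4 ^ (j + 1 + 1) = 4 * (3 * 4 ^ (j + 1))
      ring
    have e2 : a (j + 1) = (4 : ℝ) ^ (-((d : ℝ) / 2)) * a j := by
      show (t (j + 1)) ^ (-((d : ℝ) / 2)) = _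
      rw [e1, Real.mul_rpow (by norm_num) (ht0 j).le]
    have e3 : (4 : ℝ) ^ (-((d : ℝ) / 2)) ≤ 1 / 2 := by
      have h1 : (4 : ℝ) ^ (-((d : ℝ) / 2)) ≤ (4 : ℝ) ^ (-(1 / 2) : ℝ) :=
        Real.rpow_le_rpow_of_exponent_le (by norm_num) (by linarith)
      have h2 : (4 : ℝ) ^ (-(1 / 2) : ℝ) = 1 / 2 := by
        rw [show (4 : ℝ) = 2 ^ (2 : ℝ) by norm_num, ← Real.rpow_mul (by norm_num)]
        norm_num
      linarith
    rw [e2]
    have := mul_le_mul_of_nonneg_right e3 (ha0 j).le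
    linarith
  let S : ℕ → ℝ := fun J => ∑ j ∈ Finset.range J, (if x ≤ t j then a j else 0)
  have hSs : ∀ J, S (J + 1) = S J + (if x ≤ t J then a J else 0) := fun J =>
    Finset.sum_range_succ _ _
  have hzero : ∀ J, t J < x → S (J + 1) = 0 := by
    intro J hJ
    refine Finset.sum_eq_zero fun j hj => ?_
    rw [Finset.mem_range] at hj
    rw [if_neg]
    have := htm (by omega : j ≤ J)
    exact not_le.2 (lt_of_le_of_lt this hJ)
  have key : ∀ J, x ≤ t J → S J + 2 * a J ≤ 2 * x ^ (-((d : ℝ) / 2)) := by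
    have hal : ∀ J, x ≤ t J → a J ≤ x ^ (-((d : ℝ) / 2)) := fun J hJ =>
      Real.rpow_le_rpow_of_nonpos hx hJ (by linarith)
    intro J
    induction J with
    | zero =>
      intro h
      have h1 : S 0 = 0 := rfl
      rw [h1]
      linarith [hal 0 h]
    | succ J ih =>
      intro h
      by_cases h1 : x ≤ t J
      · rw [hSs, if_pos h1]
        linarith [ih h1, hastep J]
      · push Not at h1
        rw [hzero J h1]
        linarith [hal (J + 1) h]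
  show S J ≤ 2 * x ^ (-((d : ℝ) / 2))
  by_cases h1 : x ≤ t J
  · linarith [key J h1, ha0 J]
  · push Not at h1
    rcases J with _ | J
    · have h2 : S 0 = 0 := rfl
      rw [h2]; positivity
    · have h2 := hzero (J + 1) h1
      rw [hSs, if_neg (not_le.2 h1), add_zero] at h2
      rw [h2]; positivity

theorem final (d : ℕ) (hd : 1 ≤ d) (m : ℝ → ℂ → ℕ) (c : ℝ) (hc : 0 < c)
    (H : ∀ β : ℝ, 4 ≤ β → ∀ᶠ h : ℝ in 𝓝[>] 0, ∃ S : Finset ℂ,
      (∀ E ∈ S, ‖E‖ ≤ 3 * β ∧ 1 / 2 ≤ E.im) ∧ c * (√β / h) ^ d ≤ ∑ E ∈ S, (m h E : ℝ))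
    (γ σ : ℝ) (hγ : 0 < γ) (hσ : σ ≤ d / 2) :
    Tendsto (fun h : ℝ => ENNReal.ofReal (h ^ d) *
      ∑' E : ℂ, (m h E : ℝ≥0∞) * ENNReal.ofReal (‖E‖ ^ (-σ) * dl E ^ (γ + σ))) (𝓝[>] 0) (𝓝 ⊤) := by
  classical
  rw [ENNReal.tendsto_nhds_top_iff_nat]
  intro n
  obtain ⟨b, hb⟩ : ∃ b : ℝ, b = (1 / 2) ^ (γ + d / 2) := ⟨_, rfl⟩
  have hb0 : 0 < b := by rw [hb]; positivity
  obtain ⟨c3, hc3⟩ : ∃ c3 : ℝ, c3 = b / 2 * c * 3 ^ (-((d : ℝ) / 2)) := ⟨_, rfl⟩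
  have hc30 : 0 < c3 := by rw [hc3]; positivity
  obtain ⟨J, hJ⟩ := exists_nat_gt ((n : ℝ) / c3)
  have hJ' : (n : ℝ) < c3 * J := by rwa [div_lt_iff₀' hc30] at hJ
  have hall : ∀ᶠ h : ℝ in 𝓝[>] 0, ∀ j ∈ Finset.range J, ∃ S : Finset ℂ,
      (∀ E ∈ S, ‖E‖ ≤ 3 * 4 ^ (j + 1) ∧ 1 / 2 ≤ E.im) ∧
        c * (√(4 ^ (j + 1)) / h) ^ d ≤ ∑ E ∈ S, (m h E : ℝ) := by
    rw [Filter.eventually_all_finset]
    intro j _
    refine H (4 ^ (j + 1)) ?_
    calc (4 : ℝ) = 4 ^ 1 := by norm_num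
      _ ≤ 4 ^ (j + 1) := pow_le_pow_right₀ (by norm_num) (by omega)
  filter_upwards [hall, self_mem_nhdsWithin] with h hh hpos
  have h0 : (0 : ℝ) < h := hpos
  choose! S hS1 hS2 using hh
  let U : Finset ℂ := (Finset.range J).biUnion S
  let w : ℂ → ℝ := fun E => ‖E‖ ^ (-σ) * dl E ^ (γ + σ)
  have hw0 : ∀ E, 0 ≤ w E := fun E => mul_nonneg (Real.rpow_nonneg (norm_nonneg _) _)
    (Real.rpow_nonneg Metric.infDist_nonneg _)
  have hU : ∀ E ∈ U, 1 / 2 ≤ E.im := by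
    intro E hE
    obtain ⟨j, hj, hEj⟩ := Finset.mem_biUnion.1 hE
    exact (hS1 j hj E hEj).2
  -- pointwise lower bound of the weight
  have hpt : ∀ E ∈ U, b / 2 * ∑ j ∈ Finset.range J, (if E ∈ S j then
      ((3 : ℝ) * 4 ^ (j + 1)) ^ (-((d : ℝ) / 2)) else 0) ≤ w E := by
    intro E hE
    have hEim := hU E hE
    have hEn : 0 < ‖E‖ := by
      have := (le_abs_self E.im).trans (Complex.abs_im_le_norm E)
      linarith
    have h1 : ∑ j ∈ Finset.range J, (if E ∈ S j then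
        ((3 : ℝ) * 4 ^ (j + 1)) ^ (-((d : ℝ) / 2)) else 0) ≤ 2 * ‖E‖ ^ (-((d : ℝ) / 2)) := by
      refine le_trans ?_ (cake d hd ‖E‖ hEn J)
      refine Finset.sum_le_sum fun j hj => ?_
      by_cases hEj : E ∈ S j
      · rw [if_pos hEj, if_pos (hS1 j hj E hEj).1]
      · rw [if_neg hEj]
        split_ifs
        · positivity
        · exact le_rfl
    have h2 := w_lower d γ σ hσ hγ E hEim
    rw [← hb] at h2
    calc b / 2 * _ ≤ b / 2 * (2 * ‖E‖ ^ (-((d : ℝ) / 2))) :=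
          mul_le_mul_of_nonneg_left h1 (by positivity)
      _ = b * ‖E‖ ^ (-((d : ℝ) / 2)) := by ring
      _ ≤ w E := h2
  have hreal : c3 * J * (h⁻¹) ^ d ≤ ∑ E ∈ U, (m h E : ℝ) * w E := by
    calc c3 * J * (h⁻¹) ^ d
        = ∑ j ∈ Finset.range J, b / 2 * (((3 : ℝ) * 4 ^ (j + 1)) ^ (-((d : ℝ) / 2)) *
            (c * (√(4 ^ (j + 1)) / h) ^ d)) := by
          have e1 : ∀ j ∈ Finset.range J, b / 2 * (((3 : ℝ) * 4 ^ (j + 1)) ^ (-((d : ℝ) / 2)) *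
            (c * (√(4 ^ (j + 1)) / h) ^ d)) = c3 * (h⁻¹) ^ d := by
            intro j _
            have h4 : (0 : ℝ) < 4 ^ (j + 1) := by positivity
            have e2 : (√((4 : ℝ) ^ (j + 1))) ^ d = ((4 : ℝ) ^ (j + 1)) ^ ((d : ℝ) / 2) := by
              rw [Real.sqrt_eq_rpow, ← Real.rpow_natCast, ← Real.rpow_mul h4.le]
              congr 1
              ring
            have e3 : ((4 : ℝ) ^ (j + 1)) ^ (-((d : ℝ) / 2)) * ((4 : ℝ) ^ (j + 1)) ^ ((d : ℝ) / 2) = 1 := by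
              rw [← Real.rpow_add h4, neg_add_cancel, Real.rpow_zero]
            rw [div_pow, e2, Real.mul_rpow (by norm_num) h4.le, hc3, inv_pow]
            calc b / 2 * ((3 : ℝ) ^ (-((d : ℝ) / 2)) * ((4 : ℝ) ^ (j + 1)) ^ (-((d : ℝ) / 2)) *
                  (c * (((4 : ℝ) ^ (j + 1)) ^ ((d : ℝ) / 2) / h ^ d)))
                = (b / 2 * c * 3 ^ (-((d : ℝ) / 2))) *
                  (((4 : ℝ) ^ (j + 1)) ^ (-((d : ℝ) / 2)) * ((4 : ℝ) ^ (j + 1)) ^ ((d : ℝ) / 2)) *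
                  (h ^ d)⁻¹ := by
                  rw [div_eq_mul_inv (((4 : ℝ) ^ (j + 1)) ^ ((d : ℝ) / 2))]; ring
              _ = _ := by rw [e3, mul_one]
          rw [Finset.sum_congr rfl e1, Finset.sum_const, Finset.card_range, nsmul_eq_mul]
          ring
      _ ≤ ∑ j ∈ Finset.range J, b / 2 * (((3 : ℝ) * 4 ^ (j + 1)) ^ (-((d : ℝ) / 2)) *
            ∑ E ∈ S j, (m h E : ℝ)) := by
          refine Finset.sum_le_sum fun j hj => ?_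
          refine mul_le_mul_of_nonneg_left (mul_le_mul_of_nonneg_left (hS2 j hj) (by positivity))
            (by positivity)
      _ = ∑ E ∈ U, (m h E : ℝ) * (b / 2 * ∑ j ∈ Finset.range J, (if E ∈ S j then
            ((3 : ℝ) * 4 ^ (j + 1)) ^ (-((d : ℝ) / 2)) else 0)) := by
          simp_rw [Finset.mul_sum]
          rw [Finset.sum_comm (s := U)]
          refine Finset.sum_congr rfl fun j hj => ?_
          have e1 : S j ⊆ U := fun E hE => Finset.mem_biUnion.2 ⟨j, hj, hE⟩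
          rw [← Finset.sum_subset e1]
          · refine Finset.sum_congr rfl fun E hE => ?_
            rw [if_pos hE]; ring
          · intro E _ hE
            rw [if_neg hE]; ring
      _ ≤ ∑ E ∈ U, (m h E : ℝ) * w E :=
          Finset.sum_le_sum fun E hE => mul_le_mul_of_nonneg_left (hpt E hE) (Nat.cast_nonneg _)
  have hE1 : ENNReal.ofReal (∑ E ∈ U, (m h E : ℝ) * w E) ≤
      ∑' E : ℂ, (m h E : ℝ≥0∞) * ENNReal.ofReal (w E) := by
    rw [ENNReal.ofReal_sum_of_nonneg fun E _ => mul_nonneg (Nat.cast_nonneg _) (hw0 E)]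
    refine le_trans (le_of_eq ?_) (ENNReal.sum_le_tsum U)
    refine Finset.sum_congr rfl fun E _ => ?_
    rw [ENNReal.ofReal_mul (Nat.cast_nonneg _), ENNReal.ofReal_natCast]
  have hfin : ENNReal.ofReal (c3 * J) ≤ ENNReal.ofReal (h ^ d) *
      ∑' E : ℂ, (m h E : ℝ≥0∞) * ENNReal.ofReal (w E) := by
    calc ENNReal.ofReal (c3 * J) = ENNReal.ofReal (h ^ d * (c3 * J * (h⁻¹) ^ d)) := by
          congr 1
          rw [inv_pow]
          field_simp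
      _ = ENNReal.ofReal (h ^ d) * ENNReal.ofReal (c3 * J * (h⁻¹) ^ d) :=
          ENNReal.ofReal_mul (by positivity)
      _ ≤ _ := mul_le_mul_right ((ENNReal.ofReal_le_ofReal hreal).trans hE1) _
  refine lt_of_lt_of_le ?_ hfin
  rw [← ENNReal.ofReal_natCast]
  exact (ENNReal.ofReal_lt_ofReal_iff (lt_of_le_of_lt (Nat.cast_nonneg n) hJ')).2 hJ'

end Pool.Agent.Q177.CW
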