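import Mathlib
import Pool.Agent.Q177.CW.Core

namespace Pool.Agent.Q177.CW
open MeasureTheory Filter Topology Pool.Agent.Helper209.CX
open scoped ENNReal

theorem Vp_memLp {d : ℕ} (hd : 1 ≤ d) (p : ℝ) (hp : 0 < p) :
    MemLp (Vp : Ed d → ℂ) (ENNReal.ofReal p) volume := by
  have m1 : MemLp (fun x : Ed d => ((Wp x : ℝ) : ℂ)) (ENNReal.ofReal p) volume :=
    (Wp_memLp hd p hp).ofReal
  have m2 : MemLp ((Metric.ball (0 : Ed d) 1).indicator fun _ => Complex.I) (ENNReal.ofReal p)
      volume :=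
    memLp_indicator_const _ measurableSet_ball _ (Or.inr measure_ball_lt_top.ne)
  have m3 := m1.add m2
  refine m3.ae_eq (Eventually.of_forall fun x => ?_)
  simp only [Pi.add_apply, Set.indicator, mem_ball_zero_iff]
  rw [Vp_eq]
  unfold cc
  by_cases h : ‖x‖ < 1
  · rw [if_pos h, if_neg (not_le.2 h)]; simp
  · rw [if_neg h, if_pos (not_lt.1 h)]; simp

end Pool.Agent.Q177.CW
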